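import Pool.Agent.MP_7b45f6_mp.H97.Spec

/-!
# Row ARC: one arc from `p` to `q` is left
-/

set_option autoImplicit false

namespace Pool.Agent.MP_7b45f6_mp.H97

open Classical Pool.Agent.MP_7b45f6_mp.H32

namespace ARCx

theorem mem_edges {e : Sym2 P} : ∀ {w : List P},
    e ∈ edges w ↔ ∃ (u v : List P) (a b : P), w = u ++ a :: b :: v ∧ e = s(a, b)
  | [] => by simp [CONV.edges_nil]
  | [p] => by
    simp only [CONV.edges_one, Finset.notMem_empty, false_iff]
    rintro ⟨u, v, a, b, h, -⟩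
    have := congrArg List.length h
    simp at this
    omega
  | p :: q :: l => by
    rw [CONV.edges_cons, Finset.mem_insert, mem_edges]
    constructor
    · rintro (rfl | ⟨u, v, a, b, h, rfl⟩)
      · exact ⟨[], l, p, q, rfl, rfl⟩
      · exact ⟨p :: u, v, a, b, by rw [h]; rfl, rfl⟩
    · rintro ⟨u, v, a, b, h, rfl⟩
      cases u with
      | nil =>
        simp only [List.nil_append, List.cons.injEq] at h
        exact Or.inl (by rw [h.1, h.2.1])
      | cons c u =>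
        simp only [List.cons_append, List.cons.injEq] at h
        exact Or.inr ⟨u, v, a, b, h.2, rfl⟩

theorem rev_aux {e : Sym2 P} {w : List P} (h : e ∈ edges w) : e ∈ edges w.reverse := by
  obtain ⟨u, v, a, b, rfl, rfl⟩ := mem_edges.1 h
  exact mem_edges.2 ⟨v.reverse, u.reverse, b, a, by simp, Sym2.eq_swap⟩

theorem edges_rev {e : Sym2 P} {w : List P} : e ∈ edges w.reverse ↔ e ∈ edges w :=
  ⟨fun h => by simpa using rev_aux h, rev_aux⟩

theorem hd_ne {v : List P} (h : v.Nodup) (h2 : 2 ≤ v.length) : hd v ≠ lt v := by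
  match v, h2 with
  | a :: b :: l, _ =>
    rw [hd_cons, lt_cons_cons]
    intro hc
    exact (List.nodup_cons.1 h).1 (hc ▸ lt_mem (List.cons_ne_nil b l))

theorem run (h2 : StepStmt) {B D : Set P} {p q : P} {T : P → P → Prop} {τ : P → ℕ ×ₗ ℤ}
    {K : Finset (Sym2 P)} (hF : Funnel B D p q T τ) (n : ℕ) :
    ∀ (U : Finset P) (X : Set P) (L : List (List P)), U.card = n → St B D T K X L →
      (∀ u, u ∈ U ↔ u ∈ D ∧ u ∉ X ∧ u ≠ p ∧ u ≠ q) →
      (∀ a ∈ X, a ≠ p ∧ a ≠ q ∧ ∀ u ∈ U, τ a ≤ τ u) →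
      ∃ X' L', St B D T K X' L' ∧ ∀ u ∈ D, u ∉ X' → u = p ∨ u = q := by
  induction n with
  | zero =>
    intro U X L hU hS h1 _
    refine ⟨X, L, hS, fun u hu hx => ?_⟩
    by_contra hc
    push Not at hc
    have := (h1 u).2 ⟨hu, hx, hc.1, hc.2⟩
    rw [Finset.card_eq_zero.1 hU] at this
    simp at this
  | succ n ih =>
    intro U X L hU hS h1 h3
    obtain ⟨c, hc, hmin⟩ := U.exists_min_image τ (Finset.card_pos.1 (by omega))
    obtain ⟨c1, c2, c3, c4⟩ := (h1 c).1 hc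
    obtain ⟨L', hL'⟩ := h2 B D p q T τ K X L c hF hS c1 c2 c3 c4
      fun a ha => ⟨(h3 a ha).1, (h3 a ha).2.1, (h3 a ha).2.2 c hc⟩
    refine ih (U.erase c) (insert c X) L' (by rw [Finset.card_erase_of_mem hc]; omega) hL'
      (fun u => ?_) fun a ha => ?_
    · rw [Finset.mem_erase, h1, Set.mem_insert_iff]
      tauto
    · rcases ha with rfl | ha
      · exact ⟨c3, c4, fun u hu => hmin u (Finset.mem_of_mem_erase hu)⟩
      · exact ⟨(h3 a ha).1, (h3 a ha).2.1,
          fun u hu => (h3 a ha).2.2 u (Finset.mem_of_mem_erase hu)⟩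

end ARCx

theorem arc_of (h1 : InitStmt) (h2 : StepStmt) : ArcStmt := by
  intro B D p q T τ w hF hw e1 e2 e3
  obtain ⟨L₀, hL₀⟩ := h1 B D T w hw e1 e2 e3
  obtain ⟨X, L, hS, hX⟩ := ARCx.run h2 hF _ (hF.fin.toFinset.filter fun u => u ≠ p ∧ u ≠ q) ∅ L₀
    rfl hL₀ (fun u => by simp) (fun a ha => absurd ha (Set.notMem_empty a))
  have nd : ∀ v ∈ L, v.Nodup := (List.nodup_flatten.1 hS.nd).1
  have ends : ∀ v ∈ L, (hd v = p ∧ lt v = q) ∨ (hd v = q ∧ lt v = p) := by
    intro v hv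
    have a1 := hX _ (hS.en v hv).1.1 (hS.en v hv).1.2
    have a2 := hX _ (hS.en v hv).2.1 (hS.en v hv).2.2
    have a3 := ARCx.hd_ne (nd v hv) (hS.ch v hv).2
    rcases a1 with a1 | a1 <;> rcases a2 with a2 | a2
    · exact absurd (a1.trans a2.symm) a3
    · exact Or.inl ⟨a1, a2⟩
    · exact Or.inr ⟨a1, a2⟩
    · exact absurd (a1.trans a2.symm) a3
  have mem : ∀ v ∈ L, p ∈ v := by
    intro v hv
    have h0 : v ≠ [] := by
      rintro rfl
      exact absurd (hS.ch _ hv).2 (by simp)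
    rcases ends v hv with h | h
    · exact h.1 ▸ hd_mem h0
    · exact h.2 ▸ lt_mem h0
  obtain ⟨v, rfl⟩ : ∃ v, L = [v] := by
    match L, hS.ne, hS.nd, mem with
    | [v], _, _, _ => exact ⟨v, rfl⟩
    | v :: v' :: L', _, hn, hm =>
      exfalso
      rw [List.flatten_cons, List.nodup_append] at hn
      exact hn.2.2 p (hm v (by simp)) p
        (List.mem_flatten.2 ⟨v', by simp, hm v' (by simp)⟩) rfl
  have hv : v ∈ [v] := by simp
  have ed : ∀ e, ¬ Ins B e → (e ∈ edges v ↔ e ∈ ce w) := fun e he => by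
    simpa using hS.ed e he
  rcases ends v hv with h | h
  · exact ⟨v, nd v hv, (hS.ch v hv).1, (hS.ch v hv).2, h.1, h.2, ed, hS.vd v hv⟩
  · refine ⟨v.reverse, List.nodup_reverse.2 (nd v hv), ?_, by simpa using (hS.ch v hv).2,
      by rw [hd_reverse, h.2], by rw [lt_reverse, h.1],
      fun e he => by rw [ARCx.edges_rev, ed e he],
      fun x hx => hS.vd v hv x (List.mem_reverse.1 hx)⟩
    rw [List.isChain_reverse]
    exact (hS.ch v hv).1.imp fun _ _ h => Adj.symm h

end Pool.Agent.MP_7b45f6_mp.H97
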