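import Pool.Agent.MP_7b45f6_mp.H97.Spec

/-!
# Clearing a box and inserting the pattern
-/

set_option autoImplicit false

namespace Pool.Agent.MP_7b45f6_mp.H97

open Classical Pool.Agent.MP_7b45f6_mp.H32

namespace CLEARx

theorem mem_edges_append {e : Sym2 P} {u v : List P} (hu : u ≠ []) (hv : v ≠ []) :
    e ∈ edges (u ++ v) ↔ e ∈ edges u ∨ e = s(lt u, hd v) ∨ e ∈ edges v := by
  induction u with
  | nil => exact absurd rfl hu
  | cons p l ih =>
    cases l with
    | nil =>
      cases v with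
      | nil => exact absurd rfl hv
      | cons q m => simp [CONV.edges_cons, CONV.edges_one]
    | cons q m =>
      have h := ih (by simp)
      rw [List.cons_append] at h
      rw [List.cons_append, List.cons_append, CONV.edges_cons, CONV.edges_cons, Finset.mem_insert,
        Finset.mem_insert, h, lt_cons_cons, or_assoc]

theorem chain_append {u v : List P} (hu : u ≠ []) (hv : v ≠ []) (h1 : u.IsChain Adj)
    (h2 : v.IsChain Adj) (h3 : Adj (lt u) (hd v)) : (u ++ v).IsChain Adj := by
  rw [← jn_eq_zero] at h1 h2 ⊢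
  rw [jn] at h1 h2 ⊢
  rw [cs_append _ hu hv, h1, h2, jmp_adj h3]

theorem take_one {u : List P} (hu : u ≠ []) : u.take 1 = [hd u] := by
  cases u with
  | nil => exact absurd rfl hu
  | cons p l => rfl

theorem hd_of {u : List P} {x : P} (h : u.head? = some x) : u ≠ [] ∧ hd u = x := by
  cases u with
  | nil => simp at h
  | cons p l => exact ⟨by simp, by simpa using h⟩

theorem lt_of {u : List P} {x : P} (h : u.getLast? = some x) : lt u = x := by
  rcases List.eq_nil_or_concat' u with rfl | ⟨l, p, rfl⟩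
  · simp at h
  · simpa using h

end CLEARx

open CLEARx in
theorem clear_of (h1 : ArcStmt) (h2 : TabStmt) : ClearStmt := by
  intro r γ hγ a w hw he hy
  obtain ⟨hr, γn, γc, γh, γl, γq⟩ := hγ
  obtain ⟨B, D, p, q, T, τ, hF, hbd, hBB, h7, hcube, hq, hp⟩ := h2 r a hr
  obtain ⟨v, vn, vc, vl, vh, vt, ve, vd⟩ := h1 B D p q T τ w hF hw
    (he.imp fun e h => ⟨h.1, fun y hy => h7 y (h.2 y hy).1 (h.2 y hy).2⟩)
    (by
      obtain ⟨y, y1, y2⟩ := hy
      have h3 : y ∈ verts (ce w) := by
        rw [ce, CONV.verts_eq hw.1]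
        exact List.mem_toFinset.2 y1
      obtain ⟨e, e1, e2⟩ := Finset.mem_biUnion.1 h3
      exact ⟨e, e1, fun h => y2 (hBB (h y (Sym2.mem_toFinset.1 e2)))⟩)
    (by
      intro c hc y hy h
      obtain ⟨s, t, e, hst⟩ := CONV.adj_of_edge hw.2.2 h
      refine hbd c hc y hy ?_
      rcases Sym2.eq_iff.1 e with ⟨rfl, rfl⟩ | ⟨rfl, rfl⟩
      exacts [hst, hst.symm])
  obtain ⟨γ0, γh⟩ := hd_of γh
  have γl := lt_of γl
  have v0 : v ≠ [] := fun e => by simp [e] at vl
  set g : List P := γ.map fun y => a + o5 + y with hg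
  have g0 : g ≠ [] := by simpa [hg] using γ0
  have gh : hd g = a + o5 := by rw [hg, hd_map _ γ0, γh, add_zero]
  have gl : lt g = a + o5 + fun _ => (r : ℤ) := by rw [hg, lt_map _ γ0, γl]
  have gB : ∀ x ∈ g, x ∈ B ∧ x ∉ D := by
    intro x hx
    obtain ⟨y, y1, rfl⟩ := List.mem_map.1 hx
    exact hcube y (γq y y1)
  have gc : g.IsChain Adj := by
    rw [hg, List.isChain_map]
    refine γc.imp fun s t h => ?_
    rw [add_comm _ s, add_comm _ t, adj_add]
    exact h
  have w0 : v ++ g ≠ [] := by simp [v0]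
  have tk : (v ++ g).take 1 = [p] := by rw [take_one w0, hd_append v0, vh]
  have l3 : 3 ≤ (v ++ g).length := by
    have := List.length_pos_iff.2 g0
    rw [List.length_append]
    omega
  have ed : ∀ e, e ∈ ce (v ++ g) ↔
      (e ∈ edges v ∨ e = s(q, hd g) ∨ e ∈ edges g) ∨ e = s(lt g, p) := by
    intro e
    rw [ce, tk, mem_edges_append w0 (by simp), mem_edges_append v0 g0, vt, lt_append _ g0,
      CONV.edges_one]
    simp
  refine ⟨v ++ g, ⟨l3, ?_, ?_⟩, fun e hn => ?_, fun y hy => ?_, fun e h => ?_⟩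
  · refine List.nodup_append.2 ⟨vn, γn.map (add_right_injective _), ?_⟩
    rintro x hx _ hx' rfl
    exact (gB x hx').2 (vd x hx (gB x hx').1)
  · rw [tk]
    refine chain_append w0 (by simp) (chain_append v0 g0 vc gc ?_) (by simp) ?_
    · rw [vt, gh]
      exact hq
    · rw [lt_append _ g0, gl]
      exact hp
  · have hB : ¬ Ins B e := fun h => hn fun x hx => hBB (h x hx)
    rw [ed, ← ve e hB]
    refine ⟨?_, fun h => .inl (.inl h)⟩
    rintro ((h | rfl | h) | rfl)
    · exact h
    · refine absurd (fun x hx => ?_) hB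
      rcases Sym2.mem_iff.1 hx with rfl | rfl
      exacts [hF.sub hF.hq, (gB _ (hd_mem g0)).1]
    · exact absurd (fun x hx => (gB x (CONV.mem_of_edge hx h)).1) hB
    · refine absurd (fun x hx => ?_) hB
      rcases Sym2.mem_iff.1 hx with rfl | rfl
      exacts [(gB _ (lt_mem g0)).1, hF.sub hF.hp]
  · rw [ce, CONV.verts_eq l3, List.mem_toFinset, List.mem_append]
    constructor
    · rintro (h | h)
      · exact absurd (vd _ h (hcube y hy).1) (hcube y hy).2
      · obtain ⟨z, z1, z2⟩ := List.mem_map.1 h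
        exact add_left_cancel z2 ▸ z1
    · exact fun h => .inr (List.mem_map.2 ⟨y, h, rfl⟩)
  · exact (ed e).2 (.inl (.inr (.inr h)))

end Pool.Agent.MP_7b45f6_mp.H97
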