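import Pool.Agent.MP_7b45f6_mp.H97.Spec

open Classical Pool.Agent.MP_7b45f6_mp.H32

namespace Pool.Agent.MP_7b45f6_mp.H97

namespace CSx

noncomputable def hh (β s : ℝ) : ℝ := (Real.exp (β + s) + 1) / (Real.exp β + 1)

noncomputable def ph (β s : ℝ) (p q : Prop) : ℝ :=
  if p then hh β s * Real.exp (-s) else if q then hh β s else 1

theorem hh_pos (β s : ℝ) : 0 < hh β s := by unfold hh; positivity

theorem ph_pos (β s : ℝ) (p q : Prop) : 0 < ph β s p q := by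
  have := hh_pos β s
  unfold ph
  split_ifs <;> positivity

theorem ph_congr (β s : ℝ) {p q p' q' : Prop} (h1 : p ↔ p') (h2 : q ↔ q') :
    ph β s p q = ph β s p' q' := by
  rw [propext h1, propext h2]

theorem pair (β s : ℝ) (m : ℕ) :
    Real.exp ((β + s) * ((m + 1 : ℕ) : ℝ)) * (hh β s * Real.exp (-s) - 1) +
      Real.exp ((β + s) * m) * (hh β s - 1) = 0 := by
  have e1 : Real.exp ((β + s) * ((m + 1 : ℕ) : ℝ)) =
      Real.exp ((β + s) * m) * (Real.exp β * Real.exp s) := by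
    rw [← Real.exp_add, ← Real.exp_add]; congr 1; push_cast; ring
  have hb := Real.exp_pos β
  have hs := Real.exp_pos s
  rw [e1, hh, Real.exp_add β s, Real.exp_neg]
  field_simp
  ring

theorem step {Ω : Type} (S : Finset Ω) (σ : Ω → Ω) (a b : Ω → Prop) (F : Ω → ℝ) (k : Ω → ℕ)
    (β s : ℝ)
    (H : ∀ ω ∈ S, σ ω ∈ S ∧ σ (σ ω) = ω ∧ F (σ ω) = F ω ∧ (a ω ↔ b (σ ω)) ∧
      ¬ (a ω ∧ b ω) ∧ (a ω → k ω = k (σ ω) + 1)) :
    ∑ ω ∈ S, F ω * Real.exp ((β + s) * k ω) * ph β s (a ω) (b ω) =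
      ∑ ω ∈ S, F ω * Real.exp ((β + s) * k ω) := by
  set g : Ω → ℝ := fun ω => F ω * (Real.exp ((β + s) * k ω) * (ph β s (a ω) (b ω) - 1)) with hg
  have h1 : ∑ ω ∈ S, g ω = ∑ ω ∈ S, g (σ ω) :=
    Finset.sum_nbij' σ σ (fun ω h => (H ω h).1) (fun ω h => (H ω h).1) (fun ω h => (H ω h).2.1)
      (fun ω h => (H ω h).2.1) (fun ω h => by rw [(H ω h).2.1])
  have hA : ∀ ω ∈ S, a ω → g ω + g (σ ω) = 0 := by
    intro ω h ha
    obtain ⟨m1, -, m3, m4, -, m6⟩ := H ω h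
    have hb := m4.1 ha
    have hna : ¬ a (σ ω) := fun x => (H _ m1).2.2.2.2.1 ⟨x, hb⟩
    simp only [hg, ph, if_pos ha, if_neg hna, if_pos hb, m3, m6 ha]
    rw [← mul_add, pair, mul_zero]
  have h2 : ∀ ω ∈ S, g ω + g (σ ω) = 0 := by
    intro ω h
    obtain ⟨m1, m2, m3, m4, m5, m6⟩ := H ω h
    have m7 : a (σ ω) ↔ b ω := by
      have := (H _ m1).2.2.2.1
      rwa [m2] at this
    by_cases ha : a ω
    · exact hA ω h ha
    by_cases hb : b ω
    · have := hA _ m1 (m7.2 hb)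
      rw [m2] at this
      linarith
    · have x1 : ¬ a (σ ω) := fun x => hb (m7.1 x)
      have x2 : ¬ b (σ ω) := fun x => ha (m4.2 x)
      simp only [hg, ph, if_neg ha, if_neg hb, if_neg x1, if_neg x2, sub_self, mul_zero, add_zero]
  have h3 : ∑ ω ∈ S, g ω = 0 := by
    have := Finset.sum_eq_zero h2
    rw [Finset.sum_add_distrib, ← h1] at this
    linarith
  rw [← sub_eq_zero, ← Finset.sum_sub_distrib, ← h3]
  exact Finset.sum_congr rfl fun ω _ => by simp only [hg]; ring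

theorem all {Ω ι : Type} (S : Finset Ω) (I : Finset ι) (σ : ι → Ω → Ω) (a b : ι → Ω → Prop)
    (w : Ω → ℝ) (k : Ω → ℕ) (β s : ℝ)
    (H : ∀ i ∈ I, ∀ ω ∈ S, σ i ω ∈ S ∧ σ i (σ i ω) = ω ∧ w (σ i ω) = w ω ∧
      (a i ω ↔ b i (σ i ω)) ∧ ¬ (a i ω ∧ b i ω) ∧ (a i ω → k ω = k (σ i ω) + 1) ∧
      ∀ j ∈ I, j ≠ i → (a j (σ i ω) ↔ a j ω) ∧ (b j (σ i ω) ↔ b j ω))
    (J : Finset ι) (hJ : J ⊆ I) :
    ∑ ω ∈ S, w ω * Real.exp ((β + s) * k ω) * ∏ i ∈ J, ph β s (a i ω) (b i ω) =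
      ∑ ω ∈ S, w ω * Real.exp ((β + s) * k ω) := by
  induction J using Finset.induction_on with
  | empty => simp
  | insert i J hi ih =>
    have hiI : i ∈ I := hJ (Finset.mem_insert_self _ _)
    have hJI : J ⊆ I := fun x hx => hJ (Finset.mem_insert_of_mem hx)
    have key := step S (σ i) (a i) (b i) (fun ω => w ω * ∏ j ∈ J, ph β s (a j ω) (b j ω)) k β s
      fun ω h => by
        obtain ⟨m1, m2, m3, m4, m5, m6, m7⟩ := H i hiI ω h
        refine ⟨m1, m2, ?_, m4, m5, m6⟩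
        rw [m3]
        congr 1
        refine Finset.prod_congr rfl fun j hj => ?_
        have := m7 j (hJI hj) (fun e => hi (e ▸ hj))
        exact ph_congr β s this.1 this.2
    rw [← ih hJI]
    calc _ = ∑ ω ∈ S, (w ω * ∏ j ∈ J, ph β s (a j ω) (b j ω)) * Real.exp ((β + s) * k ω) *
            ph β s (a i ω) (b i ω) :=
          Finset.sum_congr rfl fun ω _ => by rw [Finset.prod_insert hi]; ring
      _ = _ := key
      _ = _ := Finset.sum_congr rfl fun ω _ => by ring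

theorem sq_le (t : ℝ) : t ^ 2 ≤ Real.exp t + Real.exp (-t) - 2 := by
  have h1 : (t / 2) ^ 2 ≤ Real.sinh (t / 2) ^ 2 := by
    rw [sq_le_sq, Real.abs_sinh]
    exact Real.self_le_sinh_iff.2 (abs_nonneg _)
  have e1 : Real.exp t = Real.exp (t / 2) ^ 2 := by rw [← Real.exp_nat_mul]; congr 1; push_cast; ring
  have e2 : Real.exp (-t) = Real.exp (-(t / 2)) ^ 2 := by
    rw [← Real.exp_nat_mul]; congr 1; push_cast; ring
  have e3 : Real.exp (t / 2) * Real.exp (-(t / 2)) = 1 := by rw [← Real.exp_add]; simp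
  rw [Real.sinh_eq] at h1
  rw [e1, e2]
  nlinarith

theorem hh_mul (β t : ℝ) :
    1 + Real.exp β / (Real.exp β + 1) ^ 2 * t ^ 2 ≤ hh β t * hh β (-t) := by
  have hb := Real.exp_pos β
  have e3 : Real.exp t * Real.exp (-t) = 1 := by rw [← Real.exp_add]; simp
  have e : hh β t * hh β (-t) =
      1 + Real.exp β / (Real.exp β + 1) ^ 2 * (Real.exp t + Real.exp (-t) - 2) := by
    rw [hh, hh, Real.exp_add, Real.exp_add]
    field_simp
    linear_combination (Real.exp β) ^ 2 * e3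
  rw [e]
  have := sq_le t
  gcongr

theorem ph_mul (β t : ℝ) (p q : Prop) :
    ph β t p q * ph β (-t) p q = if p ∨ q then hh β t * hh β (-t) else 1 := by
  have e3 : Real.exp (-t) * Real.exp (- -t) = 1 := by rw [← Real.exp_add]; simp
  by_cases hp : p
  · simp only [ph, if_pos hp, if_pos (Or.inl hp : p ∨ q)]
    linear_combination hh β t * hh β (-t) * e3
  by_cases hq : q
  · simp only [ph, if_neg hp, if_pos hq, if_pos (Or.inr hq : p ∨ q)]
  · simp only [ph, if_neg hp, if_neg hq, if_neg (not_or.2 ⟨hp, hq⟩), mul_one]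

end CSx

open CSx in
theorem cs : CSStmt := by
  intro Ω ι S I σ a b w k β t hw H
  rw [sub_eq_add_neg β t, ← all S I σ a b w k β t H I subset_rfl,
    ← all S I σ a b w k β (-t) H I subset_rfl]
  have pos : ∀ s : ℝ, ∀ ω ∈ S,
      0 ≤ w ω * Real.exp ((β + s) * k ω) * ∏ i ∈ I, ph β s (a i ω) (b i ω) := fun s ω h =>
    mul_nonneg (mul_nonneg (hw ω h) (Real.exp_pos _).le)
      (Finset.prod_nonneg fun i _ => (ph_pos _ _ _ _).le)
  refine Finset.sum_sq_le_sum_mul_sum_of_sq_le_mul S (pos t) (pos (-t)) fun ω h => ?_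
  have hk : 0 ≤ 1 + Real.exp β / (Real.exp β + 1) ^ 2 * t ^ 2 := by positivity
  have e1 : Real.exp ((β + t) * k ω) * Real.exp ((β + -t) * k ω) = Real.exp (β * k ω) ^ 2 := by
    rw [← Real.exp_add, ← Real.exp_nat_mul]; congr 1; push_cast; ring
  have e2 : (∏ i ∈ I, ph β t (a i ω) (b i ω)) * ∏ i ∈ I, ph β (-t) (a i ω) (b i ω) =
      (hh β t * hh β (-t)) ^ (I.filter fun i => a i ω ∨ b i ω).card := by
    rw [← Finset.prod_mul_distrib, ← Finset.prod_const, Finset.prod_filter]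
    exact Finset.prod_congr rfl fun i _ => by rw [ph_mul]
  have e3 : (√(1 + Real.exp β / (Real.exp β + 1) ^ 2 * t ^ 2) ^
      (I.filter fun i => a i ω ∨ b i ω).card) ^ 2 ≤
      (hh β t * hh β (-t)) ^ (I.filter fun i => a i ω ∨ b i ω).card := by
    rw [← pow_mul, mul_comm _ 2, pow_mul, Real.sq_sqrt hk]
    exact pow_le_pow_left₀ hk (hh_mul β t) _
  calc _ = w ω ^ 2 * Real.exp (β * k ω) ^ 2 *
          (√(1 + Real.exp β / (Real.exp β + 1) ^ 2 * t ^ 2) ^
            (I.filter fun i => a i ω ∨ b i ω).card) ^ 2 := by ring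
    _ ≤ w ω ^ 2 * Real.exp (β * k ω) ^ 2 *
          (hh β t * hh β (-t)) ^ (I.filter fun i => a i ω ∨ b i ω).card := by gcongr
    _ = _ := by rw [← e1, ← e2]; ring

end Pool.Agent.MP_7b45f6_mp.H97
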