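import Pool.Agent.MP_7b45f6_mp.H97.Spec

/-! Strict convexity of the free energy from its second difference. -/

set_option autoImplicit false

namespace Pool.Agent.MP_7b45f6_mp.H97

open Classical Filter Topology Pool.Agent.MP_7b45f6_mp.H32

namespace CVXx

theorem lse {ι : Type} (S : Finset ι) (u v : ι → ℝ) (a b : ℝ) (ha : 0 ≤ a) (hb : 0 ≤ b)
    (hab : a + b = 1) (hu : 0 < ∑ i ∈ S, Real.exp (u i)) (hv : 0 < ∑ i ∈ S, Real.exp (v i)) :
    ∑ i ∈ S, Real.exp (a * u i + b * v i) ≤
      Real.exp (a * Real.log (∑ i ∈ S, Real.exp (u i)) +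
        b * Real.log (∑ i ∈ S, Real.exp (v i))) := by
  set U := ∑ i ∈ S, Real.exp (u i) with hU
  set W := ∑ i ∈ S, Real.exp (v i) with hW
  have h1 : ∀ i ∈ S, Real.exp (a * u i + b * v i) ≤
      Real.exp (a * Real.log U + b * Real.log W) *
        (a / U * Real.exp (u i) + b / W * Real.exp (v i)) := by
    intro i _
    have h2 := convexOn_exp.2 (Set.mem_univ (u i - Real.log U)) (Set.mem_univ (v i - Real.log W))
      ha hb hab
    simp only [smul_eq_mul, Real.exp_sub, Real.exp_log hu, Real.exp_log hv] at h2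
    have h3 : a * u i + b * v i = (a * Real.log U + b * Real.log W) +
        (a * (u i - Real.log U) + b * (v i - Real.log W)) := by ring
    rw [h3, Real.exp_add]
    refine mul_le_mul_of_nonneg_left (h2.trans (le_of_eq ?_)) (Real.exp_pos _).le
    ring
  refine (Finset.sum_le_sum h1).trans (le_of_eq ?_)
  rw [← Finset.mul_sum, Finset.sum_add_distrib, ← Finset.mul_sum, ← Finset.mul_sum, ← hU, ← hW,
    div_mul_cancel₀ _ hu.ne', div_mul_cancel₀ _ hv.ne', hab, mul_one]

theorem log_le (n : ℕ) (α x y a b : ℝ) (ha : 0 ≤ a) (hb : 0 ≤ b) (hab : a + b = 1)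
    (hx : 0 < Zp n α x) (hy : 0 < Zp n α y) (hz : 0 < Zp n α (a * x + b * y)) :
    Real.log (Zp n α (a * x + b * y)) ≤ a * Real.log (Zp n α x) + b * Real.log (Zp n α y) := by
  rw [Real.log_le_iff_le_exp hz]
  simp only [Zp_PF, POLY.wt] at hx hy ⊢
  refine le_trans (le_of_eq ?_) (lse _ _ _ a b ha hb hab hx hy)
  refine Finset.sum_congr rfl fun E _ => ?_
  congr 1
  linear_combination (-(α * (visits (verts E) : ℝ))) * hab

theorem conv_le (h1 : LimStmt) (α x y a b : ℝ) (ha : 0 ≤ a) (hb : 0 ≤ b) (hab : a + b = 1) :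
    Fe α (a * x + b * y) ≤ a * Fe α x + b * Fe α y := by
  refine le_of_tendsto_of_tendsto (h1 α (a * x + b * y)).1
    (((h1 α x).1.const_mul a).add ((h1 α y).1.const_mul b)) ?_
  filter_upwards [eventually_ge_atTop 2] with m hm
  have h2 := log_le (2 * m) α x y a b ha hb hab ((h1 α x).2.1 m hm) ((h1 α y).2.1 m hm)
    ((h1 α _).2.1 m hm)
  refine (div_le_div_of_nonneg_right h2 (Nat.cast_nonneg _)).trans (le_of_eq ?_)
  ring

end CVXx

theorem cvx_of (h1 : LimStmt) (h2 : QntStmt) : CvxStmt := by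
  intro α
  refine ⟨convex_univ, fun x _ y _ hxy a b ha hb hab => ?_⟩
  simp only [smul_eq_mul]
  obtain ⟨c, hc, h3⟩ := h2 α (a * x + b * y)
  have hd : 0 < |y - x| := abs_pos.2 (sub_ne_zero.2 hxy.symm)
  set s := min (min a b) (1 / |y - x|) with hs
  have s0 : 0 < s := lt_min (lt_min ha hb) (by positivity)
  have sa : s ≤ a := (min_le_left _ _).trans (min_le_left _ _)
  have sb : s ≤ b := (min_le_left _ _).trans (min_le_right _ _)
  have s1 : |s * (y - x)| ≤ 1 := by
    rw [abs_mul, abs_of_pos s0]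
    exact (le_div_iff₀ hd).1 (min_le_right _ _)
  have h4 := h3 _ s1
  have h5 := CVXx.conv_le h1 α x y (a - s) (b + s) (by linarith) (by linarith) (by linarith)
  have h6 := CVXx.conv_le h1 α x y (a + s) (b - s) (by linarith) (by linarith) (by linarith)
  have e5 : (a - s) * x + (b + s) * y = a * x + b * y + s * (y - x) := by ring
  have e6 : (a + s) * x + (b - s) * y = a * x + b * y - s * (y - x) := by ring
  rw [e5] at h5
  rw [e6] at h6
  have h7 : 0 < c * (s * (y - x)) ^ 2 := by
    have : s * (y - x) ≠ 0 := mul_ne_zero s0.ne' (sub_ne_zero.2 hxy.symm)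
    positivity
  linarith

end Pool.Agent.MP_7b45f6_mp.H97
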