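import Pool.Agent.MP_7b45f6_mp.H97.Tab

/-!
# The local check of the funnel table
-/

set_option autoImplicit false

namespace Pool.Agent.MP_7b45f6_mp.H97.Tb

/-- The label of a triple of classes. -/
def lb (i j k : Nat) : Nat := (tab.getD i 0 >>> (20 * (28 * j + k))) % 1048576

/-- Kind: 0 outside, 1 free, 2 exit, 3 active. -/
def kd (l : Nat) : Nat := l % 4
/-- First direction. -/
def da (l : Nat) : Nat := l / 4 % 8
/-- Second direction (7: none). -/
def db (l : Nat) : Nat := l / 32 % 8
/-- Signs. -/
def sg (l : Nat) : Nat := l / 256 % 8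
/-- Stage. -/
def st (l : Nat) : Nat := l / 2048
/-- One for two targets. -/
def bt (l : Nat) : Nat := if db l = 7 then 0 else 1
/-- One plus the signed step in direction `d`. -/
def vl (l d : Nat) : Nat := if (sg l / 2 ^ (d / 2) + d) % 2 = 0 then 2 else 0
/-- The opposite direction. -/
def op (d : Nat) : Nat := if d % 2 = 0 then d + 1 else d - 1
/-- The neighbour in direction `d` with label `l` points back. -/
def src (l d : Nat) : Bool := kd l == 3 && (da l == op d || db l == op d)
/-- Earlier. -/
def bef (l v l' v' : Nat) : Bool :=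
  decide (st l < st l') || st l == st l' && sg l == sg l' && decide (2 * v + bt l < 2 * v' + bt l')

/-- The six directions. -/
def six : List Nat := [0, 1, 2, 3, 4, 5]

/-- The check at a cell with label `c` and neighbour labels `n d`. -/
def loc (c : Nat) (n : Nat → Nat) : Bool :=
  (kd c != 1 || six.all fun d => kd (n d) != 0) &&
  (kd c != 3 || decide (da c < 6) && (db c == 7 || decide (db c < 6) && da c != db c)) &&
  six.all fun d => !src (n d) d ||
    (decide (2 ≤ kd c) && (kd c != 3 || bef (n d) (vl (n d) d) c 1) &&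
      (six.all fun a => a == d || kd (n a) != 0 && !src (n a) a ||
        six.all fun b => b == d || b == a || kd (n b) != 0 && !src (n b) b) &&
      (db (n d) != 7 || six.all fun a => a == d || kd (n a) != 0 &&
        (!src (n a) a || bef (n d) (vl (n d) d) (n a) (vl (n d) a))))

/-- The check of the kind against the classes. -/
def cen (i j k c : Nat) : Bool :=
  (kd c != 2 || i == 5 && j == 6 && k == 6 || i == 9 && j == 8 && k == 8) &&
  (kd c == 0 || i != 0 && i != 27 && j != 0 && j != 27 && k != 0 && k != 27) &&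
  (kd c != 0 || i == 0 || j == 0 || k == 0 || decide (9 < i) || decide (9 < j) || decide (9 < k) ||
    decide (i + j + k < 7))

/-- Evaluate the argument first. -/
def frc (n : Nat) (f : Nat → Bool) : Bool := Nat.rec (f 0) (fun m _ => f m.succ) n

theorem frc_eq (n : Nat) (f : Nat → Bool) : frc n f = f n := by cases n <;> rfl

/-- Select one of six numbers. -/
def sel (a b c d e f : Nat) (x : Nat) : Nat := [a, b, c, d, e, f].getD x 0

/-- The check for three windows. -/
def win (x y z : Nat × Nat × Nat) : Bool :=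
  frc (lb x.2.1 y.2.1 z.2.1) fun c => frc (lb x.2.2 y.2.1 z.2.1) fun n0 =>
  frc (lb x.1 y.2.1 z.2.1) fun n1 => frc (lb x.2.1 y.2.2 z.2.1) fun n2 =>
  frc (lb x.2.1 y.1 z.2.1) fun n3 => frc (lb x.2.1 y.2.1 z.2.2) fun n4 =>
  frc (lb x.2.1 y.2.1 z.1) fun n5 => loc c (sel n0 n1 n2 n3 n4 n5) && cen x.2.1 y.2.1 z.2.1 c

/-- The windows. -/
def W : List (Nat × Nat × Nat) :=
  [(0, 0, 0), (0, 0, 1), (0, 1, 2), (1, 2, 3), (2, 3, 4), (3, 4, 5), (4, 5, 6), (5, 6, 7), (5, 6, 8),
    (6, 7, 7), (6, 7, 8), (6, 8, 9), (7, 7, 7), (7, 7, 8), (7, 8, 9), (8, 9, 10), (9, 10, 11),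
    (10, 11, 12), (11, 12, 13), (12, 13, 14), (13, 14, 15), (14, 15, 16), (15, 16, 17),
    (16, 17, 18), (17, 18, 19), (18, 19, 20), (19, 20, 21), (20, 21, 22), (21, 22, 23),
    (22, 23, 24), (23, 24, 25), (24, 25, 26), (25, 26, 27), (26, 27, 27), (27, 27, 27)]

theorem chk0 :
    (((W.drop 0).take 7).all fun x => W.all fun y => W.all fun z => win x y z) = true := by
  decide +kernel

theorem chk1 :
    (((W.drop 7).take 7).all fun x => W.all fun y => W.all fun z => win x y z) = true := by
  decide +kernel

theorem chk2 :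
    (((W.drop 14).take 7).all fun x => W.all fun y => W.all fun z => win x y z) = true := by
  decide +kernel

theorem chk3 :
    (((W.drop 21).take 7).all fun x => W.all fun y => W.all fun z => win x y z) = true := by
  decide +kernel

theorem chk4 :
    (((W.drop 28).take 7).all fun x => W.all fun y => W.all fun z => win x y z) = true := by
  decide +kernel

theorem chk {x y z : Nat × Nat × Nat} (hx : x ∈ W) (hy : y ∈ W) (hz : z ∈ W) :
    win x y z = true := by
  have e : W = (W.drop 0).take 7 ++ (W.drop 7).take 7 ++ (W.drop 14).take 7 ++ (W.drop 21).take 7 ++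
      (W.drop 28).take 7 := rfl
  rw [e] at hx
  simp only [List.mem_append] at hx
  rcases hx with (((h | h) | h) | h) | h
  exacts [List.all_eq_true.1 (List.all_eq_true.1 (List.all_eq_true.1 chk0 x h) y hy) z hz,
    List.all_eq_true.1 (List.all_eq_true.1 (List.all_eq_true.1 chk1 x h) y hy) z hz,
    List.all_eq_true.1 (List.all_eq_true.1 (List.all_eq_true.1 chk2 x h) y hy) z hz,
    List.all_eq_true.1 (List.all_eq_true.1 (List.all_eq_true.1 chk3 x h) y hy) z hz,
    List.all_eq_true.1 (List.all_eq_true.1 (List.all_eq_true.1 chk4 x h) y hy) z hz]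

theorem cube : ([6, 7, 8].all fun i => [6, 7, 8].all fun j => [6, 7, 8].all fun k =>
    kd (lb i j k) == 1) = true := by decide +kernel

theorem ex1 : kd (lb 5 6 6) = 2 := by decide +kernel

theorem ex2 : kd (lb 9 8 8) = 2 := by decide +kernel

end Pool.Agent.MP_7b45f6_mp.H97.Tb
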