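import Pool.Agent.MP_7b45f6_mp.H32.Defs

/-!
# Patterns in polygons
-/

set_option autoImplicit false

namespace Pool.Agent.MP_7b45f6_mp.H97

open Classical Pool.Agent.MP_7b45f6_mp.H32

/-- The sites of the cube `[0, r]^3`. -/
def InCube (r : ℕ) (p : P) : Prop := ∀ i, 0 ≤ p i ∧ p i ≤ r

/-- A self-avoiding path in the cube `[0, r]^3` from the corner `(0,0,0)` to the corner
`(r,r,r)`. -/
def IsPattern (r : ℕ) (γ : List P) : Prop :=
  1 ≤ r ∧ γ.Nodup ∧ γ.IsChain Adj ∧ γ.head? = some 0 ∧ γ.getLast? = some (fun _ => (r : ℤ)) ∧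
    ∀ p ∈ γ, InCube r p

/-- The pattern occurs in `E` at `x`: the vertices of `E` in the cube `x + [0, r]^3` are exactly
the sites of `x + γ`, and the edges of `x + γ` are edges of `E`. -/
def Occurs (r : ℕ) (γ : List P) (E : Finset (Sym2 P)) (x : P) : Prop :=
  (∀ p, InCube r p → (x + p ∈ verts E ↔ p ∈ γ)) ∧ edges (γ.map fun p => x + p) ⊆ E

/-- The number of vertices of `E` at which the pattern occurs. -/
noncomputable def occ (r : ℕ) (γ : List P) (E : Finset (Sym2 P)) : ℕ :=
  ((verts E).filter (Occurs r γ E)).card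

/-- The partition function of the polygons with at most `ε n` occurrences of the pattern. -/
noncomputable def Zfew (r : ℕ) (γ : List P) (ε : ℝ) (n : ℕ) (α β : ℝ) : ℝ :=
  ∑ᶠ E ∈ {E | E ∈ Polys n ∧ (occ r γ E : ℝ) ≤ ε * n},
    Real.exp (α * visits (verts E) + β * contacts (verts E) E)

end Pool.Agent.MP_7b45f6_mp.H97
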