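import Pool.Agent.MP_7b45f6_mp.H32.Defs

/-!
# Kesten patterns in polygons
-/

set_option autoImplicit false

namespace Pool.Agent.MP_7b45f6_mp.H97.K

open Classical Pool.Agent.MP_7b45f6_mp.H32

/-- The sites of the cube `Q = [0, r]^3`. -/
def Cube (r : ℕ) (p : P) : Prop := ∀ i, 0 ≤ p i ∧ p i ≤ r

/-- The corners of the cube. -/
def Corner (r : ℕ) (p : P) : Prop := ∀ i, p i = 0 ∨ p i = r

/-- A Kesten pattern `(γ, Q)`: a self-avoiding path with at least one edge in the cube `Q` whose
two end points are corners of `Q`. -/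
def Pattern (r : ℕ) (γ : List P) : Prop :=
  2 ≤ γ.length ∧ γ.Nodup ∧ γ.IsChain Adj ∧ (∀ p ∈ γ, Cube r p) ∧
    (∀ p ∈ γ.head?, Corner r p) ∧ ∀ p ∈ γ.getLast?, Corner r p

/-- The pattern occurs in `E` at `x`: the vertices of `E` in the cube `x + Q` are exactly the
sites of `x + γ`, and the edges of `x + γ` are edges of `E`. -/
def At (r : ℕ) (γ : List P) (E : Finset (Sym2 P)) (x : P) : Prop :=
  (∀ p, Cube r p → (x + p ∈ verts E ↔ p ∈ γ)) ∧ edges (γ.map fun p => x + p) ⊆ E

/-- The number of occurrences of the pattern. -/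
noncomputable def num (r : ℕ) (γ : List P) (E : Finset (Sym2 P)) : ℕ := {x | At r γ E x}.ncard

/-- The partition function of the polygons with at most `ε n` occurrences of the pattern. -/
noncomputable def Zle (r : ℕ) (γ : List P) (ε : ℝ) (n : ℕ) (α β : ℝ) : ℝ :=
  ∑ᶠ E ∈ {E | E ∈ Polys n ∧ (num r γ E : ℝ) ≤ ε * n},
    Real.exp (α * visits (verts E) + β * contacts (verts E) E)

end Pool.Agent.MP_7b45f6_mp.H97.K
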