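import Pool.Agent.MP_7b45f6_mp.H97.Spec

/-!
# The flip exchanges the two patterns
-/

set_option autoImplicit false

namespace Pool.Agent.MP_7b45f6_mp.H97

open Classical Pool.Agent.MP_7b45f6_mp.H32

namespace FLBx

theorem edges_map (f : P → P) : ∀ l : List P, edges (l.map f) = (edges l).image (Sym2.map f)
  | [] => rfl
  | [_] => rfl
  | p :: q :: l => by
    have ih := edges_map f (q :: l)
    rw [List.map_cons] at ih
    rw [List.map_cons, List.map_cons, CONV.edges_cons, CONV.edges_cons, ih, Finset.image_insert,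
      Sym2.map_mk]

theorem mem_verts {E : Finset (Sym2 P)} {v : P} : v ∈ verts E ↔ ∃ e ∈ E, v ∈ e := by
  simp [verts]

theorem mem_verts_image (σ : Equiv.Perm P) (E : Finset (Sym2 P)) (v : P) :
    σ v ∈ verts (E.image (Sym2.map σ)) ↔ v ∈ verts E := by
  rw [mem_verts, mem_verts]
  constructor
  · rintro ⟨e, he, hv⟩
    obtain ⟨e', he', rfl⟩ := Finset.mem_image.1 he
    obtain ⟨a, ha, h⟩ := Sym2.mem_map.1 hv
    exact ⟨e', he', σ.injective h ▸ ha⟩
  · rintro ⟨e, he, hv⟩
    exact ⟨_, Finset.mem_image_of_mem _ he, Sym2.mem_map.2 ⟨v, hv, rfl⟩⟩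

theorem trn {r : ℕ} {γ : List P} {E : Finset (Sym2 P)} {x : P} (σ : Equiv.Perm P) (s : P → P)
    (h1 : ∀ p, InCube r p → σ (x + p) = x + s p) (h2 : ∀ p, InCube r p → InCube r (s p))
    (h3 : ∀ p, s (s p) = p) (hγ : ∀ p ∈ γ, InCube r p) (h : Occurs r γ E x) :
    Occurs r (γ.map s) (E.image (Sym2.map σ)) x := by
  refine ⟨fun p hp => ?_, ?_⟩
  · have e : x + p = σ (x + s p) := by rw [h1 _ (h2 p hp), h3]
    rw [e, mem_verts_image, h.1 _ (h2 p hp), List.mem_map]
    exact ⟨fun hq => ⟨_, hq, h3 p⟩, fun ⟨q, hq, e'⟩ => by rw [← e', h3]; exact hq⟩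
  · have e : (γ.map s).map (fun p => x + p) = (γ.map fun p => x + p).map σ := by
      rw [List.map_map, List.map_map]
      exact List.map_congr_left fun p hp => (h1 p (hγ p hp)).symm
    rw [e, edges_map]
    exact Finset.image_subset_image h.2

theorem image_image (a b : P) (E : Finset (Sym2 P)) :
    (E.image (Sym2.map (Equiv.swap a b))).image (Sym2.map (Equiv.swap a b)) = E := by
  rw [Finset.image_image]
  have e : Sym2.map (Equiv.swap a b) ∘ Sym2.map (Equiv.swap a b) = id := by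
    funext e
    rw [Function.comp_apply, Sym2.map_map]
    have e2 : (Equiv.swap a b : P → P) ∘ (Equiv.swap a b) = id :=
      funext fun p => Equiv.swap_apply_self a b p
    rw [e2, Sym2.map_id]
  rw [e, Finset.image_id]

/-- The flip in the cube at the origin. -/
def s0 (p : P) : P := if p = ![1, 1, 2] then ![2, 1, 1] else if p = ![2, 1, 1] then ![1, 1, 2] else p

theorem s0_s0 (p : P) : s0 (s0 p) = p := by
  by_cases h : p = ![1, 1, 2]
  · rw [h]; decide
  · by_cases h' : p = ![2, 1, 1]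
    · rw [h']; decide
    · have e : s0 p = p := by rw [s0, if_neg h, if_neg h']
      rw [e, e]

theorem cube_a : InCube 3 ![1, 1, 2] := by unfold InCube; decide

theorem cube_b : InCube 3 ![2, 1, 1] := by unfold InCube; decide

theorem s0_cube (p : P) (hp : InCube 3 p) : InCube 3 (s0 p) := by
  unfold s0
  split_ifs
  · exact cube_b
  · exact cube_a
  · exact hp

theorem swap_add (x p : P) :
    Equiv.swap (x + ![1, 1, 2]) (x + ![2, 1, 1]) (x + p) = x + s0 p := by
  unfold s0
  split_ifs with h h'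
  · rw [h, Equiv.swap_apply_left]
  · rw [h', Equiv.swap_apply_right]
  · exact Equiv.swap_apply_of_ne_of_ne (fun e => h (add_left_cancel e))
      fun e => h' (add_left_cancel e)

theorem g1_cube : ∀ p ∈ g1, InCube 3 p := by unfold InCube; decide

theorem g2_cube : ∀ p ∈ g2, InCube 3 p := by unfold InCube; decide

theorem map_g1 : g1.map s0 = g2 := by decide

theorem map_g2 : g2.map s0 = g1 := by decide

theorem far {x y : P} (hy : y ≠ x) (h4 : ∀ i, (4 : ℤ) ∣ y i - x i) {p q : P} (hp : InCube 3 p)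
    (hq : InCube 3 q) : y + p ≠ x + q := by
  intro e
  refine hy (funext fun i => ?_)
  have e1 : y i + p i = x i + q i := congrFun e i
  have h1 := hp i
  have h2 := hq i
  have h3 := h4 i
  push_cast at h1 h2
  omega

theorem far_iff {x y : P} (hy : y ≠ x) (h4 : ∀ i, (4 : ℤ) ∣ y i - x i) {γ : List P}
    (hγ : ∀ p ∈ γ, InCube 3 p) (E : Finset (Sym2 P)) :
    Occurs 3 γ (E.image (Sym2.map (Equiv.swap (x + ![1, 1, 2]) (x + ![2, 1, 1])))) y ↔
      Occurs 3 γ E y := by
  have key : ∀ F : Finset (Sym2 P), Occurs 3 γ F y →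
      Occurs 3 γ (F.image (Sym2.map (Equiv.swap (x + ![1, 1, 2]) (x + ![2, 1, 1])))) y := by
    intro F hF
    have h := trn (Equiv.swap (x + ![1, 1, 2]) (x + ![2, 1, 1])) id
      (fun p hp => Equiv.swap_apply_of_ne_of_ne (far hy h4 hp cube_a) (far hy h4 hp cube_b))
      (fun _ hp => hp) (fun _ => rfl) hγ hF
    rwa [List.map_id] at h
  refine ⟨fun h => ?_, key E⟩
  have h' := key _ h
  rwa [image_image] at h'

end FLBx

open FLBx

theorem flb : FlbStmt := by
  intro x E
  have A : ∀ F : Finset (Sym2 P), Occurs 3 g1 F x →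
      Occurs 3 g2 (F.image (Sym2.map (Equiv.swap (x + ![1, 1, 2]) (x + ![2, 1, 1])))) x := by
    intro F hF
    have h := trn _ s0 (fun p _ => swap_add x p) s0_cube s0_s0 g1_cube hF
    rwa [map_g1] at h
  have B : ∀ F : Finset (Sym2 P), Occurs 3 g2 F x →
      Occurs 3 g1 (F.image (Sym2.map (Equiv.swap (x + ![1, 1, 2]) (x + ![2, 1, 1])))) x := by
    intro F hF
    have h := trn _ s0 (fun p _ => swap_add x p) s0_cube s0_s0 g2_cube hF
    rwa [map_g2] at h
  have N : ¬ (Occurs 3 g1 E x ∧ Occurs 3 g2 E x) := fun ⟨h1, h2⟩ =>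
    absurd ((h2.1 _ cube_a).1 ((h1.1 _ cube_a).2 (by decide))) (by decide)
  by_cases hc : Occurs 3 g1 E x ∨ Occurs 3 g2 E x
  · have e : flp x E = E.image (Sym2.map (Equiv.swap (x + ![1, 1, 2]) (x + ![2, 1, 1]))) :=
      if_pos hc
    rw [e]
    refine ⟨?_, ⟨A E, fun h => ?_⟩, N, fun y hy h4 =>
      ⟨far_iff hy h4 g1_cube E, far_iff hy h4 g2_cube E⟩⟩
    · rw [flp, if_pos (hc.elim (fun h => Or.inr (A E h)) fun h => Or.inl (B E h)), image_image]
    · have h' := B _ h
      rwa [image_image] at h'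
  · have e : flp x E = E := if_neg hc
    rw [e, e]
    exact ⟨rfl, ⟨fun h => absurd (Or.inl h) hc, fun h => absurd (Or.inr h) hc⟩, N,
      fun _ _ _ => ⟨Iff.rfl, Iff.rfl⟩⟩

end Pool.Agent.MP_7b45f6_mp.H97
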