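import Pool.Agent.MP_7b45f6_mp.H97.DefsK
import Pool.Agent.MP_7b45f6_mp.H97.CLEAR
import Pool.Agent.MP_7b45f6_mp.H97.FLB
import Pool.Agent.MP_7b45f6_mp.H97.ARC

/-!
# Every Kesten pattern extends to a pattern between opposite corners
-/

set_option autoImplicit false

namespace Pool.Agent.MP_7b45f6_mp.H97

open Classical Filter Pool.Agent.MP_7b45f6_mp.H32

namespace EXTx

theorem mono_path : ∀ (k : ℕ) (u v : P), d1 u v = k → (∀ j, u j ≤ v j) →
    ∃ l : List P, l ≠ [] ∧ l.Nodup ∧ l.IsChain Adj ∧ hd l = u ∧ lt l = v ∧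
      ∀ p ∈ l, ∀ j, u j ≤ p j ∧ p j ≤ v j := by
  intro k
  induction k with
  | zero =>
    intro u v h _
    have e : u = v := by
      by_contra hne
      have := d1_pos hne
      omega
    subst e
    exact ⟨[u], by simp, by simp, by simp, rfl, rfl, by simp⟩
  | succ k ih =>
    intro u v h hle
    have hex : ∃ i, u i < v i := by
      by_contra hn
      have e : u = v := funext fun j => le_antisymm (hle j) (not_lt.1 fun h => hn ⟨j, h⟩)
      rw [e, d1_self] at h
      omega
    obtain ⟨i, hi⟩ := hex
    have h0 := hle 0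
    have h1 := hle 1
    have h2 := hle 2
    have hk : d1 (u + ev i) v = k := by
      rw [d1_eq] at h ⊢
      simp only [Pi.add_apply, ev_apply]
      fin_cases i <;> simp at hi ⊢ <;> omega
    have hle' : ∀ j, (u + ev i) j ≤ v j := by
      intro j
      have := hle j
      simp only [Pi.add_apply, ev_apply]
      split_ifs with e
      · subst e
        omega
      · omega
    obtain ⟨l, l0, ln, lc, lh, ll, lb⟩ := ih _ v hk hle'
    refine ⟨u :: l, by simp, List.nodup_cons.2 ⟨fun hu => ?_, ln⟩, ?_, rfl, ?_, ?_⟩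
    · have := (lb u hu i).1
      simp only [Pi.add_apply, ev_same] at this
      omega
    · refine CLEARx.chain_append (u := [u]) (by simp) l0 (by simp) lc ?_
      rw [lh]
      exact adj_ev u i
    · rw [← ll]
      exact lt_append [u] l0
    · intro p hp j
      rcases List.mem_cons.1 hp with rfl | hp
      · exact ⟨le_rfl, hle j⟩
      · have := lb p hp j
        simp only [Pi.add_apply, ev_apply] at this
        refine ⟨?_, this.2⟩
        have h3 := this.1
        split_ifs at h3 <;> omega

theorem head_eq {l : List P} (h : l ≠ []) : l.head? = some (hd l) := by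
  cases l with
  | nil => exact absurd rfl h
  | cons p l => rfl

theorem last_eq {l : List P} (h : l ≠ []) : l.getLast? = some (lt l) := by
  rcases List.eq_nil_or_concat' l with rfl | ⟨m, p, rfl⟩
  · exact absurd rfl h
  · simp

/-- The shift by one in every coordinate. -/
def o1 : P := fun _ => 1

theorem ext_aux {r : ℕ} {γ : List P} (h : K.Pattern r γ) (i : Fin 3) (h1 : hd γ i = 0)
    (h2 : lt γ i = r) : ∃ γ', IsPattern (r + 2) γ' ∧
      ∀ E x, Occurs (r + 2) γ' E x → K.At r γ E (x + o1) := by
  obtain ⟨γl, γn, γc, γq, -, -⟩ := h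
  have γ0 : γ ≠ [] := fun e => by simp [e] at γl
  have q1 := γq _ (hd_mem γ0)
  have q2 := γq _ (lt_mem γ0)
  obtain ⟨l1, a0, an, ac, ah, al, ab⟩ := mono_path _ 0 (hd γ + o1 - ev i) rfl (by
    intro j
    have := q1 j
    simp only [Pi.add_apply, Pi.sub_apply, Pi.zero_apply, ev_apply, o1]
    split_ifs <;> omega)
  obtain ⟨l2, b0, bn, bc, bh, bl, bb⟩ := mono_path _ (lt γ + o1 + ev i)
    (fun _ => ((r + 2 : ℕ) : ℤ)) rfl (by
    intro j
    have := q2 j
    simp only [Pi.add_apply, ev_apply, o1]
    push_cast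
    split_ifs <;> omega)
  set g : List P := γ.map fun p => p + o1 with hg
  have g0 : g ≠ [] := by simpa [hg] using γ0
  have gb : ∀ p ∈ g, ∀ j, 1 ≤ p j ∧ p j ≤ r + 1 := by
    intro p hp j
    obtain ⟨y, hy, rfl⟩ := List.mem_map.1 hp
    have := γq y hy j
    simp only [Pi.add_apply, o1]
    omega
  have a1 : ∀ p ∈ l1, p i = 0 := by
    intro p hp
    have := ab p hp i
    simp only [Pi.add_apply, Pi.sub_apply, Pi.zero_apply, ev_same, o1, h1] at this
    omega
  have b1 : ∀ p ∈ l2, p i = r + 2 := by
    intro p hp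
    have := bb p hp i
    simp only [Pi.add_apply, ev_same, o1, h2] at this
    push_cast at this
    omega
  have c0 : l1 ++ g ≠ [] := by simp [a0]
  refine ⟨l1 ++ g ++ l2, ⟨by omega, ?_, ?_, ?_, ?_, ?_⟩, fun E x hx => ⟨fun p hp => ?_, ?_⟩⟩
  · refine List.nodup_append.2 ⟨List.nodup_append.2 ⟨an, γn.map (add_left_injective _), ?_⟩, bn, ?_⟩
    · rintro y hy _ hy' rfl
      have := a1 y hy
      have := gb y hy' i
      omega
    · rintro y hy _ hy' rfl
      have := b1 y hy'
      rcases List.mem_append.1 hy with hy | hy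
      · have := a1 y hy
        omega
      · have := gb y hy i
        omega
  · refine CLEARx.chain_append c0 b0 (CLEARx.chain_append a0 g0 ac ?_ ?_) bc ?_
    · rw [hg, List.isChain_map]
      exact γc.imp fun s t h => (adj_add s t o1).2 h
    · rw [al, hg, hd_map _ γ0]
      exact (adj_ev' _ i).symm
    · rw [lt_append _ g0, bh, hg, lt_map _ γ0]
      exact adj_ev _ i
  · rw [head_eq (by simp [a0]), hd_append c0, hd_append a0, ah]
  · rw [last_eq (by simp [a0]), lt_append _ b0, bl]
  · intro p hp j
    rcases List.mem_append.1 hp with hp | hp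
    · rcases List.mem_append.1 hp with hp | hp
      · have := ab p hp j
        have := q1 j
        simp only [Pi.add_apply, Pi.sub_apply, Pi.zero_apply, ev_apply, o1] at *
        push_cast
        split_ifs at * <;> omega
      · have := gb p hp j
        push_cast
        omega
    · have := bb p hp j
      have := q2 j
      simp only [Pi.add_apply, ev_apply, o1] at *
      split_ifs at * <;> omega
  · have c1 : InCube (r + 2) (p + o1) := by
      intro j
      have := hp j
      simp only [Pi.add_apply, o1]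
      push_cast
      omega
    have e : x + o1 + p = x + (p + o1) := by abel
    have hi := hp i
    rw [e, hx.1 _ c1, List.mem_append, List.mem_append]
    constructor
    · rintro ((h | h) | h)
      · have := a1 _ h
        simp only [Pi.add_apply, o1] at this
        omega
      · obtain ⟨y, hy, e'⟩ := List.mem_map.1 h
        exact add_left_injective _ e' ▸ hy
      · have := b1 _ h
        simp only [Pi.add_apply, o1] at this
        omega
    · exact fun h => Or.inl (Or.inr (List.mem_map.2 ⟨p, h, rfl⟩))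
  · intro e he
    refine hx.2 ?_
    have e1 : (γ.map fun p => x + o1 + p) = g.map fun p => x + p := by
      rw [hg, List.map_map]
      exact List.map_congr_left fun p _ => by simp only [Function.comp_apply]; abel
    rw [e1] at he
    rw [List.map_append, List.map_append,
      CLEARx.mem_edges_append (by simp [a0]) (by simpa using b0),
      CLEARx.mem_edges_append (by simpa using a0) (by simpa using g0)]
    exact Or.inl (Or.inr (Or.inr he))

theorem pattern_rev {r : ℕ} {γ : List P} (h : K.Pattern r γ) : K.Pattern r γ.reverse := by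
  obtain ⟨γl, γn, γc, γq, γa, γb⟩ := h
  refine ⟨by simpa using γl, List.nodup_reverse.2 γn, ?_, fun p hp => γq p (List.mem_reverse.1 hp),
    by simpa using γb, by simpa using γa⟩
  rw [← jn_eq_zero] at γc ⊢
  rw [jn_reverse, γc]

theorem at_rev {r : ℕ} {γ : List P} {E : Finset (Sym2 P)} {x : P} (h : K.At r γ.reverse E x) :
    K.At r γ E x := by
  refine ⟨fun p hp => by rw [h.1 p hp, List.mem_reverse], fun e he => h.2 ?_⟩
  rw [List.map_reverse, ARCx.edges_rev]
  exact he

theorem ext {r : ℕ} {γ : List P} (h : K.Pattern r γ) : ∃ γ', IsPattern (r + 2) γ' ∧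
    ∀ E x, Occurs (r + 2) γ' E x → K.At r γ E (x + o1) := by
  have γ0 : γ ≠ [] := fun e => by
    have := h.1
    simp [e] at this
  have hne := ARCx.hd_ne h.2.1 h.1
  obtain ⟨i, hi⟩ := Function.ne_iff.1 hne
  have c1 := h.2.2.2.2.1 (hd γ) (by rw [head_eq γ0]; rfl) i
  have c2 := h.2.2.2.2.2 (lt γ) (by rw [last_eq γ0]; rfl) i
  rcases c1 with c1 | c1
  · refine ext_aux h i c1 ?_
    rcases c2 with c2 | c2
    · exact absurd (c1.trans c2.symm) hi
    · exact c2
  · obtain ⟨γ', h1, h2⟩ := ext_aux (pattern_rev h) i (by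
      rw [hd_reverse]
      rcases c2 with c2 | c2
      · exact c2
      · exact absurd (c1.trans c2.symm) hi) (by rw [lt_reverse]; exact c1)
    exact ⟨γ', h1, fun E x hx => at_rev (h2 E x hx)⟩

theorem fin_at {r : ℕ} {γ : List P} (h : K.Pattern r γ) (E : Finset (Sym2 P)) :
    {x | K.At r γ E x}.Finite := by
  have γ0 : γ ≠ [] := fun e => by
    have := h.1
    simp [e] at this
  refine ((verts E).finite_toSet.preimage (f := fun x => x + hd γ)
    (add_left_injective _).injOn).subset fun x hx => ?_
  exact (hx.1 _ (h.2.2.2.1 _ (hd_mem γ0))).2 (hd_mem γ0)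

end EXTx

/-- The pattern theorem for every Kesten pattern. -/
theorem ptK_of (hpt : PTStmt) (α β : ℝ) (r : ℕ) (γ : List P) (h : K.Pattern r γ) :
    ∃ ε : ℝ, 0 < ε ∧ ∃ c : ℝ, 0 < c ∧ ∀ᶠ m : ℕ in atTop,
      K.Zle r γ ε (2 * m) α β ≤ Real.exp (-c * (2 * m : ℕ)) * Zp (2 * m) α β := by
  obtain ⟨γ', h1, h2⟩ := EXTx.ext h
  obtain ⟨ε, hε, c, hc, h3⟩ := hpt α β (r + 2) γ' h1
  refine ⟨ε, hε, c, hc, h3.mono fun m hm => le_trans ?_ hm⟩
  have key : ∀ E, occ (r + 2) γ' E ≤ K.num r γ E := by
    intro E
    rw [occ, K.num, ← Set.ncard_coe_finset]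
    refine Set.ncard_le_ncard_of_injOn (fun x => x + EXTx.o1) (fun x hx => ?_)
      (add_left_injective _).injOn (EXTx.fin_at h E)
    exact h2 E x (Finset.mem_filter.1 hx).2
  have e : K.Zle r γ ε (2 * m) α β =
      ∑ E ∈ (PF (2 * m)).filter (fun E => (K.num r γ E : ℝ) ≤ ε * (2 * m : ℕ)), POLY.wt α β E := by
    rw [K.Zle, ← finsum_mem_coe_finset]
    congr 1
    ext E
    simp [mem_PF, POLY.wt]
  rw [e, Zfew_PF]
  refine Finset.sum_le_sum_of_subset_of_nonneg (fun E hE => ?_) fun _ _ _ => (Real.exp_pos _).le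
  rw [Finset.mem_filter] at hE ⊢
  exact ⟨hE.1, le_trans (by exact_mod_cast key E) hE.2⟩

end Pool.Agent.MP_7b45f6_mp.H97
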