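import Pool.Agent.MP_7b45f6_mp.H97.Spec

/-!
# The inequality at finite length
-/

set_option autoImplicit false

namespace Pool.Agent.MP_7b45f6_mp.H97

open Classical Pool.Agent.MP_7b45f6_mp.H32

namespace FINx

/-- The class of a site modulo four. -/
def cl (p : P) : Fin 3 → ZMod 4 := fun i => (p i : ZMod 4)

/-- The sites of a class. -/
noncomputable def cI (n : ℕ) (s : Fin 3 → ZMod 4) : Finset P :=
  (box (2 * n)).filter fun p => cl p = s

/-- The number of occurrences of one of the two patterns in a class. -/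
noncomputable def cN (n : ℕ) (s : Fin 3 → ZMod 4) (E : Finset (Sym2 P)) : ℕ :=
  ((cI n s).filter fun x => Occurs 3 g1 E x ∨ Occurs 3 g2 E x).card

theorem card_cl : Fintype.card (Fin 3 → ZMod 4) = 64 := by
  rw [Fintype.card_fun, ZMod.card, Fintype.card_fin]
  norm_num

theorem occ_le {n : ℕ} {E : Finset (Sym2 P)} (hE : E ∈ Polys n) :
    occ 3 g1 E ≤ ∑ s, cN n s E := by
  rw [occ, Finset.card_eq_sum_card_fiberwise (f := cl) (t := Finset.univ)
    fun _ _ => Finset.mem_coe.2 (Finset.mem_univ _)]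
  refine Finset.sum_le_sum fun s _ => Finset.card_le_card fun x hx => ?_
  simp only [Finset.mem_filter] at hx
  exact Finset.mem_filter.2 ⟨Finset.mem_filter.2 ⟨POLY.verts_box conv hE hx.1.1, hx.2⟩,
    Or.inl hx.1.2⟩

theorem exists_cl {f : (Fin 3 → ZMod 4) → ℝ} {x : ℝ} (h : x ≤ ∑ s, f s) : ∃ s, x / 64 ≤ f s := by
  obtain ⟨s, -, hs⟩ := Finset.exists_le_of_sum_le (s := Finset.univ) (f := fun _ => x / 64) (g := f)
    Finset.univ_nonempty (by
      rw [Finset.sum_const, Finset.card_univ, card_cl, nsmul_eq_mul]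
      push_cast
      linarith)
  exact ⟨s, hs⟩

theorem Zp_split (n : ℕ) (α β : ℝ) : Zp n α β =
    ∑ E ∈ PF n, Real.exp (α * visits (verts E)) * Real.exp (β * contacts (verts E) E) := by
  rw [Zp_PF]
  exact Finset.sum_congr rfl fun E _ => Real.exp_add _ _

theorem heavy {α β ε : ℝ} {n : ℕ} (h : Zfew 3 g1 ε n α β ≤ Zp n α β / 2) :
    ∃ s, Zp n α β / 128 ≤
      ∑ E ∈ (PF n).filter (fun E => ε * n / 64 ≤ cN n s E), POLY.wt α β E := by
  have h0 : ∀ E, 0 ≤ POLY.wt α β E := fun E => (Real.exp_pos _).le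
  have h1 := Finset.sum_filter_add_sum_filter_not (PF n) (fun E => (occ 3 g1 E : ℝ) ≤ ε * n)
    (POLY.wt α β)
  rw [← Zfew_PF, ← Zp_PF] at h1
  have h2 : ∑ E ∈ (PF n).filter (fun E => ¬ (occ 3 g1 E : ℝ) ≤ ε * n), POLY.wt α β E ≤
      ∑ s, ∑ E ∈ (PF n).filter (fun E => ε * n / 64 ≤ cN n s E), POLY.wt α β E := by
    simp only [Finset.sum_filter]
    rw [Finset.sum_comm]
    refine Finset.sum_le_sum fun E hE => ?_
    have h3 : ∀ s, 0 ≤ if ε * n / 64 ≤ cN n s E then POLY.wt α β E else 0 := fun s => by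
      split_ifs
      exacts [h0 E, le_rfl]
    split_ifs with hc
    · exact Finset.sum_nonneg fun s _ => h3 s
    · have h4 : ε * n ≤ ∑ s, (cN n s E : ℝ) :=
        (not_le.1 hc).le.trans (by exact_mod_cast occ_le (mem_PF.1 hE))
      obtain ⟨s, hs⟩ := exists_cl h4
      refine le_trans ?_ (Finset.single_le_sum (fun s _ => h3 s) (Finset.mem_univ s))
      rw [if_pos hs]
  obtain ⟨s, hs⟩ := exists_cl (x := Zp n α β / 2) (le_trans (by linarith) h2)
  exact ⟨s, le_trans (by linarith) hs⟩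

end FINx

open FINx

theorem fin_of (h1 : FlaStmt) (h2 : FlbStmt) (h3 : FlcStmt) (h4 : CSStmt) : FinStmt := by
  intro α β t ε n hε h
  obtain ⟨s, hs⟩ := heavy h
  have key := h4 _ P (PF n) (cI n s) flp (fun x E => Occurs 3 g1 E x) (fun x E => Occurs 3 g2 E x)
    (fun E => Real.exp (α * visits (verts E))) (fun E => contacts (verts E) E) β t
    (fun _ _ => (Real.exp_pos _).le) (fun x hx E hE => by
      have a1 := h1.2 n x E (mem_PF.1 hE)
      have a2 := h2 x E
      refine ⟨mem_PF.2 a1.1, a2.1, by rw [a1.2], a2.2.1, a2.2.2.1, h3 n x E (mem_PF.1 hE),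
        fun y hy hne => a2.2.2.2 y hne fun i => ?_⟩
      have a3 : cl x = cl y := (Finset.mem_filter.1 hx).2.trans (Finset.mem_filter.1 hy).2.symm
      exact (ZMod.intCast_eq_intCast_iff_dvd_sub (x i) (y i) 4).1 (congrFun a3 i))
  rw [← Zp_split, ← Zp_split] at key
  refine le_trans ?_ key
  generalize hρ : 1 + Real.exp β / (Real.exp β + 1) ^ 2 * t ^ 2 = ρ
  have r1 : 1 ≤ ρ := by
    rw [← hρ]
    exact le_add_of_nonneg_right (by positivity)
  have r2 : 1 ≤ √ρ := Real.one_le_sqrt.2 r1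
  have r3 : ρ ^ (ε * n / 64) = (√ρ ^ (ε * n / 64)) ^ 2 := by
    rw [sq, ← Real.mul_rpow (by positivity) (by positivity), Real.mul_self_sqrt (by linarith)]
  have z0 : 0 ≤ Zp n α β := by
    rw [Zp_PF]
    exact Finset.sum_nonneg fun _ _ => (Real.exp_pos _).le
  rw [r3, ← mul_pow]
  refine pow_le_pow_left₀ (by positivity) ?_ 2
  refine (mul_le_mul_of_nonneg_right hs (by positivity)).trans ?_
  rw [Finset.sum_mul]
  refine le_trans (Finset.sum_le_sum fun E hE => ?_)
    (Finset.sum_le_sum_of_subset_of_nonneg (Finset.filter_subset _ _) fun _ _ _ => by positivity)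
  rw [POLY.wt, Real.exp_add]
  refine mul_le_mul_of_nonneg_left ?_ (by positivity)
  rw [← Real.rpow_natCast]
  exact Real.rpow_le_rpow_of_exponent_le r2 (Finset.mem_filter.1 hE).2

end Pool.Agent.MP_7b45f6_mp.H97
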