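import Pool.Agent.MP_7b45f6_mp.H97.Spec

/-!
# The flip keeps the class of polygons
-/

set_option autoImplicit false

namespace Pool.Agent.MP_7b45f6_mp.H97

open Classical Pool.Agent.MP_7b45f6_mp.H32

namespace FLAx

theorem edges_map (f : P → P) : ∀ l : List P, edges (l.map f) = (edges l).image (Sym2.map f)
  | [] => rfl
  | [_] => rfl
  | p :: q :: l => by
    have ih := edges_map f (q :: l)
    rw [List.map_cons] at ih
    rw [List.map_cons, List.map_cons, CONV.edges_cons, CONV.edges_cons, ih, Finset.image_insert,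
      Sym2.map_mk]

theorem mem_verts {E : Finset (Sym2 P)} {v : P} : v ∈ verts E ↔ ∃ e ∈ E, v ∈ e := by
  simp [verts]

theorem mem_verts_image (σ : Equiv.Perm P) (E : Finset (Sym2 P)) (v : P) :
    σ v ∈ verts (E.image (Sym2.map σ)) ↔ v ∈ verts E := by
  rw [mem_verts, mem_verts]
  constructor
  · rintro ⟨e, he, hv⟩
    obtain ⟨e', he', rfl⟩ := Finset.mem_image.1 he
    obtain ⟨a, ha, h⟩ := Sym2.mem_map.1 hv
    exact ⟨e', he', σ.injective h ▸ ha⟩
  · rintro ⟨e, he, hv⟩
    exact ⟨_, Finset.mem_image_of_mem _ he, Sym2.mem_map.2 ⟨v, hv, rfl⟩⟩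

theorem mem_zip {a b : P} : ∀ {l : List P}, s(a, b) ∈ edges l →
    (a, b) ∈ l.zip l.tail ∨ (b, a) ∈ l.zip l.tail
  | [], h => by simp [CONV.edges_nil] at h
  | [p], h => by simp [CONV.edges_one] at h
  | p :: q :: l, h => by
    rw [CONV.edges_cons, Finset.mem_insert] at h
    rw [List.tail_cons, List.zip_cons_cons, List.mem_cons, List.mem_cons]
    rcases h with h | h
    · rcases Sym2.eq_iff.1 h with ⟨rfl, rfl⟩ | ⟨rfl, rfl⟩
      · exact Or.inl (Or.inl rfl)
      · exact Or.inr (Or.inl rfl)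
    · exact (mem_zip h).imp Or.inr Or.inr

theorem chain_of {R : P → P → Prop} : ∀ {l : List P}, (∀ a b, s(a, b) ∈ edges l → R a b) →
    l.IsChain R
  | [], _ => List.isChain_nil
  | [p], _ => List.isChain_singleton p
  | p :: q :: l, h => by
    rw [CONV.edges_cons] at h
    exact List.isChain_cons_cons.2 ⟨h p q (Finset.mem_insert_self _ _),
      chain_of fun a b he => h a b (Finset.mem_insert_of_mem he)⟩

/-- A vertex of a cyclic list has at most two edges. -/
theorem deg {w : List P} (hw : Cyc w) {y a b c : P} (ha : s(y, a) ∈ ce w) (hb : s(y, b) ∈ ce w)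
    (hc : s(y, c) ∈ ce w) : a = b ∨ a = c ∨ b = c := by
  obtain ⟨p, t, rfl⟩ := List.exists_cons_of_ne_nil (POLY.ne_nil hw.1)
  have e : (p :: t ++ (p :: t).take 1).zip (p :: t ++ (p :: t).take 1).tail =
      (p :: t).zip (t ++ [p]) := by
    have h := List.zip_append (l₁ := p :: t) (r₁ := [p]) (l₂ := t ++ [p]) (r₂ := []) (by simp)
    simpa using h
  have h1 : (((p :: t).zip (t ++ [p])).map Prod.fst).Nodup := by
    rw [List.map_fst_zip (by simp)]; exact hw.2.1
  have h2 : (((p :: t).zip (t ++ [p])).map Prod.snd).Nodup := by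
    rw [List.map_snd_zip (by simp)]; exact CONV.rot_nodup hw.2.1
  have k1 : ∀ {u v : P}, (y, u) ∈ (p :: t).zip (t ++ [p]) → (y, v) ∈ (p :: t).zip (t ++ [p]) →
      u = v := fun hu hv => congrArg Prod.snd (List.inj_on_of_nodup_map h1 hu hv rfl)
  have k2 : ∀ {u v : P}, (u, y) ∈ (p :: t).zip (t ++ [p]) → (v, y) ∈ (p :: t).zip (t ++ [p]) →
      u = v := fun hu hv => congrArg Prod.fst (List.inj_on_of_nodup_map h2 hu hv rfl)
  have a1 := mem_zip ha
  have b1 := mem_zip hb
  have c1 := mem_zip hc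
  rw [e] at a1 b1 c1
  rcases a1 with a1 | a1 <;> rcases b1 with b1 | b1 <;> rcases c1 with c1 | c1
  exacts [Or.inl (k1 a1 b1), Or.inl (k1 a1 b1), Or.inr (Or.inl (k1 a1 c1)),
    Or.inr (Or.inr (k2 b1 c1)), Or.inr (Or.inr (k1 b1 c1)), Or.inr (Or.inl (k2 a1 c1)),
    Or.inl (k2 a1 b1), Or.inl (k2 a1 b1)]

theorem swap_ok {n : ℕ} {E : Finset (Sym2 P)} (hE : E ∈ Polys n) {u v p q : P}
    (hp : s(u, p) ∈ E) (hq : s(u, q) ∈ E) (hpq : p ≠ q) (hv : v ∉ verts E) (h1 : Adj v p)
    (h2 : Adj v q) (hu1 : ∀ i, 1 ≤ u i) (hv1 : ∀ i, 1 ≤ v i) :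
    E.image (Sym2.map (Equiv.swap u v)) ∈ Polys n ∧
      visits (verts (E.image (Sym2.map (Equiv.swap u v)))) = visits (verts E) := by
  obtain ⟨⟨w, rfl, h3, hn, hc, rfl⟩, h0, hx, hy, hz⟩ := hE
  have fix : ∀ (y : P) (i : Fin 3), y i ≤ 0 → Equiv.swap u v y = y := fun y i hi =>
    Equiv.swap_apply_of_ne_of_ne (fun h => by have := hu1 i; rw [← h] at this; omega)
      (fun h => by have := hv1 i; rw [← h] at this; omega)
  have hm : ∀ (y : P) (i : Fin 3), y i ≤ 0 →
      (y ∈ verts ((edges (w ++ w.take 1)).image (Sym2.map (Equiv.swap u v))) ↔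
        y ∈ verts (edges (w ++ w.take 1))) := fun y i hi => by
    have h := mem_verts_image (Equiv.swap u v) (edges (w ++ w.take 1)) y
    rwa [fix y i hi] at h
  have hvis : visits (verts ((edges (w ++ w.take 1)).image (Sym2.map (Equiv.swap u v)))) =
      visits (verts (edges (w ++ w.take 1))) := by
    unfold visits
    congr 1
    ext y
    simp only [Finset.mem_filter]
    exact and_congr_left fun h => hm y 2 h.le
  have adj : ∀ a b, s(a, b) ∈ edges (w ++ w.take 1) → Adj a b := fun a b he => by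
    obtain ⟨a', b', e, h⟩ := CONV.adj_of_edge hc he
    rcases Sym2.eq_iff.1 e with ⟨rfl, rfl⟩ | ⟨rfl, rfl⟩
    exacts [h, h.symm]
  have nv : ∀ a b, s(a, b) ∈ edges (w ++ w.take 1) → b ≠ v := fun a b he h =>
    hv (mem_verts.2 ⟨_, he, h ▸ Sym2.mem_mk_right a b⟩)
  have au : ∀ b, s(u, b) ∈ edges (w ++ w.take 1) →
      Adj (Equiv.swap u v u) (Equiv.swap u v b) := fun b he => by
    rw [Equiv.swap_apply_left, Equiv.swap_apply_of_ne_of_ne (adj _ _ he).ne.symm (nv _ _ he)]
    rcases deg ⟨h3, hn, hc⟩ hp hq he with h | rfl | rfl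
    exacts [absurd h hpq, h1, h2]
  refine ⟨⟨⟨w.map (Equiv.swap u v), List.length_map _, h3, hn.map (Equiv.injective _), ?_, ?_⟩,
    fun y hy i => ?_, ?_, ?_, hvis ▸ hz⟩, hvis⟩
  · rw [← List.map_take, ← List.map_append, List.isChain_map]
    refine chain_of fun a b he => ?_
    have he' : s(b, a) ∈ edges (w ++ w.take 1) := by rwa [Sym2.eq_swap]
    by_cases ha : a = u
    · rw [ha] at he ⊢
      exact au b he
    by_cases hb : b = u
    · rw [hb] at he' ⊢
      exact (au a he').symm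
    rw [Equiv.swap_apply_of_ne_of_ne ha (nv _ _ he'), Equiv.swap_apply_of_ne_of_ne hb (nv _ _ he)]
    exact adj a b he
  · rw [← List.map_take, ← List.map_append, edges_map]
  · by_contra h
    exact h (h0 y ((hm y i (by omega)).1 hy) i)
  · obtain ⟨y, h4, h5⟩ := hx
    exact ⟨y, (hm y 0 h5.le).2 h4, h5⟩
  · obtain ⟨y, h4, h5⟩ := hy
    exact ⟨y, (hm y 1 h5.le).2 h4, h5⟩

theorem adj_left (x : P) {p q : P} (h : Adj p q) : Adj (x + p) (x + q) := by
  rw [add_comm x, add_comm x]
  exact (adj_add p q x).2 h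

theorem pos {x : P} (h : ∀ i, 0 ≤ (x + ![0, 0, 0] : P) i) {p : P} (hp : ∀ i, 1 ≤ p i) (i : Fin 3) :
    1 ≤ (x + p) i := by
  have h1 := h i
  have h2 := hp i
  have h3 : (![0, 0, 0] : P) i = 0 := by fin_cases i <;> rfl
  rw [Pi.add_apply] at h1 ⊢
  omega

end FLAx

theorem fla : FlaStmt := by
  refine ⟨by unfold IsPattern InCube Adj; decide, fun n x E hE => ?_⟩
  unfold flp
  split_ifs with h
  swap
  · exact ⟨hE, rfl⟩
  have c0 : InCube 3 ![0, 0, 0] := by unfold InCube; decide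
  have ne : x + ![1, 1, 1] ≠ x + ![2, 1, 2] := fun e => absurd (add_left_cancel e) (by decide)
  rcases h with h | h
  · have hx := hE.2.1 _ ((h.1 _ c0).2 (by decide))
    refine FLAx.swap_ok hE (p := x + ![1, 1, 1]) (q := x + ![2, 1, 2]) (h.2 ?_) (h.2 ?_) ne
      (fun e => absurd ((h.1 _ (by unfold InCube; decide)).1 e) (by decide))
      (FLAx.adj_left x (by unfold Adj; decide)) (FLAx.adj_left x (by unfold Adj; decide))
      (FLAx.pos hx (by decide)) (FLAx.pos hx (by decide))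
    · rw [Sym2.eq_swap]; simp only [g1, List.map_cons, CONV.edges_cons, Finset.mem_insert, true_or,
        or_true]
    · simp only [g1, List.map_cons, CONV.edges_cons, Finset.mem_insert, true_or, or_true]
  · have hx := hE.2.1 _ ((h.1 _ c0).2 (by decide))
    rw [Equiv.swap_comm]
    refine FLAx.swap_ok hE (p := x + ![1, 1, 1]) (q := x + ![2, 1, 2]) (h.2 ?_) (h.2 ?_) ne
      (fun e => absurd ((h.1 _ (by unfold InCube; decide)).1 e) (by decide))
      (FLAx.adj_left x (by unfold Adj; decide)) (FLAx.adj_left x (by unfold Adj; decide))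
      (FLAx.pos hx (by decide)) (FLAx.pos hx (by decide))
    · rw [Sym2.eq_swap]; simp only [g2, List.map_cons, CONV.edges_cons, Finset.mem_insert, true_or,
        or_true]
    · simp only [g2, List.map_cons, CONV.edges_cons, Finset.mem_insert, true_or, or_true]

end Pool.Agent.MP_7b45f6_mp.H97
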