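import Pool.Agent.MP_7b45f6_mp.H97.Spec

/-!
# The flip changes the number of contacts by one
-/

set_option autoImplicit false

namespace Pool.Agent.MP_7b45f6_mp.H97

open Classical Pool.Agent.MP_7b45f6_mp.H32

namespace FLCx

theorem poly {n : ℕ} {E : Finset (Sym2 P)} (h : E ∈ Polys n) :
    2 * (contacts (verts E) E + n) = A2 (verts E) := by
  obtain ⟨⟨w, rfl, h3, hn, hc, rfl⟩, -⟩ := h
  obtain ⟨h1, h2⟩ := conv.2.1 w h3 hn hc
  rw [h1, h2]

theorem A2_sum (V : Finset P) : A2 V = ∑ p ∈ V, (V.filter (Adj p)).card := by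
  rw [A2, Finset.card_filter, Finset.sum_product]
  exact Finset.sum_congr rfl fun p _ => (Finset.card_filter _ _).symm

theorem A2_insert {V : Finset P} {u : P} (h : u ∉ V) :
    A2 (insert u V) = A2 V + 2 * (V.filter (Adj u)).card := by
  have h0 : ¬ Adj u u := fun a => a.ne rfl
  have h1 : ∀ p, ((insert u V).filter (Adj p)).card =
      (V.filter (Adj p)).card + if Adj u p then 1 else 0 := by
    intro p
    rw [Finset.filter_insert]
    by_cases a : Adj u p
    · rw [if_pos a.symm, if_pos a,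
        Finset.card_insert_of_notMem fun m => h (Finset.mem_filter.1 m).1]
    · rw [if_neg fun b => a b.symm, if_neg a, add_zero]
  rw [A2_sum, A2_sum, Finset.sum_insert h]
  simp only [h1, if_neg h0, Finset.sum_add_distrib]
  rw [Finset.card_filter (Adj u)]
  omega

theorem verts_image (f : P → P) (E : Finset (Sym2 P)) :
    verts (E.image (Sym2.map f)) = (verts E).image f := by
  ext p
  simp only [verts, Finset.mem_biUnion, Finset.mem_image, Sym2.mem_toFinset]
  constructor
  · rintro ⟨_, ⟨e, he, rfl⟩, hp⟩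
    obtain ⟨q, hq, rfl⟩ := Sym2.mem_map.1 hp
    exact ⟨q, ⟨e, he, hq⟩, rfl⟩
  · rintro ⟨q, ⟨e, he, hq⟩, rfl⟩
    exact ⟨_, ⟨e, he, rfl⟩, Sym2.mem_map.2 ⟨q, hq, rfl⟩⟩

theorem image_swap {V : Finset P} {u v : P} (hu : u ∈ V) (hv : v ∉ V) :
    V.image (Equiv.swap u v) = insert v (V.erase u) := by
  ext p
  simp only [Finset.mem_image, Finset.mem_insert, Finset.mem_erase]
  constructor
  · rintro ⟨q, hq, rfl⟩
    by_cases a : q = u
    · left; rw [a, Equiv.swap_apply_left]
    · right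
      rw [Equiv.swap_apply_of_ne_of_ne a fun b : q = v => hv (b ▸ hq)]
      exact ⟨a, hq⟩
  · rintro (rfl | ⟨a, hp⟩)
    · exact ⟨u, hu, Equiv.swap_apply_left _ _⟩
    · exact ⟨p, hp, Equiv.swap_apply_of_ne_of_ne a fun b => hv (b ▸ hp)⟩

theorem nb {E : Finset (Sym2 P)} {x : P} (h : Occurs 3 g1 E x) (c u : P)
    (hc : ∀ i, 1 ≤ c i ∧ c i ≤ 2) (hu : d1 c u ≠ 1) :
    (((verts E).erase (x + u)).filter (Adj (x + c))).card =
      (g1.toFinset.filter fun q => d1 c q = 1).card := by
  have ha : ∀ q, Adj (x + c) (x + q) ↔ d1 c q = 1 := fun q => by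
    rw [add_comm x, add_comm x, adj_add, Adj]
  have hq : ∀ q, d1 c q = 1 → InCube 3 q := fun q a i => by
    have := coord_le_d1 c q i
    have := hc i
    constructor <;> omega
  symm
  refine Finset.card_bij (fun q _ => x + q) (fun q m => ?_) (fun q _ q' _ e => add_left_cancel e)
    fun p m => ?_
  · obtain ⟨m1, m2⟩ := Finset.mem_filter.1 m
    exact Finset.mem_filter.2 ⟨Finset.mem_erase.2 ⟨fun e => hu (add_left_cancel e ▸ m2),
      (h.1 q (hq q m2)).2 (List.mem_toFinset.1 m1)⟩, (ha q).2 m2⟩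
  · obtain ⟨m1, m2⟩ := Finset.mem_filter.1 m
    obtain ⟨q, rfl⟩ : ∃ q, p = x + q := ⟨p - x, by simp⟩
    have m3 := (ha q).1 m2
    exact ⟨q, Finset.mem_filter.2 ⟨List.mem_toFinset.2
      ((h.1 q (hq q m3)).1 (Finset.mem_of_mem_erase m1)), m3⟩, rfl⟩

end FLCx

open FLCx in
theorem flc_of (h : FlaStmt) (_h2 : FlbStmt) : FlcStmt := by
  intro n x E hE ho
  have h1 := poly hE
  have h2 := poly (h.2 n x E hE).1
  have hu : x + ![1, 1, 2] ∈ verts E :=
    (ho.1 _ fun i => by fin_cases i <;> simp).2 (by decide)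
  have hv : x + ![2, 1, 1] ∉ verts E := fun m =>
    absurd ((ho.1 _ fun i => by fin_cases i <;> simp).1 m) (by decide)
  have h3 : verts (flp x E) = insert (x + ![2, 1, 1]) ((verts E).erase (x + ![1, 1, 2])) := by
    rw [flp, if_pos (Or.inl ho), verts_image, image_swap hu hv]
  have h4 := A2_insert (Finset.notMem_erase (x + ![1, 1, 2]) (verts E))
  have h5 := A2_insert (V := (verts E).erase (x + ![1, 1, 2])) (u := x + ![2, 1, 1])
    fun m => hv (Finset.mem_of_mem_erase m)
  rw [Finset.insert_erase hu,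
    nb ho ![1, 1, 2] ![1, 1, 2] (fun i => by fin_cases i <;> simp) (by decide),
    show (g1.toFinset.filter fun q => d1 ![1, 1, 2] q = 1).card = 3 by decide] at h4
  rw [← h3, nb ho ![2, 1, 1] ![1, 1, 2] (fun i => by fin_cases i <;> simp) (by decide),
    show (g1.toFinset.filter fun q => d1 ![2, 1, 1] q = 1).card = 2 by decide] at h5
  omega

end Pool.Agent.MP_7b45f6_mp.H97
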