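import Pool.Agent.MP_7b45f6_mp.H97.Spec

/-!
# Row INIT: delete the edges inside `B`
-/

set_option autoImplicit false

namespace Pool.Agent.MP_7b45f6_mp.H97

open Classical Pool.Agent.MP_7b45f6_mp.H32

namespace INITx

theorem edges_append {e : Sym2 P} {v : List P} (hv : v ≠ []) : ∀ {u : List P}, u ≠ [] →
    (e ∈ edges (u ++ v) ↔ e ∈ edges u ∨ e = s(lt u, hd v) ∨ e ∈ edges v)
  | [], h => absurd rfl h
  | [p], _ => by
    obtain ⟨q, l, rfl⟩ := List.exists_cons_of_ne_nil hv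
    simp [CONV.edges_cons, CONV.edges_one]
  | p :: q :: l, _ => by
    have ih := edges_append (e := e) hv (List.cons_ne_nil q l)
    rw [List.cons_append] at ih
    rw [List.cons_append, List.cons_append, CONV.edges_cons, CONV.edges_cons, Finset.mem_insert,
      Finset.mem_insert, ih, lt_cons_cons, or_assoc]

theorem split {e : Sym2 P} : ∀ {u : List P}, e ∈ edges u →
    ∃ a b : List P, a ≠ [] ∧ b ≠ [] ∧ u = a ++ b ∧ e = s(lt a, hd b)
  | [], h => by simp [CONV.edges_nil] at h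
  | [p], h => by simp [CONV.edges_one] at h
  | p :: q :: l, h => by
    rw [CONV.edges_cons, Finset.mem_insert] at h
    rcases h with rfl | h
    · exact ⟨[p], q :: l, by simp, by simp, rfl, rfl⟩
    · obtain ⟨a, b, ha, hb, e1, e2⟩ := split h
      refine ⟨p :: a, b, by simp, hb, by rw [e1]; rfl, ?_⟩
      obtain ⟨x, a', rfl⟩ := List.exists_cons_of_ne_nil ha
      rw [lt_cons_cons, e2]

theorem chain_append {u v : List P} (hu : u ≠ []) (hv : v ≠ []) :
    (u ++ v).IsChain Adj ↔ u.IsChain Adj ∧ v.IsChain Adj ∧ Adj (lt u) (hd v) := by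
  obtain ⟨l, p, rfl⟩ := (List.eq_nil_or_concat' u).resolve_left hu
  obtain ⟨q, l', rfl⟩ := List.exists_cons_of_ne_nil hv
  rw [List.isChain_append]
  simp

theorem ins_iff {B : Set P} {a b : P} : Ins B s(a, b) ↔ a ∈ B ∧ b ∈ B := by
  simp [Ins]

theorem arcs (B : Set P) : ∀ (n : ℕ) (u : List P), u.length ≤ n → u ≠ [] → u.IsChain Adj →
    hd u ∈ B → lt u ∈ B → ∃ L : List (List P), L.flatten.Sublist u ∧
      (∀ v ∈ L, v.IsChain Adj ∧ 2 ≤ v.length ∧ hd v ∈ B ∧ lt v ∈ B ∧ ∀ e ∈ edges v, ¬ Ins B e) ∧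
      ∀ e, ¬ Ins B e → ((∃ v ∈ L, e ∈ edges v) ↔ e ∈ edges u) := by
  intro n
  induction n with
  | zero => exact fun u h hu => absurd (List.length_eq_zero_iff.1 (Nat.le_zero.1 h)) hu
  | succ n ih =>
    intro u hl hu hc h1 h2
    by_cases hi : ∃ e ∈ edges u, Ins B e
    · obtain ⟨e₀, he, hin⟩ := hi
      obtain ⟨a, b, ha, hb, rfl, rfl⟩ := split he
      have la := List.length_pos_iff.2 ha
      have lb := List.length_pos_iff.2 hb
      rw [List.length_append] at hl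
      rw [chain_append ha hb] at hc
      rw [hd_append ha] at h1
      rw [lt_append a hb] at h2
      obtain ⟨L, s1, p1, q1⟩ := ih a (by omega) ha hc.1 h1 (ins_iff.1 hin).1
      obtain ⟨L', s2, p2, q2⟩ := ih b (by omega) hb hc.2.1 (ins_iff.1 hin).2 h2
      refine ⟨L ++ L', by rw [List.flatten_append]; exact s1.append s2,
        fun v hv => (List.mem_append.1 hv).elim (p1 v) (p2 v), fun e hn => ?_⟩
      rw [edges_append hb ha, ← q1 e hn, ← q2 e hn]
      constructor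
      · rintro ⟨v, hv, h⟩
        exact (List.mem_append.1 hv).elim (fun hv => Or.inl ⟨v, hv, h⟩)
          fun hv => Or.inr (Or.inr ⟨v, hv, h⟩)
      · rintro (⟨v, hv, h⟩ | rfl | ⟨v, hv, h⟩)
        · exact ⟨v, List.mem_append_left _ hv, h⟩
        · exact absurd hin hn
        · exact ⟨v, List.mem_append_right _ hv, h⟩
    · by_cases h3 : 2 ≤ u.length
      · refine ⟨[u], by simp, fun v hv => ?_, fun e _ => by simp⟩
        rw [List.mem_singleton.1 hv]
        exact ⟨hc, h3, h1, h2, fun e he hin => hi ⟨e, he, hin⟩⟩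
      · refine ⟨[], by simp, by simp, fun e _ => ?_⟩
        match u, hu, h3 with
        | [p], _, _ => simp [CONV.edges_one]
        | p :: q :: l, _, h3 => simp at h3

theorem path {B : Set P} {w : List P} (hw : Cyc w) (hi : ∃ e ∈ ce w, Ins B e) :
    ∃ u : List P, u ≠ [] ∧ u.Nodup ∧ u.IsChain Adj ∧ hd u ∈ B ∧ lt u ∈ B ∧
      ∀ e, ¬ Ins B e → (e ∈ edges u ↔ e ∈ ce w) := by
  obtain ⟨h3, hn, hc⟩ := hw
  have h0 : w ≠ [] := by
    rintro rfl
    simp at h3
  have ht : w.take 1 = [hd w] := by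
    obtain ⟨q, l, rfl⟩ := List.exists_cons_of_ne_nil h0
    rfl
  have hce : ∀ e, e ∈ ce w ↔ e ∈ edges w ∨ e = s(lt w, hd w) := fun e => by
    rw [ce, ht, edges_append (by simp) h0]
    simp [CONV.edges_one]
  rw [ht, chain_append h0 (by simp), hd_cons] at hc
  obtain ⟨e₀, he, hin⟩ := hi
  rcases (hce e₀).1 he with he | rfl
  · obtain ⟨a, b, ha, hb, rfl, rfl⟩ := split he
    rw [chain_append ha hb, hd_append ha, lt_append a hb] at hc
    refine ⟨b ++ a, by simp [ha], List.nodup_append_comm.1 hn,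
      (chain_append hb ha).2 ⟨hc.1.2.1, hc.1.1, hc.2.2⟩, ?_, ?_, fun e hn => ?_⟩
    · rw [hd_append hb]
      exact (ins_iff.1 hin).2
    · rw [lt_append b ha]
      exact (ins_iff.1 hin).1
    · rw [hce, edges_append ha hb, edges_append hb ha, hd_append ha, lt_append a hb]
      have : e ≠ s(lt a, hd b) := fun h => hn (h ▸ hin)
      tauto
  · refine ⟨w, h0, hn, hc.1, (ins_iff.1 hin).2, (ins_iff.1 hin).1, fun e hn => ?_⟩
    rw [hce]
    have : e ≠ s(lt w, hd w) := fun h => hn (h ▸ hin)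
    tauto

end INITx

open INITx in
theorem init : InitStmt := by
  intro B D T w hw hi ho hD
  obtain ⟨u, h0, hn, hc, h1, h2, he⟩ := path hw hi
  obtain ⟨L, s, p, q⟩ := arcs B _ u le_rfl h0 hc h1 h2
  have ed : ∀ e, ¬ Ins B e → ((∃ v ∈ L, e ∈ edges v) ↔ e ∈ ce w) :=
    fun e h => (q e h).trans (he e h)
  have vd : ∀ v ∈ L, ∀ x ∈ v, x ∈ B → x ∈ D := by
    intro v hv x hx hB
    obtain ⟨-, h2, -, -, h5⟩ := p v hv
    match v, h2 with
    | a :: b :: l, _ =>
      obtain ⟨e, e1, e2⟩ := CONV.cover l a b hx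
      obtain ⟨y, rfl⟩ := Sym2.mem_iff_exists.1 e2
      exact hD x hB y (fun hy => h5 _ e1 (ins_iff.2 ⟨hB, hy⟩))
        ((ed _ (h5 _ e1)).1 ⟨_, hv, e1⟩)
  refine ⟨L, ?_, hn.sublist s, fun v hv => ⟨(p v hv).1, (p v hv).2.1⟩, fun v hv => ?_, ed,
    fun v hv e h hin => absurd hin ((p v hv).2.2.2.2 e h), vd⟩
  · rintro rfl
    obtain ⟨e, e1, e2⟩ := ho
    obtain ⟨v, hv, -⟩ := (ed e e2).2 e1
    simp at hv
  · obtain ⟨-, h2, h3, h4, -⟩ := p v hv
    have hne : v ≠ [] := by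
      rintro rfl
      simp at h2
    exact ⟨⟨vd v hv _ (hd_mem hne) h3, Set.notMem_empty _⟩, vd v hv _ (lt_mem hne) h4,
      Set.notMem_empty _⟩

end Pool.Agent.MP_7b45f6_mp.H97
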