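import Pool.Agent.MP_7b45f6_mp.H97.Spec

/-!
# Iterating the one-step inequality
-/

set_option autoImplicit false

namespace Pool.Agent.MP_7b45f6_mp.H97

open Classical Filter Topology Pool.Agent.MP_7b45f6_mp.H32

namespace ITERx

/-- The downward induction. -/
theorem core {A : ℕ → ℕ → ℝ} {Z : ℕ → ℝ} {C : ℕ} (h0 : ∀ n k, 0 ≤ A n k ∧ A n k ≤ Z n)
    (h1 : ∀ n k : ℕ, ((n : ℝ) - C) * A n k ≤
      C * ((k : ℝ) + C) * ∑ n' ∈ Finset.Icc (n - C) (n + C), A n' (k + C))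
    {M q : ℝ} {n k j : ℕ} (hM : 0 ≤ M) (hq : 0 ≤ q)
    (ha : ∀ n', n ≤ n' + C * j → n' ≤ n + C * j → Z n' ≤ M)
    (hb : ∀ n' t : ℕ, t < j → n ≤ n' + C * t → 0 < (n' : ℝ) - C ∧
      C * (((k + C * t : ℕ) : ℝ) + C) * (2 * C + 1) ≤ q * ((n' : ℝ) - C))
    (i : ℕ) : ∀ t n' : ℕ, i + t = j → n ≤ n' + C * t → n' ≤ n + C * t →
      A n' (k + C * t) ≤ q ^ i * M := by
  induction i with
  | zero =>
    intro t n' e l1 l2
    rw [zero_add] at e
    subst e
    rw [pow_zero, one_mul]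
    exact (h0 _ _).2.trans (ha n' l1 l2)
  | succ i ih =>
    intro t n' e l1 l2
    obtain ⟨p1, p2⟩ := hb n' t (by omega) l1
    have hqM : 0 ≤ q ^ i * M := mul_nonneg (pow_nonneg hq i) hM
    have s1 : ∑ x ∈ Finset.Icc (n' - C) (n' + C), A x (k + C * t + C) ≤
        (2 * C + 1) * (q ^ i * M) := by
      have s2 : ∀ x ∈ Finset.Icc (n' - C) (n' + C), A x (k + C * t + C) ≤ q ^ i * M := by
        intro x hx
        rw [Finset.mem_Icc] at hx
        have s3 := ih (t + 1) x (by omega) (by rw [Nat.mul_succ]; omega)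
          (by rw [Nat.mul_succ]; omega)
        rwa [Nat.mul_succ, ← add_assoc] at s3
      refine (Finset.sum_le_card_nsmul _ _ _ s2).trans ?_
      rw [nsmul_eq_mul]
      refine mul_le_mul_of_nonneg_right ?_ hqM
      have s4 : (Finset.Icc (n' - C) (n' + C)).card ≤ 2 * C + 1 := by
        rw [Nat.card_Icc]; omega
      exact_mod_cast s4
    have s5 : 0 ≤ (C : ℝ) * (((k + C * t : ℕ) : ℝ) + C) := by positivity
    have s6 := (h1 n' (k + C * t)).trans (mul_le_mul_of_nonneg_left s1 s5)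
    have s7 := mul_le_mul_of_nonneg_right p2 hqM
    refine le_of_mul_le_mul_left ?_ p1
    calc ((n' : ℝ) - C) * A n' (k + C * t)
        ≤ C * (((k + C * t : ℕ) : ℝ) + C) * (2 * C + 1) * (q ^ i * M) := by
          rw [mul_assoc _ (2 * (C : ℝ) + 1)]; exact s6
      _ ≤ q * ((n' : ℝ) - C) * (q ^ i * M) := s7
      _ = ((n' : ℝ) - C) * (q ^ (i + 1) * M) := by ring

end ITERx

theorem iter : IterStmt := by
  intro A Z F C h0 h1 h2 h3
  have hC : (0 : ℝ) ≤ C := Nat.cast_nonneg C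
  have hF : 0 ≤ |F| := abs_nonneg F
  obtain ⟨q, hq⟩ : ∃ q : ℝ, q = Real.exp (-((|F| + 1) * C + 2)) := ⟨_, rfl⟩
  have q0 : 0 < q := hq ▸ Real.exp_pos _
  have q1 : q ≤ 1 := by
    rw [hq, Real.exp_le_one_iff]
    have : 0 ≤ (|F| + 1) * C := by positivity
    linarith
  obtain ⟨D, hD⟩ : ∃ D : ℝ, D = 2 * C * (2 * C + 1) * (C + 1) := ⟨_, rfl⟩
  have D0 : 0 ≤ D := by rw [hD]; positivity
  obtain ⟨δ, hδ⟩ : ∃ δ : ℝ, δ = q / (D + 4 * C + 1) := ⟨_, rfl⟩
  have d0 : 0 < δ := by rw [hδ]; positivity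
  have dq : δ * (D + 4 * C + 1) = q := by rw [hδ]; field_simp
  have dD : 0 ≤ δ * D := mul_nonneg d0.le D0
  have dC : 0 ≤ δ * C := mul_nonneg d0.le hC
  have d1 : δ * D ≤ q := by linarith
  have d2 : 4 * (δ * C) ≤ 1 := by linarith
  have d3 : δ ≤ 1 := by linarith
  obtain ⟨N, hN⟩ := eventually_atTop.1 (h2 (δ / 4) (by positivity))
  refine ⟨δ, d0, δ, d0, ?_⟩
  filter_upwards [h3 (δ / 4) (by positivity), eventually_ge_atTop N,
    eventually_ge_atTop ⌈2 / δ⌉₊] with m l1 l2 l3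
  have l4 : 2 ≤ δ * m := by
    have := (Nat.ceil_le.1 l3)
    rw [div_le_iff₀ d0] at this
    linarith
  obtain ⟨n, hn⟩ : ∃ n : ℕ, n = 2 * m := ⟨_, rfl⟩
  have hn' : (n : ℝ) = 2 * m := by rw [hn]; push_cast; ring
  rw [← hn] at l1 ⊢
  have n4 : 4 ≤ δ * n := by rw [hn']; linarith
  have n0 : (0 : ℝ) < n := by
    by_contra h
    have := mul_nonpos_of_nonneg_of_nonpos d0.le (not_lt.1 h)
    linarith
  obtain ⟨j, hj⟩ : ∃ j : ℕ, j = ⌊δ * n⌋₊ := ⟨_, rfl⟩
  rw [← hj]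
  have j0 : (0 : ℝ) ≤ j := Nat.cast_nonneg j
  have j1 : (j : ℝ) ≤ δ * n := hj ▸ Nat.floor_le (by linarith)
  have j2 : δ * n < j + 1 := hj ▸ Nat.lt_floor_add_one _
  have j3 : (C : ℝ) * j ≤ n / 4 := by
    have a1 := mul_le_mul_of_nonneg_left j1 hC
    have a2 := mul_le_mul_of_nonneg_right d2 n0.le
    linarith
  have key := ITERx.core h0 h1 (M := Real.exp ((F + δ / 4) * n + (|F| + 1) * C * j)) (q := q)
    (n := n) (k := j) (j := j) (Real.exp_pos _).le q0.le ?_ ?_ j 0 n rfl (by omega) (by omega)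
  · rw [mul_zero, add_zero, hq, ← Real.exp_nat_mul, ← Real.exp_add] at key
    refine key.trans (le_trans ?_ (mul_le_mul_of_nonneg_left l1 (Real.exp_pos _).le))
    rw [← Real.exp_add, Real.exp_le_exp]
    linarith
  · intro n' a1 a2
    have b1 : (n : ℝ) ≤ n' + C * j := by exact_mod_cast a1
    have b2 : (n' : ℝ) ≤ n + C * j := by exact_mod_cast a2
    have b3 : m ≤ n' := by
      have b4 : (0 : ℝ) ≤ m := Nat.cast_nonneg m
      have : (m : ℝ) ≤ n' := by linarith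
      exact_mod_cast this
    refine (hN n' (l2.trans b3)).trans (Real.exp_le_exp.2 ?_)
    have b5 : |F + δ / 4| ≤ |F| + 1 :=
      (abs_add_le _ _).trans (by rw [abs_of_pos (by positivity : 0 < δ / 4)]; linarith)
    have b6 : |(n' : ℝ) - n| ≤ C * j := abs_le.2 ⟨by linarith, by linarith⟩
    have b7 : (F + δ / 4) * ((n' : ℝ) - n) ≤ (|F| + 1) * (C * j) := by
      refine (le_abs_self _).trans ?_
      rw [abs_mul]
      exact mul_le_mul b5 b6 (abs_nonneg _) (by linarith)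
    linarith
  · intro n' t a1 a2
    have b1 : (n : ℝ) ≤ n' + C * t := by exact_mod_cast a2
    have b2 : (t : ℝ) + 1 ≤ j := by exact_mod_cast a1
    have b3 := mul_le_mul_of_nonneg_left b2 hC
    have b4 : (n : ℝ) / 2 ≤ n' - C := by linarith
    refine ⟨by linarith, ?_⟩
    have b5 : ((j + C * t : ℕ) : ℝ) + C ≤ (C + 1) * (δ * n) := by
      have b6 := mul_le_mul_of_nonneg_left j1 hC
      push_cast
      linarith
    have b7 := mul_le_mul_of_nonneg_left b5 (by positivity : (0 : ℝ) ≤ C * (2 * C + 1))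
    have b8 := mul_le_mul_of_nonneg_right d1 n0.le
    have b9 := mul_le_mul_of_nonneg_left b4 q0.le
    rw [hD] at b8
    linarith

end Pool.Agent.MP_7b45f6_mp.H97
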