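import Pool.Agent.MP_7b45f6_mp.H97.Spec
import Pool.Agent.MP_7b45f6_mp.H32.Main

/-!
# Row LIM: the free energy of polygons as a two-sided exponential bound
-/

set_option autoImplicit false

namespace Pool.Agent.MP_7b45f6_mp.H97

open Classical Filter Topology Pool.Agent.MP_7b45f6_mp.H32

namespace LIMx

/-- The rectangle of width one in the surface. -/
def R : ℕ → List P
  | 0 => [![0, 0, 0], ![0, 1, 0]]
  | k + 1 => ![(k : ℤ) + 1, 0, 0] :: (R k ++ [![(k : ℤ) + 1, 1, 0]])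

theorem R_spec (k : ℕ) : (R k).length = 2 * k + 2 ∧ (R k).Nodup ∧ (R k).IsChain Adj ∧
    hd (R k) = ![(k : ℤ), 0, 0] ∧ lt (R k) = ![(k : ℤ), 1, 0] ∧
    (∀ p ∈ R k, 0 ≤ p 0 ∧ p 0 ≤ k ∧ 0 ≤ p 1 ∧ p 2 = 0) ∧ (![0, 0, 0] : P) ∈ R k := by
  induction k with
  | zero =>
    refine ⟨rfl, ?_, ?_, rfl, rfl, ?_, by simp [R]⟩
    · simp [R]
    · simp [R, Adj, d1_eq]
    · simp [R]
  | succ k ih =>
    obtain ⟨h1, h2, h3, h4, h5, h6, h7⟩ := ih
    have hne : R k ≠ [] := List.ne_nil_of_mem h7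
    have hn : ∀ y : ℤ, (![(k : ℤ) + 1, y, 0] : P) ∉ R k := fun y hy => by
      have := (h6 _ hy).2.1
      simp at this
    refine ⟨by simp [R, h1]; omega, ?_, ?_, by simp [R], ?_, ?_, by simp [R, h7]⟩
    · rw [R, List.nodup_cons, List.nodup_append]
      refine ⟨?_, h2, by simp, ?_⟩
      · simp [hn]
      · intro a ha b hb e
        rw [List.mem_singleton.1 hb] at e
        exact hn _ (e ▸ ha)
    · rw [R, ← jn_eq_zero, ← List.singleton_append, jn, cs_append _ (by simp) (by simp),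
        cs_append _ hne (by simp), hd_append hne, h4, h5, lt_single, hd_cons,
        jmp_adj (by simp [Adj, d1_eq]), jmp_adj (by simp [Adj, d1_eq])]
      have := jn_eq_zero.2 h3
      rw [jn] at this
      simp [this]
    · rw [R, ← List.cons_append, lt_concat]
      simp
    · intro p hp
      simp only [R, List.mem_cons, List.mem_append, List.not_mem_nil, or_false] at hp
      rcases hp with rfl | hp | rfl
      · simp; omega
      · have := h6 p hp
        push_cast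
        omega
      · simp; omega

theorem rect {m : ℕ} (hm : 2 ≤ m) : (Polys (2 * m)).Nonempty := by
  obtain ⟨k, rfl⟩ : ∃ k, m = k + 1 := ⟨m - 1, by omega⟩
  obtain ⟨h1, h2, h3, h4, h5, h6, h7⟩ := R_spec k
  have h8 : 3 ≤ (R k).length := by omega
  have h9 := CONV.verts_eq h8
  refine ⟨edges (R k ++ (R k).take 1), ⟨R k, by omega, by omega, h2, ?_, rfl⟩, ?_, ?_, ?_, ?_⟩
  · refine (POLY.closed_iff (POLY.ne_nil h8)).2 ⟨h3, ?_⟩
    rw [h4, h5]
    simp [Adj, d1_eq]
  · intro p hp i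
    rw [h9, List.mem_toFinset] at hp
    have := h6 p hp
    fin_cases i
    · exact this.1
    · exact this.2.2.1
    · exact this.2.2.2.ge
  · exact ⟨_, h9 ▸ List.mem_toFinset.2 h7, rfl⟩
  · exact ⟨_, h9 ▸ List.mem_toFinset.2 h7, rfl⟩
  · rw [h9, visits, Finset.filter_true_of_mem fun p hp => (h6 p (List.mem_toFinset.1 hp)).2.2.2,
      List.toFinset_card_of_nodup h2]
    omega

theorem par_adj {p q : P} (h : Adj p q) : (p 0 + p 1 + p 2 + 1) % 2 = (q 0 + q 1 + q 2) % 2 := by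
  rw [Adj, d1_eq] at h
  omega

theorem par_chain : ∀ (l : List P) (p : P), (p :: l).IsChain Adj →
    (p 0 + p 1 + p 2 + l.length) % 2 = (lt (p :: l) 0 + lt (p :: l) 1 + lt (p :: l) 2) % 2
  | [], p, _ => by simp
  | q :: l, p, h => by
    rw [List.isChain_cons_cons] at h
    have h1 := par_adj h.1
    have h2 := par_chain l q h.2
    rw [lt_cons_cons, List.length_cons]
    push_cast
    omega

theorem even_of {n : ℕ} {E : Finset (Sym2 P)} (h : E ∈ Polys n) : ∃ m, n = 2 * m := by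
  obtain ⟨⟨w, rfl, h3, -, h, -⟩, -⟩ := h
  obtain ⟨h1, h2⟩ := (POLY.closed_iff (POLY.ne_nil h3)).1 h
  match w, h3, h1, h2 with
  | p :: l, _, h1, h2 =>
    have h4 := par_chain l p h1
    have h5 := par_adj h2
    rw [hd_cons] at h5
    refine ⟨(l.length + 1) / 2, ?_⟩
    rw [List.length_cons]
    omega

theorem pos (α β : ℝ) {m : ℕ} (hm : 2 ≤ m) : 0 < Zp (2 * m) α β := by
  obtain ⟨E, hE⟩ := rect hm
  rw [Zp_PF]
  exact Finset.sum_pos (fun _ _ => Real.exp_pos _) ⟨E, mem_PF.2 hE⟩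

theorem odd (α β : ℝ) (m : ℕ) : Zp (2 * m + 1) α β = 0 := by
  rw [Zp_PF]
  refine Finset.sum_eq_zero fun E hE => ?_
  obtain ⟨k, hk⟩ := even_of (mem_PF.1 hE)
  omega

end LIMx

theorem lim : LimStmt := by
  intro α β
  obtain ⟨F, -, hF⟩ := main α β
  have hT : Tendsto (fun m : ℕ => Real.log (Zp (2 * m) α β) / (2 * m : ℕ)) atTop
      (𝓝 (Fe α β)) := by
    rw [Fe, hF.limUnder_eq]
    exact hF
  have hp : ∀ m : ℕ, 2 ≤ m → (0 : ℝ) < (2 * m : ℕ) := fun m hm => by
    exact_mod_cast (by omega : 0 < 2 * m)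
  refine ⟨hT, fun m hm => LIMx.pos α β hm, fun η hη => ?_, fun η hη => ?_⟩
  · obtain ⟨N, hN⟩ := eventually_atTop.1
      ((hT.eventually (gt_mem_nhds (lt_add_of_pos_right _ hη))).and (eventually_ge_atTop 2))
    refine eventually_atTop.2 ⟨2 * N, fun n hn => ?_⟩
    obtain ⟨m, rfl | rfl⟩ := Nat.even_or_odd' n
    · obtain ⟨h1, h2⟩ := hN m (by omega)
      rw [div_lt_iff₀ (hp m h2)] at h1
      exact (Real.log_le_iff_le_exp (LIMx.pos α β h2)).1 h1.le
    · rw [LIMx.odd]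
      exact (Real.exp_pos _).le
  · filter_upwards [hT.eventually (lt_mem_nhds (sub_lt_self _ hη)), eventually_ge_atTop 2]
      with m h1 h2
    rw [lt_div_iff₀ (hp m h2)] at h1
    exact (Real.le_log_iff_exp_le (LIMx.pos α β h2)).1 h1.le

end Pool.Agent.MP_7b45f6_mp.H97
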