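import Pool.Agent.MP_7b45f6_mp.H97.Spec

/-!
# Two polygons that agree outside a box
-/

set_option autoImplicit false

namespace Pool.Agent.MP_7b45f6_mp.H97

open Classical Pool.Agent.MP_7b45f6_mp.H32

namespace LOCx

theorem vert {B : Set P} {w w' : List P} (hw : Cyc w) (hw' : Cyc w')
    (h : ∀ e, ¬ Ins B e → e ∈ ce w' → e ∈ ce w) {y : P} (hy : y ∉ B) (h1 : y ∈ w') : y ∈ w := by
  rw [← List.mem_toFinset, ← CONV.verts_eq hw'.1, verts, Finset.mem_biUnion] at h1
  obtain ⟨e, he, h2⟩ := h1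
  rw [← List.mem_toFinset, ← CONV.verts_eq hw.1, verts, Finset.mem_biUnion]
  exact ⟨e, h e (fun k => hy (k y (Sym2.mem_toFinset.1 h2))) he, h2⟩

/-- a finite set around the box -/
noncomputable def S (r : ℕ) (a : P) : Finset P := (box (2 * r + 23)).image fun p => a + p

theorem card_S (r : ℕ) (a : P) : (S r a).card ≤ (2 * (2 * r + 23) + 1) ^ 3 :=
  Finset.card_image_le.trans (card_box _).le

theorem mem_S {r : ℕ} {a x p : P} (hp : InCube r p) (h : x + p ∈ Box r a) : x ∈ S r a := by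
  refine Finset.mem_image.2 ⟨x - a, mem_box.2 fun i => ?_, by abel⟩
  have h1 := hp i
  have h2 := h i
  simp only [Pi.sub_apply, Pi.add_apply] at h2 ⊢
  omega

theorem cube0 (r : ℕ) : InCube r 0 := fun i => by simp

theorem card_le {V W T : Finset P} (h : ∀ y, y ∉ T → y ∈ W → y ∈ V) :
    W.card ≤ (V ∩ W).card + T.card :=
  (Finset.card_le_card fun y hy => by
    by_cases k : y ∈ T
    · exact Finset.mem_union_right _ k
    · exact Finset.mem_union_left _ (Finset.mem_inter.2 ⟨h y k hy, hy⟩)).trans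
    (Finset.card_union_le _ _)

end LOCx

open LOCx

theorem loc : LocStmt := by
  intro α β r γ hγ
  set N := (2 * (2 * r + 23) + 1) ^ 3 with hN
  refine ⟨N + ⌈Real.exp (2 * (kap ⟨α, β, β⟩ * N))⌉₊, fun a w w' hw hw' h => ?_⟩
  have hv : ∀ y, y ∉ Box r a → (y ∈ w' ↔ y ∈ w) := fun y hy =>
    ⟨vert hw hw' (fun e k => (h e k).1) hy, vert hw' hw (fun e k => (h e k).2) hy⟩
  have hS : ∀ y, y ∉ S r a → y ∉ Box r a := fun y hy k =>
    hy (mem_S (cube0 r) (by rwa [add_zero]))
  have hc := card_S r a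
  have c1 : w'.toFinset.card ≤ (w.toFinset ∩ w'.toFinset).card + N :=
    (card_le fun y k hy => List.mem_toFinset.2 ((hv y (hS y k)).1 (List.mem_toFinset.1 hy))).trans
      (Nat.add_le_add_left hc _)
  have c2 : w.toFinset.card ≤ (w.toFinset ∩ w'.toFinset).card + N := by
    rw [Finset.inter_comm]
    exact (card_le fun y k hy =>
      List.mem_toFinset.2 ((hv y (hS y k)).2 (List.mem_toFinset.1 hy))).trans
      (Nat.add_le_add_left hc _)
  have c3 := Finset.card_le_card (Finset.inter_subset_left (s₁ := w.toFinset) (s₂ := w'.toFinset))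
  have c4 := Finset.card_le_card (Finset.inter_subset_right (s₁ := w.toFinset) (s₂ := w'.toFinset))
  have l1 := List.toFinset_card_of_nodup hw.2.1
  have l2 := List.toFinset_card_of_nodup hw'.2.1
  refine ⟨hv, by omega, by omega, ?_, ?_⟩
  · have p1 := abs_le.1 (phi_near ⟨α, β, β⟩ Finset.inter_subset_right c1)
    have p2 := abs_le.1 (phi_near ⟨α, β, β⟩ Finset.inter_subset_left c2)
    rw [ce, ce, POLY.wt_eq conv α β β hw.1 hw.2.1 hw.2.2,
      POLY.wt_eq conv α β β hw'.1 hw'.2.1 hw'.2.2, sub_self, zero_mul, zero_mul, Real.exp_zero,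
      one_mul, one_mul, ew, ew]
    refine le_trans ?_ (mul_le_mul_of_nonneg_right
      (show Real.exp (2 * (kap ⟨α, β, β⟩ * N)) ≤ _ from ?_) (Real.exp_pos _).le)
    · rw [← Real.exp_add, Real.exp_le_exp]
      linarith [p1.1, p2.2]
    · push_cast
      exact (Nat.le_ceil _).trans (le_add_of_nonneg_left (Nat.cast_nonneg _))
  · refine le_trans ?_ (Nat.add_le_add_left (hc.trans (Nat.le_add_right _ _)) _)
    refine (Finset.card_le_card fun x hx => ?_).trans (Finset.card_union_le _ _)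
    by_cases k : x ∈ S r a
    · exact Finset.mem_union_right _ k
    obtain ⟨h1, h2, h3⟩ := Finset.mem_filter.1 hx
    have hV : ∀ y, y ∉ Box r a → (y ∈ verts (ce w') ↔ y ∈ verts (ce w)) := fun y hy => by
      rw [ce, ce, CONV.verts_eq hw.1, CONV.verts_eq hw'.1, List.mem_toFinset, List.mem_toFinset,
        hv y hy]
    refine Finset.mem_union_left _ (Finset.mem_filter.2 ⟨(hV x (hS x k)).1 h1,
      fun p hp => (hV _ fun j => k (mem_S hp j)).symm.trans (h2 p hp),
      fun e he => (h e fun j => ?_).1 (h3 he)⟩)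
    obtain ⟨p, hp, e1⟩ := List.mem_map.1 (CONV.mem_of_edge (Sym2.out_fst_mem e) he)
    exact k (mem_S (hγ.2.2.2.2.2 p hp) (e1 ▸ j _ (Sym2.out_fst_mem e)))

end Pool.Agent.MP_7b45f6_mp.H97
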