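import Pool.Agent.MP_7b45f6_mp.H97.Spec

/-!
# Modification of a polygon near almost every vertex
-/

set_option autoImplicit false

namespace Pool.Agent.MP_7b45f6_mp.H97

open Classical Pool.Agent.MP_7b45f6_mp.H32

namespace MODx

theorem small {V : Finset P} (hV : ∀ p ∈ V, ∀ i, 0 ≤ p i) :
    (V.filter fun p => ¬ 5 ≤ ∑ i, p i).card ≤ 729 := by
  refine (Finset.card_le_card (t := box 4) fun p hp => ?_).trans (by rw [card_box]; norm_num)
  obtain ⟨h1, h2⟩ := Finset.mem_filter.1 hp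
  rw [Fin.sum_univ_three] at h2
  have h3 := hV p h1 0
  have h4 := hV p h1 1
  have h5 := hV p h1 2
  refine mem_box.2 fun i => ?_
  fin_cases i <;> simp only [Fin.zero_eta, Fin.mk_one, Fin.reduceFinMk] <;> omega

theorem near (r : ℕ) {V : Finset P} (hV : ∀ p ∈ V, ∀ i, 0 ≤ p i) (y : P) :
    (V.filter fun p => y ∈ Box r (anc p)).card ≤ (2 * (r + 23) + 1) ^ 3 := by
  rw [← card_box]
  refine Finset.card_le_card_of_injOn (fun p => y - p) (fun p hp => ?_)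
    fun p _ q _ h => sub_right_injective h
  obtain ⟨h1, h2⟩ := Finset.mem_filter.1 (Finset.mem_coe.1 hp)
  refine Finset.mem_coe.2 (mem_box.2 fun i => ?_)
  have h3 := hV p h1 i
  have h4 := h2 i
  simp only [anc, Pi.sub_apply] at h4 ⊢
  omega

theorem edge {p y : P} (hp : ∀ i, 0 ≤ p i) (hy : ∀ i, 0 ≤ y i) (h5 : 5 ≤ ∑ i, p i)
    (h : d1 p y ≤ 1) : InCube 7 (y - anc p) ∧ 4 ≤ ∑ i, (y - anc p) i := by
  refine ⟨fun i => ?_, ?_⟩
  · have h1 := coord_le_d1 p y i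
    have h2 := hp i
    have h3 := hy i
    simp only [anc, Pi.sub_apply]
    omega
  · rw [d1_eq] at h
    rw [Fin.sum_univ_three] at h5 ⊢
    have h1 := hy 0
    have h2 := hy 1
    have h3 := hy 2
    simp only [anc, Pi.sub_apply]
    omega

end MODx

open MODx in
theorem mod_of (h1 : ClearStmt) (h2 : LocStmt) : ModStmt := by
  intro α β r γ hγ
  obtain ⟨C, hC⟩ := h2 α β r γ hγ
  refine ⟨C + (729 + 4 * (2 * (r + 23) + 1) ^ 3), ?_⟩
  rintro n E ⟨⟨w, rfl, h3, hn, hc, rfl⟩, h0, ⟨a, ha, ha0⟩, ⟨b, hb, hb0⟩, hv⟩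
  have hw : Cyc w := ⟨h3, hn, hc⟩
  obtain ⟨c, hc1, d, hd1, hcd⟩ := Finset.one_lt_card.1 hv
  obtain ⟨hc2, hc3⟩ := Finset.mem_filter.1 hc1
  obtain ⟨hd2, hd3⟩ := Finset.mem_filter.1 hd1
  obtain ⟨V, hV⟩ : ∃ V, V = verts (edges (w ++ w.take 1)) := ⟨_, rfl⟩
  have hVw : ∀ y, y ∈ V ↔ y ∈ w := fun y => by rw [hV, CONV.verts_eq h3, List.mem_toFinset]
  have hVc : V.card = w.length := by
    rw [hV, CONV.verts_eq h3, List.toFinset_card_of_nodup hn]
  rw [← hV] at h0 ha hb hc2 hd2 ⊢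
  refine ⟨V.filter fun p => 5 ≤ ∑ i, p i ∧ a ∉ Box r (anc p) ∧ b ∉ Box r (anc p) ∧
    c ∉ Box r (anc p) ∧ d ∉ Box r (anc p), Finset.filter_subset _ _, ?_, fun p hp => ?_⟩
  · have e1 : V ⊆ (V.filter fun p => 5 ≤ ∑ i, p i ∧ a ∉ Box r (anc p) ∧ b ∉ Box r (anc p) ∧
        c ∉ Box r (anc p) ∧ d ∉ Box r (anc p)) ∪ ((V.filter fun p => ¬ 5 ≤ ∑ i, p i) ∪
        ((V.filter fun p => a ∈ Box r (anc p)) ∪ ((V.filter fun p => b ∈ Box r (anc p)) ∪
        ((V.filter fun p => c ∈ Box r (anc p)) ∪ V.filter fun p => d ∈ Box r (anc p))))) := by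
      intro p hp
      simp only [Finset.mem_union, Finset.mem_filter, hp, true_and]
      by_contra h
      simp only [not_or, not_not] at h
      exact h.1 h.2
    have e2 := (Finset.card_le_card e1).trans ((Finset.card_union_le _ _).trans
      (Nat.add_le_add_left ((Finset.card_union_le _ _).trans (Nat.add_le_add (small h0)
      ((Finset.card_union_le _ _).trans (Nat.add_le_add (near r h0 a)
      ((Finset.card_union_le _ _).trans (Nat.add_le_add (near r h0 b)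
      ((Finset.card_union_le _ _).trans (Nat.add_le_add (near r h0 c) (near r h0 d))))))))) _))
    omega
  obtain ⟨p1, p2, pa, pb, pc, pd⟩ := Finset.mem_filter.1 hp
  obtain ⟨e, he, hpe⟩ := Finset.mem_biUnion.1 (hV ▸ p1 : p ∈ verts (edges (w ++ w.take 1)))
  rw [Sym2.mem_toFinset] at hpe
  obtain ⟨w', hw', k1, k2⟩ := h1 r γ hγ (anc p) w hw ⟨e, he, fun y hy => by
    refine edge (h0 p p1) (h0 y ?_) p2 ?_
    · rw [hV]
      exact Finset.mem_biUnion.2 ⟨e, he, Sym2.mem_toFinset.2 hy⟩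
    · obtain ⟨u, v, rfl, huv⟩ := CONV.adj_of_edge hc he
      rcases Sym2.mem_iff.1 hpe with rfl | rfl <;> rcases Sym2.mem_iff.1 hy with rfl | rfl
      · simp
      · exact le_of_eq huv
      · exact le_of_eq huv.symm
      · simp⟩ ⟨a, (hVw a).1 ha, pa⟩
  obtain ⟨l1, l2, l3, l4, l5⟩ := hC (anc p) w w' hw hw' k1
  have hV' : ∀ y, y ∈ verts (ce w') ↔ y ∈ w' := fun y => by
    rw [ce, CONV.verts_eq hw'.1, List.mem_toFinset]
  have keep : ∀ y ∈ V, y ∉ Box r (anc p) → y ∈ verts (ce w') := fun y hy hy' =>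
    (hV' y).2 ((l1 y hy').2 ((hVw y).1 hy))
  refine ⟨w'.length, ce w', ⟨⟨w', rfl, hw'.1, hw'.2.1, hw'.2.2, rfl⟩, fun y hy i => ?_,
    ⟨a, keep a ha pa, ha0⟩, ⟨b, keep b hb pb, hb0⟩, Finset.one_lt_card.2
      ⟨c, Finset.mem_filter.2 ⟨keep c hc2 pc, hc3⟩, d, Finset.mem_filter.2 ⟨keep d hd2 pd, hd3⟩,
        hcd⟩⟩, by omega, by omega, l4.trans ?_, l5.trans (Nat.add_le_add_left (by omega) _), k2,
    k1⟩
  · by_cases hy' : y ∈ Box r (anc p)
    · have := (hy' i).1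
      simp only [anc, Pi.sub_apply] at this
      omega
    · exact h0 y ((hVw y).2 ((l1 y hy').1 ((hV' y).1 hy))) i
  · exact mul_le_mul_of_nonneg_right (Nat.cast_le.2 (by omega)) (Real.exp_pos _).le

end Pool.Agent.MP_7b45f6_mp.H97
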