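import Pool.Agent.MP_7b45f6_mp.H97.Spec

/-!
# The one-step inequality
-/

set_option autoImplicit false

namespace Pool.Agent.MP_7b45f6_mp.H97

open Classical Pool.Agent.MP_7b45f6_mp.H32

namespace ONEx

/-- A finite set of sites that contains the box. -/
noncomputable def bb (r : ℕ) (x : P) : Finset P := (box (r + 23)).image (· + (x - o5))

theorem card_bb (r : ℕ) (x : P) : (bb r x).card = (box (r + 23)).card :=
  Finset.card_image_of_injective _ (add_left_injective _)

theorem mem_bb {r : ℕ} {a y : P} (h : y ∈ Box r a) : y ∈ bb r (a + o5) :=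
  Finset.mem_image.2 ⟨y - a, mem_box.2 fun i => by
    have := h i
    push_cast at this
    omega, by simp⟩

theorem sum_fib {A B : Type} [DecidableEq B] (T : Finset A) (U : Finset B) (f : A → B) (g : B → ℝ)
    (M : ℝ) (h : ∀ t ∈ T, f t ∈ U) (g0 : ∀ u, 0 ≤ g u)
    (hM : ∀ u ∈ U, ((T.filter fun t => f t = u).card : ℝ) ≤ M) :
    ∑ t ∈ T, g (f t) ≤ M * ∑ u ∈ U, g u := by
  rw [← Finset.sum_fiberwise_of_maps_to h, Finset.mul_sum]
  refine Finset.sum_le_sum fun u hu => ?_
  rw [Finset.sum_congr rfl fun t ht => congrArg g (Finset.mem_filter.1 ht).2, Finset.sum_const,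
    nsmul_eq_mul]
  exact mul_le_mul_of_nonneg_right (hM u hu) (g0 u)

end ONEx

open ONEx in
theorem one_of (h : ModStmt) : OneStmt := by
  intro α β r γ hγ
  obtain ⟨C0, h⟩ := h α β r γ hγ
  obtain ⟨M, hM⟩ : ∃ M : ℕ, ∀ x, (bb r x ×ˢ (bb r x).sym2.powerset).card = M :=
    ⟨_, fun x => by rw [Finset.card_product, Finset.card_powerset, Finset.card_sym2, card_bb]⟩
  obtain ⟨C, c1, c2⟩ : ∃ C : ℕ, C0 ≤ C ∧ C0 * M ≤ C := ⟨C0 + C0 * M, by omega, by omega⟩
  refine ⟨C, fun n k => ?_⟩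
  choose! G hG hn N F hF using h n
  have w0 : ∀ E, 0 ≤ POLY.wt α β E := fun _ => (Real.exp_pos _).le
  set S := (PF n).filter (fun E => occ r γ E ≤ k) with hS
  have mS : ∀ E ∈ S, E ∈ Polys n ∧ occ r γ E ≤ k := fun E e =>
    ⟨mem_PF.1 (Finset.mem_filter.1 e).1, (Finset.mem_filter.1 e).2⟩
  have key := sum_fib (S.sigma G) ((Finset.Icc (n - C) (n + C)).sigma fun n' =>
      (PF n').filter fun E => occ r γ E ≤ k + C) (fun t => ⟨N t.1 t.2, F t.1 t.2⟩)
    (fun u => POLY.wt α β u.2) (((k + C) * M : ℕ) : ℝ) (fun t ht => by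
      obtain ⟨t1, t2⟩ := Finset.mem_sigma.1 ht
      obtain ⟨a, b, c, -, d, -⟩ := hF _ (mS _ t1).1 _ t2
      have := (mS _ t1).2
      exact Finset.mem_sigma.2 ⟨Finset.mem_Icc.2 ⟨by dsimp only; omega, by dsimp only; omega⟩,
        Finset.mem_filter.2 ⟨mem_PF.2 a, by dsimp only; omega⟩⟩) (fun _ => w0 _) fun u hu => by
      have o : occ r γ u.2 ≤ k + C := (Finset.mem_filter.1 (Finset.mem_sigma.1 hu).2).2
      refine Nat.cast_le.2 (le_trans ?_ ((Finset.card_biUnion_le_card_mul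
        ((verts u.2).filter (Occurs r γ u.2)) _ M fun x _ => (hM x).le).trans
          (Nat.mul_le_mul_right M o)))
      have m : ∀ t, t ∈ S.sigma G ∧ (⟨N t.1 t.2, F t.1 t.2⟩ : Σ _ : ℕ, _) = u →
          (∀ i, 0 ≤ t.2 i) ∧ Occurs r γ u.2 (anc t.2 + o5) ∧
            ∀ e, ¬Ins (Box r (anc t.2)) e → (e ∈ u.2 ↔ e ∈ t.1) := fun t ht => by
        obtain ⟨t1, t2⟩ := Finset.mem_sigma.1 ht.1
        rw [← ht.2]
        exact ⟨(mS _ t1).1.2.1 _ (hG _ (mS _ t1).1 t2), (hF _ (mS _ t1).1 _ t2).2.2.2.2.2⟩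
      refine Finset.card_le_card_of_injOn
        (fun t => (t.2, t.1.filter (Ins (Box r (anc t.2))))) (fun t ht => ?_) fun t ht t' ht' e => ?_
      · rw [Finset.mem_coe, Finset.mem_filter] at ht
        obtain ⟨a, b, -⟩ := m t ht
        refine Finset.mem_biUnion.2 ⟨anc t.2 + o5, Finset.mem_filter.2 ⟨?_, b⟩,
          Finset.mem_product.2 ⟨mem_bb fun i => ?_, Finset.mem_powerset.2 fun e he =>
            Finset.mem_sym2_iff.2 fun y hy => mem_bb ((Finset.mem_filter.1 he).2 y hy)⟩⟩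
        · simpa using (b.1 0 fun i => by simp).2 (List.mem_of_mem_head? hγ.2.2.2.1)
        · have := a i
          simp only [Pi.sub_apply, anc]
          push_cast
          omega
      · rw [Finset.mem_coe, Finset.mem_filter] at ht ht'
        obtain ⟨E, p⟩ := t
        obtain ⟨E', p'⟩ := t'
        obtain ⟨rfl, e⟩ : p = p' ∧ _ := Prod.ext_iff.1 e
        obtain rfl : E = E' := Finset.ext fun x => by
          by_cases i : Ins (Box r (anc p)) x
          · simpa [i] using Finset.ext_iff.1 e x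
          · exact ((m _ ht).2.2 x i).symm.trans ((m _ ht').2.2 x i)
        rfl
  rw [Finset.sum_sigma, Finset.sum_sigma] at key
  have s0 : 0 ≤ ∑ n' ∈ Finset.Icc (n - C) (n + C), AA α β r γ n' (k + C) :=
    Finset.sum_nonneg fun _ _ => Finset.sum_nonneg fun _ _ => w0 _
  calc ((n : ℝ) - C) * AA α β r γ n k
      ≤ C0 * ∑ E ∈ S, ∑ p ∈ G E, POLY.wt α β (F E p) := by
        rw [AA, Finset.mul_sum, Finset.mul_sum]
        refine Finset.sum_le_sum fun E e => ?_
        have a : (n : ℝ) ≤ (G E).card + C := Nat.cast_le.2 ((hn E (mS E e).1).trans (by omega))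
          |>.trans (Nat.cast_add _ _).le
        rw [Finset.mul_sum]
        refine le_trans ?_ (Finset.card_nsmul_le_sum _ _ _ fun p hp =>
          (hF E (mS E e).1 p hp).2.2.2.1)
        rw [nsmul_eq_mul]
        exact mul_le_mul_of_nonneg_right (by linarith) (w0 E)
    _ ≤ C0 * ((((k + C) * M : ℕ) : ℝ) *
          ∑ n' ∈ Finset.Icc (n - C) (n + C), AA α β r γ n' (k + C)) :=
        mul_le_mul_of_nonneg_left key (Nat.cast_nonneg _)
    _ ≤ _ := by
        rw [← mul_assoc]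
        refine mul_le_mul_of_nonneg_right ?_ s0
        have : C0 * ((k + C) * M) ≤ C * (k + C) := by nlinarith
        exact_mod_cast this

end Pool.Agent.MP_7b45f6_mp.H97
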