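import Pool.Agent.MP_7b45f6_mp.H97.Spec

/-!
# Processing one cell of a funnel
-/

set_option autoImplicit false

namespace Pool.Agent.MP_7b45f6_mp.H97

open Classical Pool.Agent.MP_7b45f6_mp.H32

namespace STEPx

theorem edges_append {e : Sym2 P} {v : List P} (hv : v ≠ []) : ∀ {u : List P}, u ≠ [] →
    (e ∈ edges (u ++ v) ↔ e ∈ edges u ∨ e = s(lt u, hd v) ∨ e ∈ edges v)
  | [], h => absurd rfl h
  | [a], _ => by
    obtain ⟨b, l, rfl⟩ := List.exists_cons_of_ne_nil hv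
    simp [CONV.edges_cons, CONV.edges_one]
  | a :: b :: l, _ => by
    have := edges_append (e := e) hv (u := b :: l) (by simp)
    rw [List.cons_append] at this
    rw [List.cons_append, List.cons_append, CONV.edges_cons, CONV.edges_cons, Finset.mem_insert,
      Finset.mem_insert, this, lt_cons_cons, or_assoc]

theorem edges_reverse {e : Sym2 P} : ∀ {v : List P}, e ∈ edges v.reverse ↔ e ∈ edges v
  | [] => Iff.rfl
  | [_] => Iff.rfl
  | a :: b :: l => by
    rw [List.reverse_cons, edges_append (by simp) (by simp), edges_reverse (v := b :: l),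
      lt_reverse, CONV.edges_cons, Finset.mem_insert, CONV.edges_one, hd_cons, hd_cons,
      Sym2.eq_swap]
    simp only [Finset.notMem_empty, or_false]
    exact or_comm

theorem ne_nil {v : List P} (h : 2 ≤ v.length) : v ≠ [] := by
  rintro rfl
  simp at h

theorem hd_ne_lt {v : List P} (h : 2 ≤ v.length) (hn : v.Nodup) : hd v ≠ lt v := by
  match v, h with
  | a :: b :: l, _ =>
    rw [hd_cons, lt_cons_cons]
    exact fun e => (List.nodup_cons.1 hn).1 (e ▸ lt_mem (by simp))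

theorem has_edge {v : List P} {t : P} (h : 2 ≤ v.length) (ht : t ∈ v) :
    ∃ a, s(a, t) ∈ edges v := by
  match v, h with
  | a :: b :: l, _ =>
    obtain ⟨e, he, h1⟩ := CONV.cover l a b ht
    obtain ⟨x, rfl⟩ := Sym2.mem_iff_exists.1 h1
    exact ⟨x, Sym2.eq_swap ▸ he⟩

theorem inner {v : List P} {t : P} (hn : v.Nodup) (ht : t ∈ v) (h1 : t ≠ hd v) (h2 : t ≠ lt v) :
    ∃ a b, a ≠ b ∧ s(a, t) ∈ edges v ∧ s(b, t) ∈ edges v := by
  obtain ⟨l, m, rfl⟩ := List.append_of_mem ht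
  have hl : l ≠ [] := by
    rintro rfl
    exact h1 rfl
  cases m with
  | nil => exact absurd (lt_concat l t).symm h2
  | cons b m =>
    refine ⟨lt l, b, fun e => ?_, ?_, ?_⟩
    · exact (List.nodup_append.1 hn).2.2 _ (lt_mem hl) b (by simp) e
    · exact (edges_append (by simp) hl).2 (Or.inr (Or.inl rfl))
    · refine (edges_append (by simp) hl).2 (Or.inr (Or.inr ?_))
      rw [CONV.edges_cons, Sym2.eq_swap]
      exact Finset.mem_insert_self _ _

variable {B D : Set P} {T : P → P → Prop} {K : Finset (Sym2 P)} {X : Set P}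

theorem perm {L L' : List (List P)} (h : L.Perm L') (S : St B D T K X L) : St B D T K X L' where
  ne := fun e => S.ne (List.perm_nil.1 (e ▸ h))
  nd := h.flatten.nodup_iff.1 S.nd
  ch := fun v hv => S.ch v (h.mem_iff.2 hv)
  en := fun v hv => S.en v (h.mem_iff.2 hv)
  ed := fun e he => by simpa only [h.mem_iff] using S.ed e he
  ins := fun v hv => S.ins v (h.mem_iff.2 hv)
  vd := fun v hv => S.vd v (h.mem_iff.2 hv)

theorem rev {v : List P} {L : List (List P)} (S : St B D T K X (v :: L)) :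
    St B D T K X (v.reverse :: L) where
  ne := List.cons_ne_nil _ _
  nd := ((List.reverse_perm v).append_right L.flatten).nodup_iff.2 S.nd
  ch := List.forall_mem_cons.2 ⟨⟨List.isChain_reverse.2
    ((S.ch v List.mem_cons_self).1.imp fun _ _ h => h.symm), by
      rw [List.length_reverse]; exact (S.ch v List.mem_cons_self).2⟩,
    fun w hw => S.ch w (List.mem_cons_of_mem _ hw)⟩
  en := List.forall_mem_cons.2 ⟨by
    rw [hd_reverse, lt_reverse]; exact (S.en v List.mem_cons_self).symm,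
    fun w hw => S.en w (List.mem_cons_of_mem _ hw)⟩
  ed := fun e he => by
    simpa only [List.exists_mem_cons_iff, edges_reverse] using S.ed e he
  ins := List.forall_mem_cons.2 ⟨fun e he => S.ins v List.mem_cons_self e (edges_reverse.1 he),
    fun w hw => S.ins w (List.mem_cons_of_mem _ hw)⟩
  vd := List.forall_mem_cons.2 ⟨fun x hx => S.vd v List.mem_cons_self x (List.mem_reverse.1 hx),
    fun w hw => S.vd w (List.mem_cons_of_mem _ hw)⟩

/-- an end of an arc can be moved to the last place of the first arc -/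
theorem front {L : List (List P)} (S : St B D T K X L) {v : List P} {c : P} (hv : v ∈ L)
    (h : hd v = c ∨ lt v = c) : ∃ u, St B D T K X (u :: L.erase v) ∧ lt u = c ∧ u.Perm v := by
  have S1 := perm (List.perm_cons_erase hv) S
  rcases h with h | h
  · exact ⟨v.reverse, rev S1, (lt_reverse v).trans h, List.reverse_perm v⟩
  · exact ⟨v, S1, h, List.Perm.refl v⟩

theorem nbr {L : List (List P)} (S : St B D T K X L) {w : List P} (hw : w ∈ L) {a t : P}
    (he : s(a, t) ∈ edges w) (hB : t ∈ B) (hX : t ∉ X) :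
    Adj a t ∧ a ∉ B ∨ a ∈ X ∧ T a t := by
  by_cases ha : a ∈ B
  · obtain ⟨c, t', e, h1, h2⟩ := S.ins w hw _ he fun y hy => by
      rcases Sym2.mem_iff.1 hy with rfl | rfl <;> assumption
    rcases Sym2.eq_iff.1 e with ⟨rfl, rfl⟩ | ⟨rfl, rfl⟩
    · exact Or.inr ⟨h1, h2⟩
    · exact absurd h1 hX
  · obtain ⟨x, y, e, h⟩ := CONV.adj_of_edge (S.ch w hw).1 he
    rcases Sym2.eq_iff.1 e with ⟨rfl, rfl⟩ | ⟨rfl, rfl⟩
    · exact Or.inl ⟨h, ha⟩
    · exact Or.inl ⟨h.symm, ha⟩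

theorem join {v u : List P} {L R : List (List P)} (S : St B D T K X (v :: L))
    (hT : T (lt v) (hd u)) (hA : Adj (lt v) (hd u)) (hI : Ins B s(lt v, hd u)) (hu : u ≠ [])
    (hc : u.IsChain Adj) (hl : lt u ∈ D ∧ lt u ∉ X) (nd : (v ++ u ++ R.flatten).Nodup)
    (hR : ∀ w ∈ R, w ∈ L) (he : ∀ e, (e ∈ edges u ∨ ∃ w ∈ R, e ∈ edges w) ↔ ∃ w ∈ L, e ∈ edges w)
    (hd' : ∀ x ∈ u, x ∈ B → x ∈ D) : St B D T K (insert (lt v) X) ((v ++ u) :: R) := by
  have hv := S.ch v List.mem_cons_self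
  have hv0 := ne_nil hv.2
  have hm : ∀ w ∈ R, w ∈ v :: L := fun w hw => List.mem_cons_of_mem _ (hR w hw)
  have n1 := List.nodup_append.1 nd
  have n2 := List.nodup_append.1 n1.1
  have n3 : ∀ w ∈ R, ∀ x ∈ w, x ≠ lt v := fun w hw x hx e =>
    n1.2.2 _ (List.mem_append_left _ (lt_mem hv0)) x (List.mem_flatten.2 ⟨w, hw, hx⟩) e.symm
  have up : ∀ w ∈ v :: L, ∀ e ∈ edges w, Ins B e →
      ∃ c t, e = s(c, t) ∧ c ∈ insert (lt v) X ∧ T c t := fun w hw e h1 h2 =>
    let ⟨c, t, h3, h4, h5⟩ := S.ins w hw e h1 h2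
    ⟨c, t, h3, Set.mem_insert_of_mem _ h4, h5⟩
  refine ⟨List.cons_ne_nil _ _, nd, List.forall_mem_cons.2 ⟨⟨?_, ?_⟩, fun w hw => S.ch w (hm w hw)⟩,
    List.forall_mem_cons.2 ⟨?_, fun w hw => ?_⟩, fun e h => ?_,
    List.forall_mem_cons.2 ⟨fun e h1 h2 => ?_, fun w hw => up w (hm w hw)⟩,
    List.forall_mem_cons.2 ⟨fun x hx => ?_, fun w hw => S.vd w (hm w hw)⟩⟩
  · rw [← jn_eq_zero, jn, cs_append _ hv0 hu, jmp_adj hA]
    exact (congrArg₂ (fun a b => a + 0 + b) (jn_eq_zero.2 hv.1) (jn_eq_zero.2 hc)).trans rfl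
  · rw [List.length_append]
    omega
  · rw [hd_append hv0, lt_append _ hu]
    have h := S.en v List.mem_cons_self
    exact ⟨⟨h.1.1, fun e => e.elim (hd_ne_lt hv.2 n2.1) h.1.2⟩, hl.1,
      fun e => e.elim (fun e => n2.2.2 _ (lt_mem hv0) _ (lt_mem hu) e.symm) hl.2⟩
  · have h := S.en w (hm w hw)
    have h0 := ne_nil (S.ch w (hm w hw)).2
    exact ⟨⟨h.1.1, fun e => e.elim (n3 w hw _ (hd_mem h0)) h.1.2⟩, h.2.1,
      fun e => e.elim (n3 w hw _ (lt_mem h0)) h.2.2⟩
  · have h1 : e ≠ s(lt v, hd u) := fun e' => h (e' ▸ hI)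
    rw [← S.ed e h, List.exists_mem_cons_iff, List.exists_mem_cons_iff, edges_append hu hv0, ← he]
    tauto
  · rcases (edges_append hu hv0).1 h1 with h | h | h
    · exact up v List.mem_cons_self e h h2
    · exact ⟨_, _, h, Set.mem_insert _ _, hT⟩
    · obtain ⟨w, hw, h3⟩ := (he e).1 (Or.inl h)
      exact up w (List.mem_cons_of_mem _ hw) e h3 h2
  · exact (List.mem_append.1 hx).elim (S.vd v List.mem_cons_self x) (hd' x)

end STEPx

open STEPx in
theorem step : StepStmt := by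
  intro B D p q T τ K X L c F S hD hX hp hq hτ
  by_cases hE : ∃ v ∈ L, hd v = c ∨ lt v = c
  swap
  · refine ⟨L, S.ne, S.nd, S.ch, fun v hv => ?_, S.ed, fun v hv e h1 h2 => ?_, S.vd⟩
    · have h := S.en v hv
      exact ⟨⟨h.1.1, fun e => e.elim (fun e => hE ⟨v, hv, Or.inl e⟩) h.1.2⟩, h.2.1,
        fun e => e.elim (fun e => hE ⟨v, hv, Or.inr e⟩) h.2.2⟩
    · obtain ⟨a, t, h3, h4, h5⟩ := S.ins v hv e h1 h2
      exact ⟨a, t, h3, Set.mem_insert_of_mem _ h4, h5⟩
  obtain ⟨v0, hv0, h0⟩ := hE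
  obtain ⟨v, S1, rfl, -⟩ := front S hv0 h0
  generalize L.erase v0 = L0 at S1
  clear S hv0 h0
  have hv := S1.ch v List.mem_cons_self
  have tX : ∀ t, T (lt v) t → t ∉ X := fun t ht h =>
    absurd ((F.tgt _ t ht).2.2.2.2.2 (hτ t h).1 (hτ t h).2.1) (not_lt.2 (hτ t h).2.2)
  have nb : ∀ t, T (lt v) t → ∀ w ∈ v :: L0, ∀ a, s(a, t) ∈ edges w →
      a ≠ lt v ∧ (Adj a t ∧ a ∉ B ∨ a ∈ X ∧ T a t) := fun t ht w hw a he => by
    have h := nbr S1 hw he (F.sub (F.tgt _ t ht).2.2.2.1) (tX t ht)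
    refine ⟨?_, h⟩
    rintro rfl
    exact h.elim (fun h => h.2 (F.sub hD)) fun h => hX h.1
  obtain ⟨t, ht, hne⟩ : ∃ t, T (lt v) t ∧ t ≠ hd v := by
    rcases F.out _ hD hp hq with ⟨t, t', h, h1, h2⟩ | ⟨t, h1, h2⟩
    · by_cases e : t = hd v
      · exact ⟨t', h2, fun e' => h (e.trans e'.symm)⟩
      · exact ⟨t, h1, e⟩
    · refine ⟨t, h1, fun e => ?_⟩
      obtain ⟨a, ha⟩ := has_edge hv.2 (e ▸ hd_mem (ne_nil hv.2) : t ∈ v)
      obtain ⟨h3, h4 | h4⟩ := nb t h1 v List.mem_cons_self a ha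
      · exact h4.2 ((h2 a h3).1 h4.1)
      · exact absurd ((h2 a h3).2 h4.2) (not_lt.2 (hτ a h4.1).2.2)
  have hF := F.tgt _ t ht
  have hA : Adj (lt v) t := hF.2.2.2.2.1
  have hI : Ins B s(lt v, t) := fun y hy => by
    rcases Sym2.mem_iff.1 hy with rfl | rfl
    exacts [F.sub hD, F.sub hF.2.2.2.1]
  have en : ∀ w ∈ v :: L0, t ∈ w → hd w = t ∨ lt w = t := fun w hw h => by
    by_contra hn
    obtain ⟨a, b, hab, ha, hb⟩ := STEPx.inner (S1.nd.sublist (List.sublist_flatten_of_mem hw)) h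
      (fun e => hn (Or.inl e.symm)) fun e => hn (Or.inr e.symm)
    obtain ⟨a1, a2⟩ := nb t ht w hw a ha
    obtain ⟨b1, b2⟩ := nb t ht w hw b hb
    exact F.deg _ t a b ht hab a1 b1 (a2.imp_right And.right) (b2.imp_right And.right)
  have tv : t ∉ v := fun h => (en v List.mem_cons_self h).elim (fun e => hne e.symm) hA.ne
  by_cases hU : ∃ u ∈ L0, t ∈ u
  · obtain ⟨u0, hu0, h⟩ := hU
    have S2 := perm ((List.perm_cons_erase hu0).cons v |>.trans (List.Perm.swap _ _ _)) S1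
    obtain ⟨u, S3, e⟩ : ∃ u, St B D T K X (u :: v :: L0.erase u0) ∧ hd u = t := by
      rcases en u0 (List.mem_cons_of_mem _ hu0) h with e | e
      · exact ⟨u0, S2, e⟩
      · exact ⟨u0.reverse, rev S2, (hd_reverse u0).trans e⟩
    subst e
    have S4 := perm (List.Perm.swap _ _ _) S3
    have hu := S3.ch u List.mem_cons_self
    refine ⟨_, join S4 ht hA hI (ne_nil hu.2) hu.1 (S3.en u List.mem_cons_self).2 ?_
      (fun w hw => List.mem_cons_of_mem _ hw) (fun e => ?_) (S3.vd u List.mem_cons_self)⟩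
    · rw [List.append_assoc]
      exact S4.nd
    · rw [List.exists_mem_cons_iff]
  · refine ⟨_, join (u := [t]) S1 ht hA hI (by simp) (List.isChain_singleton t)
      ⟨hF.2.2.2.1, tX t ht⟩ ?_ (fun w hw => hw) (fun e => ?_) fun x hx _ => ?_⟩
    · rw [List.append_assoc, List.singleton_append, List.nodup_middle, List.nodup_cons]
      refine ⟨fun h => (List.mem_append.1 h).elim tv fun h => hU (List.mem_flatten.1 h), S1.nd⟩
    · simp [CONV.edges_one]
    · rw [List.mem_singleton.1 hx]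
      exact hF.2.2.2.1

end Pool.Agent.MP_7b45f6_mp.H97
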