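import Pool.Agent.MP_7b45f6_mp.H97.Spec
import Pool.Agent.MP_7b45f6_mp.H97.Chk

/-!
# Row TAB: the funnel
-/

set_option autoImplicit false

namespace Pool.Agent.MP_7b45f6_mp.H97

open Classical Pool.Agent.MP_7b45f6_mp.H32 Tb

namespace TABx

/-- The class of a coordinate. -/
def ka (s : ℕ) (t : ℤ) : ℕ :=
  if t < 0 then 0 else if t < 6 then (t + 1).toNat else if t < 6 + s then 7 else
    if t ≤ 24 + s then (t - s + 2).toNat else 27

/-- Consecutive classes. -/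
def Nx (a b : ℕ) : Prop :=
  b = a + 1 ∧ a < 27 ∨ a = b ∧ (a = 0 ∨ a = 7 ∨ a = 27) ∨ a = 6 ∧ b = 8

theorem nx_ka (s : ℕ) (t : ℤ) : Nx (ka s t) (ka s (t + 1)) := by
  unfold Nx ka
  split_ifs <;> omega

theorem mem_W {a b c : ℕ} (h : Nx a b) (h' : Nx b c) : (a, b, c) ∈ W := by
  have h1 : a ≤ 27 := by unfold Nx at h; omega
  unfold Nx at h h'
  interval_cases a <;>
    (rcases h with ⟨rfl, -⟩ | ⟨rfl, h⟩ | ⟨h, rfl⟩ <;>
      rcases h' with ⟨rfl, h'⟩ | ⟨rfl, h'⟩ | ⟨h', rfl⟩ <;> first | omega | decide)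

/-- The window of a coordinate. -/
def wi (s : ℕ) (t : ℤ) : ℕ × ℕ × ℕ := (ka s (t - 1), ka s t, ka s (t + 1))

theorem wi_mem (s : ℕ) (t : ℤ) : wi s t ∈ W :=
  mem_W (by simpa using nx_ka s (t - 1)) (nx_ka s t)

/-- The label of a site. -/
def lab (s : ℕ) (c : P) : ℕ := lb (ka s (c 0)) (ka s (c 1)) (ka s (c 2))

/-- The six directions. -/
def dv (d : ℕ) : P :=
  [![1, 0, 0], ![-1, 0, 0], ![0, 1, 0], ![0, -1, 0], ![0, 0, 1], ![0, 0, -1]].getD d 0

theorem six_iff {d : ℕ} : d ∈ six ↔ d < 6 := by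
  simp only [six, List.mem_cons, List.not_mem_nil, or_false]
  omega

theorem good (s : ℕ) (c : P) : ∃ n : ℕ → ℕ, (∀ d < 6, n d = lab s (c + dv d)) ∧
    loc (lab s c) n = true ∧ cen (ka s (c 0)) (ka s (c 1)) (ka s (c 2)) (lab s c) = true := by
  have h := chk (wi_mem s (c 0)) (wi_mem s (c 1)) (wi_mem s (c 2))
  simp only [win, frc_eq, Bool.and_eq_true] at h
  refine ⟨_, fun d hd => ?_, h.1, h.2⟩
  interval_cases d <;> simp [sel, lab, dv, wi, sub_eq_add_neg]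

theorem adj_dv {c y : P} (h : Adj c y) : ∃ d < 6, y = c + dv d := by
  obtain ⟨i, h⟩ := adj_iff.1 h
  fin_cases i <;> rcases h with rfl | rfl
  exacts [⟨0, by omega, by ext j; fin_cases j <;> simp [dv, ev]⟩,
    ⟨1, by omega, by ext j; fin_cases j <;> simp [dv, ev, sub_eq_add_neg]⟩,
    ⟨2, by omega, by ext j; fin_cases j <;> simp [dv, ev]⟩,
    ⟨3, by omega, by ext j; fin_cases j <;> simp [dv, ev, sub_eq_add_neg]⟩,
    ⟨4, by omega, by ext j; fin_cases j <;> simp [dv, ev]⟩,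
    ⟨5, by omega, by ext j; fin_cases j <;> simp [dv, ev, sub_eq_add_neg]⟩]

theorem dv_adj (c : P) {d : ℕ} (h : d < 6) : Adj c (c + dv d) := by
  interval_cases d <;> simp only [Adj, d1_eq, Pi.add_apply] <;> simp [dv]

theorem dv_inj {d e : ℕ} (h : d < 6) (h' : e < 6) (he : dv d = dv e) : d = e := by
  interval_cases d <;> interval_cases e <;> first | rfl | exact absurd he (by decide)

theorem op_lt {d : ℕ} (h : d < 6) : op d < 6 ∧ op (op d) = d ∧ dv d + dv (op d) = 0 := by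
  interval_cases d <;> decide

/-- The linear part of the time. -/
def li (l : ℕ) (c : P) : ℤ :=
  ((vl l 0 : ℤ) - 1) * c 0 + ((vl l 2 : ℤ) - 1) * c 1 + ((vl l 4 : ℤ) - 1) * c 2

theorem vl_congr {l l' : ℕ} (h : sg l = sg l') (d : ℕ) : vl l d = vl l' d := by
  unfold vl; rw [h]

theorem li_dv (l : ℕ) (c : P) {d : ℕ} (h : d < 6) : li l (c + dv d) = li l c + vl l d - 1 := by
  have h1 : ∀ x : ℕ, x < 8 → ∀ e ∈ [0, 2, 4],
      (if (x / 2 ^ (e / 2) + e) % 2 = 0 then 2 else 0) +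
        (if (x / 2 ^ ((e + 1) / 2) + (e + 1)) % 2 = 0 then 2 else 0) = 2 := by decide
  have h2 : sg l < 8 := Nat.mod_lt _ (by omega)
  have a0 : vl l 0 + vl l 1 = 2 := h1 _ h2 0 (by simp)
  have a2 : vl l 2 + vl l 3 = 2 := h1 _ h2 2 (by simp)
  have a4 : vl l 4 + vl l 5 = 2 := h1 _ h2 4 (by simp)
  zify at a0 a2 a4
  interval_cases d <;> simp [li, dv] <;> linarith

/-- The time of a site. -/
def tau (s : ℕ) (c : P) : ℕ ×ₗ ℤ := toLex (st (lab s c), 2 * li (lab s c) c + bt (lab s c))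

theorem tau_lt {s : ℕ} {x y c : P} {v v' : ℕ} (h : bef (lab s x) v (lab s y) v' = true)
    (hx : li (lab s x) x = li (lab s x) c + v - 1) (hy : li (lab s x) y = li (lab s x) c + v' - 1) :
    tau s x < tau s y := by
  simp only [bef, Bool.or_eq_true, Bool.and_eq_true, decide_eq_true_eq, beq_iff_eq] at h
  rw [tau, tau, Prod.Lex.toLex_lt_toLex]
  rcases h with h | ⟨⟨h1, h2⟩, h3⟩
  · exact Or.inl h
  · refine Or.inr ⟨h1, ?_⟩
    have h4 : li (lab s y) y = li (lab s x) y := by simp only [li, vl_congr h2]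
    simp only [h4, hx, hy]
    omega

/-- Targets. -/
def Tg (s : ℕ) (c t : P) : Prop := ∃ d < 6, c = t + dv d ∧ src (lab s c) d = true

theorem kd_lt (l : ℕ) : kd l < 4 := Nat.mod_lt _ (by omega)

/-- The local check in terms of sites. -/
theorem at_tg {s : ℕ} {t : P} {d : ℕ} (hd : d < 6) (h : src (lab s (t + dv d)) d = true) :
    2 ≤ kd (lab s t) ∧ (kd (lab s t) = 3 → tau s (t + dv d) < tau s t) ∧
    (∀ a < 6, ∀ b < 6, a ≠ d → b ≠ d → b ≠ a →
      (kd (lab s (t + dv a)) = 0 ∨ src (lab s (t + dv a)) a = true) →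
      (kd (lab s (t + dv b)) = 0 ∨ src (lab s (t + dv b)) b = true) → False) ∧
    (db (lab s (t + dv d)) = 7 → ∀ a < 6, a ≠ d → kd (lab s (t + dv a)) ≠ 0 ∧
      (src (lab s (t + dv a)) a = true → tau s (t + dv d) < tau s (t + dv a))) := by
  obtain ⟨n, hn, h1, -⟩ := good s t
  simp only [loc, Bool.and_eq_true, List.all_eq_true, six_iff] at h1
  have h2 := h1.2 d hd
  rw [hn d hd, h] at h2
  simp only [Bool.not_true, Bool.false_or, Bool.and_eq_true, Bool.or_eq_true, List.all_eq_true,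
    six_iff, decide_eq_true_eq, bne_iff_ne, beq_iff_eq, Bool.not_eq_true'] at h2
  obtain ⟨⟨⟨h3, h4⟩, h5⟩, h6⟩ := h2
  refine ⟨h3, fun h7 => ?_, fun a ha b hb h7 h8 h9 h10 h11 => ?_, fun h7 a ha h8 => ?_⟩
  · exact tau_lt (c := t) (h4.resolve_left fun e => e h7) (li_dv _ _ hd) (by simp)
  · rcases h5 a ha with (e | ⟨e, e'⟩) | e
    · exact h7 e
    · rw [hn a ha] at e e'
      rcases h10 with h | h
      · exact e h
      · rw [h] at e'; exact Bool.noConfusion e'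
    · rcases e b hb with (e | e) | ⟨e, e'⟩
      · exact h8 e
      · exact h9 e
      · rw [hn b hb] at e e'
        rcases h11 with h | h
        · exact e h
        · rw [h] at e'; exact Bool.noConfusion e'
  · obtain ⟨e, e'⟩ := ((h6.resolve_left fun e => e h7) a ha).resolve_left h8
    rw [hn a ha] at e e'
    refine ⟨e, fun h9 => tau_lt (c := t) (e'.resolve_left ?_) (li_dv _ _ hd) (li_dv _ _ ha)⟩
    rw [h9]; simp

theorem src_kd {l d : ℕ} (h : src l d = true) : kd l = 3 := by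
  simp only [src, Bool.and_eq_true, beq_iff_eq] at h
  exact h.1

theorem at_cen (s : ℕ) (c : P) :
    (kd (lab s c) = 1 → ∀ y, Adj c y → kd (lab s y) ≠ 0) ∧
    (kd (lab s c) = 3 → da (lab s c) < 6 ∧
      (db (lab s c) = 7 ∨ db (lab s c) < 6 ∧ da (lab s c) ≠ db (lab s c))) ∧
    (kd (lab s c) = 2 → c = ![4, 5, 5] ∨ c = ![7 + (s : ℤ), 6 + s, 6 + s]) ∧
    (kd (lab s c) ≠ 0 → ∀ i, 0 ≤ c i ∧ c i ≤ 24 + s) ∧
    (InCube 7 c → 4 ≤ ∑ i, c i → kd (lab s c) ≠ 0) := by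
  obtain ⟨n, hn, h1, h2⟩ := good s c
  simp only [loc, cen, Bool.and_eq_true, Bool.or_eq_true, List.all_eq_true, six_iff,
    decide_eq_true_eq, bne_iff_ne, beq_iff_eq] at h1 h2
  obtain ⟨⟨h3, h4⟩, -⟩ := h1
  obtain ⟨⟨h5, h6⟩, h7⟩ := h2
  refine ⟨fun h y hy => ?_, fun h => h4.resolve_left fun e => e h, fun h => ?_, fun h i => ?_,
    fun h h' h8 => ?_⟩
  · obtain ⟨d, hd, rfl⟩ := adj_dv hy
    rw [← hn d hd]
    exact h3.resolve_left (fun e => e h) d hd
  · have h9 : ∀ t : ℤ, (ka s t = 5 → t = 4) ∧ (ka s t = 6 → t = 5) ∧ (ka s t = 8 → t = 6 + s) ∧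
        (ka s t = 9 → t = 7 + s) := fun t => by
      unfold ka
      split_ifs <;> refine ⟨fun e => ?_, fun e => ?_, fun e => ?_, fun e => ?_⟩ <;>
        first | omega | exact e.elim
    rcases h5 with (e | ⟨⟨e0, e1⟩, e2⟩) | ⟨⟨e0, e1⟩, e2⟩
    · exact absurd h e
    · exact Or.inl (P.ext' ((h9 _).1 e0) ((h9 _).2.1 e1) ((h9 _).2.1 e2))
    · exact Or.inr (P.ext' ((h9 _).2.2.2 e0) ((h9 _).2.2.1 e1) ((h9 _).2.2.1 e2))
  · have h9 : ∀ t : ℤ, ka s t ≠ 0 → ka s t ≠ 27 → 0 ≤ t ∧ t ≤ 24 + s := fun t => by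
      unfold ka
      split_ifs <;> omega
    obtain ⟨⟨⟨⟨⟨a0, a1⟩, a2⟩, a3⟩, a4⟩, a5⟩ := h6.resolve_left h
    fin_cases i
    exacts [h9 _ a0 a1, h9 _ a2 a3, h9 _ a4 a5]
  · have h9 : ∀ t : ℤ, 0 ≤ t → t ≤ 7 → 1 ≤ ka s t ∧ ka s t ≤ 9 ∧ (t + 1 ≤ ka s t ∨ 7 ≤ ka s t) :=
      fun t => by
        unfold ka
        split_ifs <;> omega
    have a0 := h9 _ (h 0).1 (h 0).2
    have a1 := h9 _ (h 1).1 (h 1).2
    have a2 := h9 _ (h 2).1 (h 2).2
    rw [Fin.sum_univ_three] at h'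
    omega

theorem kd_q (s : ℕ) : kd (lab s ![4, 5, 5]) = 2 := by
  simpa [lab, ka] using ex1

theorem kd_p (s : ℕ) : kd (lab s ![7 + s, 6 + s, 6 + s]) = 2 := by
  have h1 : ka s (7 + s) = 9 := by unfold ka; split_ifs <;> omega
  have h2 : ka s (6 + s) = 8 := by unfold ka; split_ifs <;> omega
  simpa [lab, h1, h2] using ex2

theorem kd_cube (s : ℕ) {y : P} (h : InCube (s + 1) y) : kd (lab s (o5 + y)) = 1 := by
  have h1 : ∀ i, ka s ((o5 + y) i) ∈ [6, 7, 8] := fun i => by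
    have := h i
    have e : (o5 + y) i = 5 + y i := rfl
    simp only [List.mem_cons, List.not_mem_nil, or_false]
    rw [e]
    unfold ka
    split_ifs <;> omega
  have h2 := cube
  simp only [List.all_eq_true, beq_iff_eq] at h2
  exact h2 _ (h1 0) _ (h1 1) _ (h1 2)

theorem tg_of {s : ℕ} {c : P} {e : ℕ} (h : kd (lab s c) = 3) (he : e < 6)
    (h' : da (lab s c) = e ∨ db (lab s c) = e) :
    c = c + dv e + dv (op e) ∧ src (lab s c) (op e) = true := by
  obtain ⟨-, h2, h3⟩ := op_lt he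
  refine ⟨by rw [add_assoc, h3, add_zero], ?_⟩
  simp only [src, h2, Bool.and_eq_true, Bool.or_eq_true, beq_iff_eq]
  exact ⟨h, h'⟩

theorem funnel (s : ℕ) : Funnel {c | kd (lab s c) ≠ 0} {c | 2 ≤ kd (lab s c)}
    ![7 + s, 6 + s, 6 + s] ![4, 5, 5] (Tg s) (tau s) := by
  have nb : ∀ {a t : P}, (Adj a t ∧ a ∉ {c | kd (lab s c) ≠ 0} ∨ Tg s a t) → ∃ d < 6,
      a = t + dv d ∧ (kd (lab s (t + dv d)) = 0 ∨ src (lab s (t + dv d)) d = true) := by
    rintro a t (⟨h, h'⟩ | ⟨d, hd, rfl, h⟩)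
    · obtain ⟨d, hd, rfl⟩ := adj_dv h.symm
      exact ⟨d, hd, rfl, Or.inl (not_not.1 h')⟩
    · exact ⟨d, hd, rfl, Or.inr h⟩
  refine ⟨(Finset.finite_toSet (box (24 + s))).subset fun c hc => ?_, fun c hc => ?_, (kd_p s).ge,
    (kd_q s).ge, fun h => ?_, ?_, ?_, fun c hc h1 h2 => ?_⟩
  · have h : 2 ≤ kd (lab s c) := hc
    refine Finset.mem_coe.2 (mem_box.2 fun i => ?_)
    have := (at_cen s c).2.2.2.1 (by omega) i
    omega
  · have h : 2 ≤ kd (lab s c) := hc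
    show kd (lab s c) ≠ 0
    omega
  · have := congrFun h 0
    simp at this
    omega
  · rintro c t ⟨d, hd, rfl, h⟩
    have h1 := src_kd h
    obtain ⟨h2, h3, -⟩ := at_tg hd h
    refine ⟨by show 2 ≤ _; omega, fun e => ?_, fun e => ?_, h2, (dv_adj t hd).symm,
      fun e e' => h3 ?_⟩
    · rw [e, kd_p] at h1; omega
    · rw [e, kd_q] at h1; omega
    · have h4 := kd_lt (lab s t)
      have h5 := (at_cen s t).2.2.1
      by_contra h6
      rcases h5 (by omega) with h7 | h7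
      exacts [e' h7, e h7]
  · rintro c t a b ⟨d, hd, rfl, h⟩ h1 h2 h3 h4 h5
    obtain ⟨x, hx, rfl, h6⟩ := nb h4
    obtain ⟨y, hy, rfl, h7⟩ := nb h5
    exact (at_tg hd h).2.2.1 x hx y hy (fun e => h2 (by rw [e])) (fun e => h3 (by rw [e]))
      (fun e => h1 (by rw [e])) h6 h7
  · have h : 2 ≤ kd (lab s c) := hc
    have h4 := kd_lt (lab s c)
    have h3 : kd (lab s c) = 3 := by
      by_contra h6
      rcases (at_cen s c).2.2.1 (by omega) with h7 | h7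
      exacts [h2 h7, h1 h7]
    obtain ⟨h5, h6 | ⟨h6, h7⟩⟩ := (at_cen s c).2.1 h3
    · obtain ⟨e, e'⟩ := tg_of h3 h5 (Or.inl rfl)
      have h8 := (op_lt h5).1
      refine Or.inr ⟨_, ⟨_, h8, e, e'⟩, fun a ha => ?_⟩
      have h9 := (at_tg h8 (by rw [← e]; exact e')).2.2.2 (by rw [← e]; exact h6)
      rw [← e] at h9
      refine ⟨fun h10 => ?_, ?_⟩
      · obtain ⟨d, hd, rfl⟩ := adj_dv h10.symm
        exact (h9 d hd fun e2 => ha (by rw [e2, ← e])).1
      · rintro ⟨d, hd, rfl, h10⟩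
        exact (h9 d hd fun e2 => ha (by rw [e2, ← e])).2 h10
    · obtain ⟨e, e'⟩ := tg_of h3 h5 (Or.inl rfl)
      obtain ⟨f, f'⟩ := tg_of h3 h6 (Or.inr rfl)
      exact Or.inl ⟨_, _, fun h8 => h7 (dv_inj h5 h6 (add_left_cancel h8)),
        ⟨_, (op_lt h5).1, e, e'⟩, ⟨_, (op_lt h6).1, f, f'⟩⟩

theorem adj_sub (x y a : P) : Adj (x - a) (y - a) ↔ Adj x y := by
  rw [sub_eq_add_neg, sub_eq_add_neg, adj_add]

/-- Translating a funnel. -/
theorem shift {B D : Set P} {p q : P} {T : P → P → Prop} {τ : P → ℕ ×ₗ ℤ}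
    (h : Funnel B D p q T τ) (a : P) : Funnel {c | c - a ∈ B} {c | c - a ∈ D} (p + a) (q + a)
      (fun c t => T (c - a) (t - a)) (fun c => τ (c - a)) := by
  have e : ∀ x y : P, x ≠ y + a ↔ x - a ≠ y := fun x y => not_congr sub_eq_iff_eq_add.symm
  have e2 : ∀ {x y : P}, x ≠ y → x - a ≠ y - a := fun h h' => h (sub_left_injective h')
  refine ⟨h.fin.preimage (f := fun c => c - a) sub_left_injective.injOn, fun c hc => h.sub hc,
    by simpa using h.hp, by simpa using h.hq, fun h' => h.ne (add_right_cancel h'),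
    fun c t h' => ?_, fun c t x y h1 h2 h3 h4 h5 h6 => ?_, fun c hc h1 h2 => ?_⟩
  · simpa only [e, adj_sub, Set.mem_ofPred_eq] using h.tgt _ _ h'
  · exact h.deg _ _ (x - a) (y - a) h1 (e2 h2) (e2 h3) (e2 h4) (by rwa [adj_sub])
      (by rwa [adj_sub])
  · rcases h.out _ hc ((e _ _).1 h1) ((e _ _).1 h2) with ⟨t, t', h3, h4, h5⟩ | ⟨t, h3, h4⟩
    · exact Or.inl ⟨t + a, t' + a, fun h' => h3 (add_right_cancel h'), by simpa using h4,
        by simpa using h5⟩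
    · refine Or.inr ⟨t + a, by simpa using h3, fun x hx => ?_⟩
      have := h4 (x - a) (e2 hx)
      rw [← adj_sub x (t + a) a]
      simpa using this

end TABx

open TABx

theorem tab_ok : TabStmt := by
  intro r a hr
  obtain ⟨s, rfl⟩ : ∃ s, r = s + 1 := ⟨r - 1, by omega⟩
  refine ⟨_, _, _, _, _, _, shift (funnel s) a, fun c hc y hy h => ?_, fun c hc i => ?_,
    fun y h h' => (at_cen s _).2.2.2.2 h h', fun y hy => ?_, ?_, ?_⟩
  · have h1 : kd (lab s (c - a)) ≠ 0 := hc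
    have h2 := fun e => (at_cen s (c - a)).1 e (y - a) ((adj_sub _ _ _).2 h)
    show 2 ≤ kd (lab s (c - a))
    by_contra h3
    exact hy (h2 (by omega))
  · have := (at_cen s (c - a)).2.2.2.1 hc i
    push_cast
    omega
  · have h1 : a + o5 + y - a = o5 + y := by abel
    have h2 := kd_cube s hy
    simp only [Set.mem_ofPred_eq, h1, h2]
    omega
  · rw [add_comm a, adj_add]
    simp [Adj, d1_eq, o5]
  · rw [add_assoc, add_comm a, adj_add]
    simp only [Adj, d1_eq, o5, Pi.add_apply]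
    simp
    omega

end Pool.Agent.MP_7b45f6_mp.H97
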