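import Pool.Agent.MP_7b45f6_mp.H97.INIT
import Pool.Agent.MP_7b45f6_mp.H97.STEP
import Pool.Agent.MP_7b45f6_mp.H97.ARC
import Pool.Agent.MP_7b45f6_mp.H97.TAB
import Pool.Agent.MP_7b45f6_mp.H97.CLEAR
import Pool.Agent.MP_7b45f6_mp.H97.LOC
import Pool.Agent.MP_7b45f6_mp.H97.MOD
import Pool.Agent.MP_7b45f6_mp.H97.ONE
import Pool.Agent.MP_7b45f6_mp.H97.ITER
import Pool.Agent.MP_7b45f6_mp.H97.LIM

set_option autoImplicit false

namespace Pool.Agent.MP_7b45f6_mp.H97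

theorem clear : ClearStmt := clear_of (arc_of init step) tab_ok

theorem pt : PTStmt := pt_of (one_of (mod_of clear loc)) iter lim

end Pool.Agent.MP_7b45f6_mp.H97
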