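import Pool.Agent.MP_7b45f6_mp.H97.Spec

/-!
# The second difference of the free energy
-/

set_option autoImplicit false

namespace Pool.Agent.MP_7b45f6_mp.H97

open Classical Filter Topology Pool.Agent.MP_7b45f6_mp.H32

namespace QNTx

theorem half_le_log {x : ℝ} (h0 : 0 ≤ x) (h1 : x ≤ 1) : x / 2 ≤ Real.log (1 + x) := by
  have hp : 0 < 1 + x := by linarith
  refine le_trans ?_ (Real.one_sub_inv_le_log_of_pos hp)
  have : 1 - (1 + x)⁻¹ = x / (1 + x) := by field_simp; ring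
  rw [this]
  exact div_le_div_of_nonneg_left h0 hp (by linarith)

theorem cast_atTop : Tendsto (fun m : ℕ => ((2 * m : ℕ) : ℝ)) atTop atTop :=
  tendsto_natCast_atTop_atTop.comp (tendsto_id.const_mul_atTop' (by norm_num))

theorem exp_half {c : ℝ} (hc : 0 < c) :
    ∀ᶠ m : ℕ in atTop, Real.exp (-c * (2 * m : ℕ)) ≤ 1 / 2 := by
  have h : Tendsto (fun m : ℕ => Real.exp (-c * (2 * m : ℕ))) atTop (𝓝 0) :=
    Real.tendsto_exp_atBot.comp (cast_atTop.const_mul_atTop_of_neg (by linarith))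
  exact h.eventually (ge_mem_nhds (by norm_num))

theorem logs {Z A B y e n : ℝ} (hZ : 0 < Z) (hA : 0 < A) (hB : 0 < B) (hy : 0 < y) (hn : 0 < n)
    (h : (Z / 128) ^ 2 * y ^ (e * n / 64) ≤ A * B) :
    2 * (Real.log Z / n) - 2 * Real.log 128 / n + e / 64 * Real.log y ≤
      Real.log A / n + Real.log B / n := by
  have h1 := Real.log_le_log (by positivity) h
  rw [Real.log_mul (by positivity) (by positivity), Real.log_mul hA.ne' hB.ne', Real.log_pow,
    Real.log_rpow hy, Real.log_div hZ.ne' (by norm_num)] at h1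
  have h2 := div_le_div_of_nonneg_right h1 hn.le
  refine le_trans (le_of_eq ?_) (h2.trans (le_of_eq ?_))
  · push_cast
    field_simp
  · ring

end QNTx

theorem qnt_of (h1 : PTStmt) (h2 : FlaStmt) (h3 : FinStmt) (h4 : LimStmt) : QntStmt := by
  intro α β
  obtain ⟨ε, hε, c, hc, hPT⟩ := h1 α β 3 g1 h2.1
  set κ : ℝ := Real.exp β / (Real.exp β + 1) ^ 2 with hκ
  have he := Real.exp_pos β
  have hκ0 : 0 < κ := by positivity
  have hκ1 : κ ≤ 1 := by
    rw [hκ, div_le_one (by positivity)]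
    nlinarith
  refine ⟨ε * κ / 128, by positivity, fun t ht => ?_⟩
  have ht2 : t ^ 2 ≤ 1 := by
    rw [← sq_abs]
    exact pow_le_one₀ (abs_nonneg t) ht
  have hx0 : 0 ≤ κ * t ^ 2 := by positivity
  have hx1 : κ * t ^ 2 ≤ 1 := mul_le_one₀ hκ1 (sq_nonneg t) ht2
  have hlog := QNTx.half_le_log hx0 hx1
  have hL : Tendsto (fun m : ℕ => 2 * (Real.log (Zp (2 * m) α β) / (2 * m : ℕ)) -
      2 * Real.log 128 / (2 * m : ℕ) + ε / 64 * Real.log (1 + κ * t ^ 2)) atTop
      (𝓝 (2 * Fe α β - 0 + ε / 64 * Real.log (1 + κ * t ^ 2))) :=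
    (((h4 α β).1.const_mul 2).sub (QNTx.cast_atTop.const_div_atTop _)).add_const _
  have hR := (h4 α (β + t)).1.add (h4 α (β - t)).1
  have hle : 2 * Fe α β - 0 + ε / 64 * Real.log (1 + κ * t ^ 2) ≤
      Fe α (β + t) + Fe α (β - t) := by
    refine le_of_tendsto_of_tendsto hL hR ?_
    filter_upwards [hPT, QNTx.exp_half hc, eventually_ge_atTop 2] with m hm hh h2m
    have hZ := (h4 α β).2.1 m h2m
    refine QNTx.logs hZ ((h4 α (β + t)).2.1 m h2m) ((h4 α (β - t)).2.1 m h2m) (by linarith)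
      (by exact_mod_cast (by omega : 0 < 2 * m)) (h3 α β t ε (2 * m) hε.le (hm.trans ?_))
    nlinarith
  have : ε / 64 * (κ * t ^ 2 / 2) ≤ ε / 64 * Real.log (1 + κ * t ^ 2) :=
    mul_le_mul_of_nonneg_left hlog (by positivity)
  nlinarith

end Pool.Agent.MP_7b45f6_mp.H97
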