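import Pool.Agent.MP_7b45f6_mp.H97.MainPT
import Pool.Agent.MP_7b45f6_mp.H97.FLA
import Pool.Agent.MP_7b45f6_mp.H97.FLB
import Pool.Agent.MP_7b45f6_mp.H97.FLC
import Pool.Agent.MP_7b45f6_mp.H97.CS
import Pool.Agent.MP_7b45f6_mp.H97.FIN
import Pool.Agent.MP_7b45f6_mp.H97.QNT
import Pool.Agent.MP_7b45f6_mp.H97.CVX

set_option autoImplicit false

namespace Pool.Agent.MP_7b45f6_mp.H97

theorem qnt : QntStmt := qnt_of pt fla (fin_of fla flb (flc_of fla flb) cs) lim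

theorem cvx : CvxStmt := cvx_of lim qnt

end Pool.Agent.MP_7b45f6_mp.H97
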