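import Pool.Agent.MP_7b45f6_mp.H97.Defs
import Pool.Agent.MP_7b45f6_mp.H52.CONV
import Pool.Agent.MP_7b45f6_mp.H36.POLY

/-!
# Pattern theorem and strict convexity: the statements of the steps
-/

set_option autoImplicit false

namespace Pool.Agent.MP_7b45f6_mp.H97

open Classical Filter Topology Pool.Agent.MP_7b45f6_mp.H32

/-- Polygons as cyclic lists. -/
def Cyc (w : List P) : Prop := 3 ≤ w.length ∧ w.Nodup ∧ (w ++ w.take 1).IsChain Adj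

/-- The edges of a cyclic list. -/
noncomputable def ce (w : List P) : Finset (Sym2 P) := edges (w ++ w.take 1)

/-- Both ends of `e` lie in `B`. -/
def Ins (B : Set P) (e : Sym2 P) : Prop := ∀ p ∈ e, p ∈ B

/-- A funnel in `B` with cells `D`, exits `p`, `q`, targets `T` and time `τ`. -/
structure Funnel (B D : Set P) (p q : P) (T : P → P → Prop) (τ : P → ℕ ×ₗ ℤ) : Prop where
  fin : D.Finite
  sub : D ⊆ B
  hp : p ∈ D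
  hq : q ∈ D
  ne : p ≠ q
  tgt : ∀ c t, T c t → c ∈ D ∧ c ≠ p ∧ c ≠ q ∧ t ∈ D ∧ Adj c t ∧ (t ≠ p → t ≠ q → τ c < τ t)
  deg : ∀ c t a b, T c t → a ≠ b → a ≠ c → b ≠ c → (Adj a t ∧ a ∉ B ∨ T a t) →
    (Adj b t ∧ b ∉ B ∨ T b t) → False
  out : ∀ c ∈ D, c ≠ p → c ≠ q → (∃ t t', t ≠ t' ∧ T c t ∧ T c t') ∨
    ∃ t, T c t ∧ ∀ a, a ≠ c → (Adj a t → a ∈ B) ∧ (T a t → τ c < τ a)

/-- A system `L` of arcs after the cells of `X` have been processed. -/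
structure St (B D : Set P) (T : P → P → Prop) (K : Finset (Sym2 P)) (X : Set P)
    (L : List (List P)) : Prop where
  ne : L ≠ []
  nd : L.flatten.Nodup
  ch : ∀ v ∈ L, v.IsChain Adj ∧ 2 ≤ v.length
  en : ∀ v ∈ L, (hd v ∈ D ∧ hd v ∉ X) ∧ lt v ∈ D ∧ lt v ∉ X
  ed : ∀ e, ¬ Ins B e → ((∃ v ∈ L, e ∈ edges v) ↔ e ∈ K)
  ins : ∀ v ∈ L, ∀ e ∈ edges v, Ins B e → ∃ c t, e = s(c, t) ∧ c ∈ X ∧ T c t
  vd : ∀ v ∈ L, ∀ x ∈ v, x ∈ B → x ∈ D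

/-- Row INIT: delete the edges inside `B`. -/
def InitStmt : Prop :=
  ∀ (B D : Set P) (T : P → P → Prop) (w : List P), Cyc w → (∃ e ∈ ce w, Ins B e) →
    (∃ e ∈ ce w, ¬ Ins B e) → (∀ c ∈ B, ∀ a, a ∉ B → s(c, a) ∈ ce w → c ∈ D) →
    ∃ L, St B D T (ce w) ∅ L

/-- Row STEP: process one cell. -/
def StepStmt : Prop :=
  ∀ (B D : Set P) (p q : P) (T : P → P → Prop) (τ : P → ℕ ×ₗ ℤ) (K : Finset (Sym2 P))
    (X : Set P) (L : List (List P)) (c : P), Funnel B D p q T τ → St B D T K X L → c ∈ D →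
    c ∉ X → c ≠ p → c ≠ q → (∀ a ∈ X, a ≠ p ∧ a ≠ q ∧ τ a ≤ τ c) →
    ∃ L', St B D T K (insert c X) L'

/-- Row ARC (from INIT and STEP): one arc from `p` to `q` is left. -/
def ArcStmt : Prop :=
  ∀ (B D : Set P) (p q : P) (T : P → P → Prop) (τ : P → ℕ ×ₗ ℤ) (w : List P),
    Funnel B D p q T τ → Cyc w → (∃ e ∈ ce w, Ins B e) → (∃ e ∈ ce w, ¬ Ins B e) →
    (∀ c ∈ B, ∀ a, a ∉ B → s(c, a) ∈ ce w → c ∈ D) →
    ∃ v : List P, v.Nodup ∧ v.IsChain Adj ∧ 2 ≤ v.length ∧ hd v = p ∧ lt v = q ∧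
      (∀ e, ¬ Ins B e → (e ∈ edges v ↔ e ∈ ce w)) ∧ ∀ x ∈ v, x ∈ B → x ∈ D

/-- The box with anchor `a`. -/
def Box (r : ℕ) (a : P) : Set P := {y | InCube (r + 23) (y - a)}

/-- The offset of the pattern in the box. -/
def o5 : P := fun _ => 5

/-- Row TAB: the funnel. -/
def TabStmt : Prop :=
  ∀ (r : ℕ) (a : P), 1 ≤ r → ∃ (B D : Set P) (p q : P) (T : P → P → Prop) (τ : P → ℕ ×ₗ ℤ),
    Funnel B D p q T τ ∧ (∀ c ∈ B, ∀ y, y ∉ B → Adj c y → c ∈ D) ∧ B ⊆ Box r a ∧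
    (∀ y, InCube 7 (y - a) → 4 ≤ ∑ i, (y - a) i → y ∈ B) ∧
    (∀ y, InCube r y → a + o5 + y ∈ B ∧ a + o5 + y ∉ D) ∧ Adj q (a + o5) ∧
    Adj (a + o5 + fun _ => (r : ℤ)) p

/-- Row CLEAR (from ARC and TAB). -/
def ClearStmt : Prop :=
  ∀ (r : ℕ) (γ : List P), IsPattern r γ → ∀ (a : P) (w : List P), Cyc w →
    (∃ e ∈ ce w, ∀ y ∈ e, InCube 7 (y - a) ∧ 4 ≤ ∑ i, (y - a) i) → (∃ y ∈ w, y ∉ Box r a) →
    ∃ w', Cyc w' ∧ (∀ e, ¬ Ins (Box r a) e → (e ∈ ce w' ↔ e ∈ ce w)) ∧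
      Occurs r γ (ce w') (a + o5)

/-- Row LOC: two polygons that agree outside a box. -/
def LocStmt : Prop :=
  ∀ (α β : ℝ) (r : ℕ) (γ : List P), IsPattern r γ → ∃ C : ℕ, ∀ (a : P) (w w' : List P),
    Cyc w → Cyc w' → (∀ e, ¬ Ins (Box r a) e → (e ∈ ce w' ↔ e ∈ ce w)) →
    (∀ y, y ∉ Box r a → (y ∈ w' ↔ y ∈ w)) ∧ w'.length ≤ w.length + C ∧
      w.length ≤ w'.length + C ∧ POLY.wt α β (ce w) ≤ C * POLY.wt α β (ce w') ∧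
      occ r γ (ce w') ≤ occ r γ (ce w) + C

/-- The anchor of a vertex. -/
def anc (p : P) : P := fun i => max 0 (p i - 6)

/-- Row MOD (from CLEAR and LOC). -/
def ModStmt : Prop :=
  ∀ (α β : ℝ) (r : ℕ) (γ : List P), IsPattern r γ → ∃ C : ℕ, ∀ n : ℕ, ∀ E ∈ Polys n,
    ∃ G ⊆ verts E, n ≤ G.card + C ∧ ∀ p ∈ G, ∃ n' : ℕ, ∃ E' ∈ Polys n', n' ≤ n + C ∧ n ≤ n' + C ∧
      POLY.wt α β E ≤ C * POLY.wt α β E' ∧ occ r γ E' ≤ occ r γ E + C ∧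
      Occurs r γ E' (anc p + o5) ∧ ∀ e, ¬ Ins (Box r (anc p)) e → (e ∈ E' ↔ e ∈ E)

/-- The polygons with `n` edges as a finite set. -/
noncomputable def PF (n : ℕ) : Finset (Finset (Sym2 P)) := (POLY.finite_polys conv n).toFinset

/-- The weight of the polygons with at most `k` occurrences. -/
noncomputable def AA (α β : ℝ) (r : ℕ) (γ : List P) (n k : ℕ) : ℝ :=
  ∑ E ∈ (PF n).filter (fun E => occ r γ E ≤ k), POLY.wt α β E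

/-- Row ONE (from MOD): the one-step inequality. -/
def OneStmt : Prop :=
  ∀ (α β : ℝ) (r : ℕ) (γ : List P), IsPattern r γ → ∃ C : ℕ, ∀ n k : ℕ,
    ((n : ℝ) - C) * AA α β r γ n k ≤
      C * ((k : ℝ) + C) * ∑ n' ∈ Finset.Icc (n - C) (n + C), AA α β r γ n' (k + C)

/-- Row ITER: iterating the one-step inequality. -/
def IterStmt : Prop :=
  ∀ (A : ℕ → ℕ → ℝ) (Z : ℕ → ℝ) (F : ℝ) (C : ℕ), (∀ n k, 0 ≤ A n k ∧ A n k ≤ Z n) →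
    (∀ n k : ℕ, ((n : ℝ) - C) * A n k ≤
      C * ((k : ℝ) + C) * ∑ n' ∈ Finset.Icc (n - C) (n + C), A n' (k + C)) →
    (∀ η : ℝ, 0 < η → ∀ᶠ n : ℕ in atTop, Z n ≤ Real.exp ((F + η) * n)) →
    (∀ η : ℝ, 0 < η → ∀ᶠ m : ℕ in atTop, Real.exp ((F - η) * (2 * m : ℕ)) ≤ Z (2 * m)) →
    ∃ ε : ℝ, 0 < ε ∧ ∃ c : ℝ, 0 < c ∧ ∀ᶠ m : ℕ in atTop,
      A (2 * m) ⌊ε * (2 * m : ℕ)⌋₊ ≤ Real.exp (-c * (2 * m : ℕ)) * Z (2 * m)

/-- The free energy. -/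
noncomputable def Fe (α β : ℝ) : ℝ :=
  limUnder atTop fun m : ℕ => Real.log (Zp (2 * m) α β) / (2 * m : ℕ)

/-- Row LIM (from `H32.main`). -/
def LimStmt : Prop :=
  ∀ α β : ℝ, Tendsto (fun m : ℕ => Real.log (Zp (2 * m) α β) / (2 * m : ℕ)) atTop (𝓝 (Fe α β)) ∧
    (∀ m : ℕ, 2 ≤ m → 0 < Zp (2 * m) α β) ∧
    (∀ η : ℝ, 0 < η → ∀ᶠ n : ℕ in atTop, Zp n α β ≤ Real.exp ((Fe α β + η) * n)) ∧
    ∀ η : ℝ, 0 < η → ∀ᶠ m : ℕ in atTop, Real.exp ((Fe α β - η) * (2 * m : ℕ)) ≤ Zp (2 * m) α β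

/-- The pattern theorem. -/
def PTStmt : Prop :=
  ∀ (α β : ℝ) (r : ℕ) (γ : List P), IsPattern r γ → ∃ ε : ℝ, 0 < ε ∧ ∃ c : ℝ, 0 < c ∧
    ∀ᶠ m : ℕ in atTop, Zfew r γ ε (2 * m) α β ≤ Real.exp (-c * (2 * m : ℕ)) * Zp (2 * m) α β

/-! ### Strict convexity -/

/-- The first pattern. -/
def g1 : List P :=
  [![0, 0, 0], ![0, 0, 1], ![0, 0, 2], ![0, 1, 2], ![0, 1, 1], ![1, 1, 1], ![1, 1, 2], ![2, 1, 2],
    ![2, 2, 2], ![3, 2, 2], ![3, 3, 2], ![3, 3, 3]]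

/-- The second pattern: one corner is flipped, one contact is lost. -/
def g2 : List P :=
  [![0, 0, 0], ![0, 0, 1], ![0, 0, 2], ![0, 1, 2], ![0, 1, 1], ![1, 1, 1], ![2, 1, 1], ![2, 1, 2],
    ![2, 2, 2], ![3, 2, 2], ![3, 3, 2], ![3, 3, 3]]

/-- The flip at `x`. -/
noncomputable def flp (x : P) (E : Finset (Sym2 P)) : Finset (Sym2 P) :=
  if Occurs 3 g1 E x ∨ Occurs 3 g2 E x then
    E.image (Sym2.map (Equiv.swap (x + ![1, 1, 2]) (x + ![2, 1, 1]))) else E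

/-- Row FLA: the flip keeps the class of polygons. -/
def FlaStmt : Prop :=
  IsPattern 3 g1 ∧ ∀ (n : ℕ) (x : P), ∀ E ∈ Polys n, flp x E ∈ Polys n ∧
    visits (verts (flp x E)) = visits (verts E)

/-- Row FLB: the flip exchanges the two patterns and does not see the other cubes. -/
def FlbStmt : Prop :=
  ∀ (x : P) (E : Finset (Sym2 P)), flp x (flp x E) = E ∧
    (Occurs 3 g1 E x ↔ Occurs 3 g2 (flp x E) x) ∧ ¬ (Occurs 3 g1 E x ∧ Occurs 3 g2 E x) ∧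
    ∀ y : P, y ≠ x → (∀ i, (4 : ℤ) ∣ y i - x i) →
      (Occurs 3 g1 (flp x E) y ↔ Occurs 3 g1 E y) ∧ (Occurs 3 g2 (flp x E) y ↔ Occurs 3 g2 E y)

/-- Row FLC (from FLA): the flip changes the number of contacts by one. -/
def FlcStmt : Prop :=
  ∀ (n : ℕ) (x : P), ∀ E ∈ Polys n, Occurs 3 g1 E x →
    contacts (verts E) E = contacts (verts (flp x E)) (flp x E) + 1

/-- Row CS: Cauchy-Schwarz with independent two-state variables. -/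
def CSStmt : Prop :=
  ∀ (Ω ι : Type) (S : Finset Ω) (I : Finset ι) (σ : ι → Ω → Ω) (a b : ι → Ω → Prop) (w : Ω → ℝ)
    (k : Ω → ℕ) (β t : ℝ), (∀ ω ∈ S, 0 ≤ w ω) →
    (∀ i ∈ I, ∀ ω ∈ S, σ i ω ∈ S ∧ σ i (σ i ω) = ω ∧ w (σ i ω) = w ω ∧ (a i ω ↔ b i (σ i ω)) ∧
      ¬ (a i ω ∧ b i ω) ∧ (a i ω → k ω = k (σ i ω) + 1) ∧
      ∀ j ∈ I, j ≠ i → (a j (σ i ω) ↔ a j ω) ∧ (b j (σ i ω) ↔ b j ω)) →
    (∑ ω ∈ S, w ω * Real.exp (β * k ω) *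
        √(1 + Real.exp β / (Real.exp β + 1) ^ 2 * t ^ 2) ^
          (I.filter fun i => a i ω ∨ b i ω).card) ^ 2 ≤
      (∑ ω ∈ S, w ω * Real.exp ((β + t) * k ω)) * ∑ ω ∈ S, w ω * Real.exp ((β - t) * k ω)

/-- Row FIN (from FLA, FLB, FLC, CS): the inequality at finite length. -/
def FinStmt : Prop :=
  ∀ (α β t ε : ℝ) (n : ℕ), 0 ≤ ε → Zfew 3 g1 ε n α β ≤ Zp n α β / 2 →
    (Zp n α β / 128) ^ 2 * (1 + Real.exp β / (Real.exp β + 1) ^ 2 * t ^ 2) ^ (ε * n / 64) ≤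
      Zp n α (β + t) * Zp n α (β - t)

/-- Row QNT (from PT, FLA, FIN, LIM): the second difference of the free energy. -/
def QntStmt : Prop :=
  ∀ α β : ℝ, ∃ c : ℝ, 0 < c ∧ ∀ t : ℝ, |t| ≤ 1 →
    c * t ^ 2 ≤ Fe α (β + t) + Fe α (β - t) - 2 * Fe α β

/-- Row CVX (from LIM and QNT). -/
def CvxStmt : Prop := ∀ α : ℝ, StrictConvexOn ℝ Set.univ (Fe α)

theorem mem_PF {n : ℕ} {E : Finset (Sym2 P)} : E ∈ PF n ↔ E ∈ Polys n := Set.Finite.mem_toFinset _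

theorem Zp_PF (n : ℕ) (α β : ℝ) : Zp n α β = ∑ E ∈ PF n, POLY.wt α β E := POLY.Zp_eq conv n α β

theorem Zfew_PF (r : ℕ) (γ : List P) (ε : ℝ) (n : ℕ) (α β : ℝ) :
    Zfew r γ ε n α β = ∑ E ∈ (PF n).filter (fun E => (occ r γ E : ℝ) ≤ ε * n), POLY.wt α β E := by
  rw [Zfew, ← finsum_mem_coe_finset]
  congr 1
  ext E
  simp [mem_PF, POLY.wt]

/-- The pattern theorem from its rows. -/
theorem pt_of (h1 : OneStmt) (h2 : IterStmt) (h3 : LimStmt) : PTStmt := by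
  intro α β r γ h
  obtain ⟨C, hC⟩ := h1 α β r γ h
  obtain ⟨ε, hε, c, hc, h4⟩ := h2 (AA α β r γ) (fun n => Zp n α β) (Fe α β) C
    (fun n k => ⟨Finset.sum_nonneg fun _ _ => (Real.exp_pos _).le, by
      rw [Zp_PF]
      exact Finset.sum_le_sum_of_subset_of_nonneg (Finset.filter_subset _ _)
        fun _ _ _ => (Real.exp_pos _).le⟩) hC (h3 α β).2.2.1 (h3 α β).2.2.2
  refine ⟨ε, hε, c, hc, h4.mono fun m hm => le_trans (le_of_eq ?_) hm⟩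
  rw [Zfew_PF, AA]
  congr 1
  ext E
  simp only [Finset.mem_filter, and_congr_right_iff]
  exact fun _ => (Nat.le_floor_iff (by positivity)).symm

end Pool.Agent.MP_7b45f6_mp.H97
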